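import Mathlib

/-! Heights of primes in polynomial rings and the cell lemma. -/

namespace Pool.Agent.MP_52bf41_ag.H1

section General

open Polynomial

variable {S : Type*} [CommRing S]

theorem ht_lt {p q : Ideal S} [p.IsPrime] [q.IsPrime] (h : p < q) : p.height + 1 ≤ q.height :=
  Ideal.height_add_one_le_of_lt_of_isPrime h

theorem eq_of_ht {p q : Ideal S} [p.IsPrime] [q.IsPrime] {d : ℕ} (h : p ≤ q)
    (hp : p.height = d) (hq : q.height = d) : p = q := by
  by_contra hne
  have := ht_lt (lt_of_le_of_ne h hne)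
  rw [hp, hq] at this
  exact absurd (by exact_mod_cast this : d + 1 ≤ d) (by omega)

theorem eq_or_eq_of_ht {p q r : Ideal S} [p.IsPrime] [q.IsPrime] [r.IsPrime] {d : ℕ}
    (h : p ≤ q) (h' : q ≤ r) (hp : p.height + 1 = d) (hr : r.height = d) : q = p ∨ q = r := by
  by_contra hne
  push Not at hne
  have h1 := ht_lt (lt_of_le_of_ne h hne.1.symm)
  have h2 := ht_lt (lt_of_le_of_ne h' hne.2)
  rw [hp] at h1
  rw [hr] at h2
  have : ((d : ℕ∞) + 1) ≤ d := le_trans (by gcongr) h2
  exact absurd (by exact_mod_cast this : d + 1 ≤ d) (by omega)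

theorem le_ht_of_chain (p : Ideal S) [p.IsPrime] (r : ℕ) (q : ℕ → Ideal S)
    (hq : ∀ l, (q l).IsPrime) (hlt : ∀ l < r, q l < q (l + 1)) (hle : q r ≤ p) :
    (r : ℕ∞) ≤ p.height := by
  have key : ∀ l ≤ r, (l : ℕ∞) ≤ (q l).height := by
    intro l
    induction l with
    | zero => intro _; simp
    | succ l ih =>
      intro hl
      haveI := hq l
      haveI := hq (l + 1)
      have := ht_lt (hlt l (by omega))
      refine le_trans ?_ this
      push_cast
      gcongr
      exact ih (by omega)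
  exact (key r le_rfl).trans (Ideal.height_mono hle)

theorem ht_map_of_flat {B : Type*} [CommRing B] [Algebra S B] [IsNoetherianRing S]
    [IsNoetherianRing B] [Module.Flat S B] (p : Ideal S) [p.IsPrime]
    [(p.map (algebraMap S B)).IsPrime] (h : (p.map (algebraMap S B)).comap (algebraMap S B) = p) :
    (p.map (algebraMap S B)).height = p.height := by
  have : (p.map (algebraMap S B)).LiesOver p := ⟨h.symm⟩
  simp [Ideal.height_eq_height_add_of_liesOver_of_hasGoingDown p]

theorem comap_map_C (p : Ideal S) : (p.map (C : S →+* S[X])).comap C = p := by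
  ext x
  simp only [Ideal.mem_comap, Ideal.mem_map_C_iff]
  constructor
  · intro h
    simpa using h 0
  · intro h n
    rw [coeff_C]
    split_ifs
    · exact h
    · exact p.zero_mem

theorem comap_map_mvC {γ : Type*} (p : Ideal S) :
    (p.map (MvPolynomial.C : S →+* MvPolynomial γ S)).comap MvPolynomial.C = p := by
  classical
  ext x
  simp only [Ideal.mem_comap, MvPolynomial.mem_map_C_iff]
  constructor
  · intro h
    simpa using h 0
  · intro h n
    rw [MvPolynomial.coeff_C]
    split_ifs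
    · exact h
    · exact p.zero_mem

theorem isPrime_map_mvC {γ : Type*} (p : Ideal S) [p.IsPrime] :
    (p.map (MvPolynomial.C : S →+* MvPolynomial γ S)).IsPrime := by
  have := MvPolynomial.ker_map (σ := γ) (Ideal.Quotient.mk p)
  rw [Ideal.mk_ker] at this
  rw [← this]
  exact RingHom.ker_isPrime _

theorem ht_map_C [IsNoetherianRing S] (p : Ideal S) [p.IsPrime] :
    (p.map (C : S →+* S[X])).height = p.height :=
  haveI : (p.map (algebraMap S S[X])).IsPrime := Ideal.isPrime_map_C_of_isPrime
  ht_map_of_flat (B := S[X]) p (comap_map_C p)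

theorem ht_map_mvC [IsNoetherianRing S] {γ : Type*} [Finite γ] (p : Ideal S) [p.IsPrime] :
    (p.map (MvPolynomial.C : S →+* MvPolynomial γ S)).height = p.height :=
  haveI : (p.map (algebraMap S (MvPolynomial γ S))).IsPrime := isPrime_map_mvC p
  ht_map_of_flat (B := MvPolynomial γ S) p (comap_map_mvC p)

attribute [local instance] Polynomial.algebra Polynomial.isLocalization in
theorem ht_le_one_of_comap_bot [IsDomain S] (Q : Ideal S[X]) [Q.IsPrime]
    (h : Q.comap C = ⊥) : Q.height ≤ 1 := by
  let K := FractionRing S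
  have disj : Disjoint ((nonZeroDivisors S).map C : Set S[X]) Q := by
    refine Set.disjoint_left.mpr fun a ⟨b, hb⟩ ha => ?_
    have : b ∈ Q.comap C := by
      rw [Ideal.mem_comap, hb.2]
      exact ha
    rw [h, Ideal.mem_bot] at this
    exact nonZeroDivisors.ne_zero hb.1 this
  rw [← IsLocalization.height_map_of_disjoint (S := K[X]) _ Q disj]
  haveI := IsLocalization.isPrime_of_isPrime_disjoint ((nonZeroDivisors S).map C) K[X] Q ‹_› disj
  have h1 := Ideal.height_le_ringKrullDim_of_isPrime (I := Q.map (algebraMap S[X] K[X]))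
  rw [Polynomial.ringKrullDim_of_isNoetherianRing, ringKrullDim_eq_zero_of_field] at h1
  exact_mod_cast h1

attribute [local instance] MvPolynomial.algebraMvPolynomial in
theorem ht_le_card_of_comap_bot [IsDomain S] {γ : Type*} [Finite γ] (Q : Ideal (MvPolynomial γ S))
    [Q.IsPrime] (h : Q.comap MvPolynomial.C = ⊥) : Q.height ≤ Nat.card γ := by
  let K := FractionRing S
  have disj : Disjoint ((nonZeroDivisors S).map (MvPolynomial.C : S →+* MvPolynomial γ S) :
      Set (MvPolynomial γ S)) Q := by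
    refine Set.disjoint_left.mpr fun a ⟨b, hb⟩ ha => ?_
    have : b ∈ Q.comap MvPolynomial.C := by
      rw [Ideal.mem_comap, hb.2]
      exact ha
    rw [h, Ideal.mem_bot] at this
    exact nonZeroDivisors.ne_zero hb.1 this
  rw [← IsLocalization.height_map_of_disjoint (S := MvPolynomial γ K) _ Q disj]
  haveI := IsLocalization.isPrime_of_isPrime_disjoint
    ((nonZeroDivisors S).map MvPolynomial.C) (MvPolynomial γ K) Q ‹_› disj
  have h1 := Ideal.height_le_ringKrullDim_of_isPrime
    (I := Q.map (algebraMap (MvPolynomial γ S) (MvPolynomial γ K)))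
  rw [MvPolynomial.ringKrullDim_of_isNoetherianRing, ringKrullDim_eq_zero_of_field] at h1
  rw [zero_add] at h1
  exact_mod_cast h1

theorem ker_mk_poly (p : Ideal S) :
    RingHom.ker (mapRingHom (Ideal.Quotient.mk p)) = p.map C := by
  rw [Polynomial.ker_mapRingHom, Ideal.mk_ker]

theorem comap_map_mk (p : Ideal S) (r : Ideal S[X]) (h : r.comap C = p) :
    (r.map (mapRingHom (Ideal.Quotient.mk p))).comap C = ⊥ := by
  have hs : Function.Surjective (mapRingHom (Ideal.Quotient.mk p)) :=
    Polynomial.map_surjective _ Ideal.Quotient.mk_surjective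
  have hle : p.map C ≤ r := h ▸ Ideal.map_comap_le
  rw [eq_bot_iff]
  intro a ha
  obtain ⟨a, rfl⟩ := Ideal.Quotient.mk_surjective a
  rw [Ideal.mem_comap] at ha
  have h1 : C a ∈ (r.map (mapRingHom (Ideal.Quotient.mk p))).comap
      (mapRingHom (Ideal.Quotient.mk p)) := by
    rw [Ideal.mem_comap]
    simpa using ha
  rw [Ideal.comap_map_of_surjective _ hs, ← RingHom.ker_eq_comap_bot, ker_mk_poly,
    sup_eq_left.mpr hle] at h1
  rw [Ideal.mem_bot, Ideal.Quotient.eq_zero_iff_mem, ← h]
  exact h1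

theorem ht_le_succ [IsNoetherianRing S] (r : Ideal S[X]) [r.IsPrime] :
    r.height ≤ (r.comap C).height + 1 := by
  set p := r.comap C with hp
  haveI : p.IsPrime := Ideal.comap_isPrime _ _
  haveI : r.LiesOver p := ⟨rfl⟩
  rw [Ideal.height_eq_height_add_of_liesOver_of_hasGoingDown p r]
  gcongr
  have hs : Function.Surjective (mapRingHom (Ideal.Quotient.mk p)) :=
    Polynomial.map_surjective _ Ideal.Quotient.mk_surjective
  have hle : p.map C ≤ r := Ideal.map_comap_le
  haveI : (r.map (mapRingHom (Ideal.Quotient.mk p))).IsPrime :=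
    Ideal.map_isPrime_of_surjective hs (by rw [ker_mk_poly]; exact hle)
  have h1 := ht_le_one_of_comap_bot _ (comap_map_mk p r rfl)
  let e : (S[X] ⧸ (p.map (algebraMap S S[X]))) ≃+* (S ⧸ p)[X] :=
    (Ideal.polynomialQuotientEquivQuotientPolynomial p).symm
  rw [← e.height_map]
  have : Ideal.map e (r.map (Ideal.Quotient.mk (p.map (algebraMap S S[X])))) =
      r.map (mapRingHom (Ideal.Quotient.mk p)) := by
    rw [← Ideal.map_coe e, Ideal.map_map]
    congr 1
  rw [this]
  exact h1

theorem exists_gen_dom [IsDomain S] (r : Ideal S[X]) (hr : r ≠ ⊥) :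
    ∃ f ∈ r, f ≠ 0 ∧ ∀ r' : Ideal S[X], r'.IsPrime → f ∈ r' → r'.comap C = ⊥ → r ≤ r' := by
  classical
  have hex : ∃ n, ∃ f ∈ r, f ≠ 0 ∧ f.natDegree = n := by
    obtain ⟨f, hf, h0⟩ := Submodule.exists_mem_ne_zero_of_ne_bot hr
    exact ⟨_, f, hf, h0, rfl⟩
  obtain ⟨f, hf, h0, hn⟩ := Nat.find_spec hex
  refine ⟨f, hf, h0, fun r' hr' hf' hc => ?_⟩
  have hlc : C f.leadingCoeff ∉ r' := by
    intro h
    have : f.leadingCoeff ∈ r'.comap C := h
    rw [hc, Ideal.mem_bot] at this
    exact h0 (leadingCoeff_eq_zero.mp this)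
  have key : ∀ n, ∀ F ∈ r, F.natDegree = n → F ∈ r' := by
    intro n
    induction n using Nat.strong_induction_on with
    | _ n ih =>
      intro F hF hFn
      by_cases hF0 : F = 0
      · rw [hF0]; exact r'.zero_mem
      have hle : f.natDegree ≤ F.natDegree := hn ▸ Nat.find_min' hex ⟨F, hF, hF0, rfl⟩
      by_cases hpos : 0 < F.natDegree
      · have hlt := natDegree_cancelLeads_lt_of_natDegree_le_natDegree hle hpos
        have hm : f.cancelLeads F ∈ r :=
          r.sub_mem (r.mul_mem_left _ hF) (r.mul_mem_left _ hf)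
        have h1 := ih _ (hFn ▸ hlt) _ hm rfl
        rw [cancelLeads, tsub_eq_zero_iff_le.mpr hle, pow_zero, mul_one] at h1
        have h2 : C f.leadingCoeff * F ∈ r' := by
          have := r'.add_mem h1 (r'.mul_mem_left
            (C F.leadingCoeff * X ^ (F.natDegree - f.natDegree)) hf')
          simpa using this
        exact (hr'.mem_or_mem h2).resolve_left hlc
      · have : f.natDegree = 0 := by omega
        exfalso
        apply hlc
        rw [leadingCoeff, this, ← eq_C_of_natDegree_eq_zero this]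
        exact hf'
  exact fun F hF => key _ F hF rfl

theorem exists_gen (r : Ideal S[X]) [r.IsPrime] (hr : r ≠ (r.comap C).map C) :
    ∃ f ∈ r, f ∉ (r.comap C).map C ∧
      ∀ r' : Ideal S[X], r'.IsPrime → f ∈ r' → r'.comap C = r.comap C → r ≤ r' := by
  set p := r.comap C with hp
  haveI : p.IsPrime := Ideal.comap_isPrime _ _
  have hs : Function.Surjective (mapRingHom (Ideal.Quotient.mk p)) :=
    Polynomial.map_surjective _ Ideal.Quotient.mk_surjective
  have hle : p.map C ≤ r := Ideal.map_comap_le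
  have hne : r.map (mapRingHom (Ideal.Quotient.mk p)) ≠ ⊥ := by
    rw [Ne, Ideal.map_eq_bot_iff_le_ker, ker_mk_poly]
    exact fun h => hr (le_antisymm h hle)
  obtain ⟨f, hf, h0, hgen⟩ := exists_gen_dom _ hne
  obtain ⟨f, hf', rfl⟩ := (Ideal.mem_map_iff_of_surjective _ hs).mp hf
  refine ⟨f, hf', fun h => h0 ?_, fun r' hr' hfr hc => ?_⟩
  · rw [← ker_mk_poly] at h
    exact h
  · have hle' : p.map C ≤ r' := hc ▸ Ideal.map_comap_le
    have h1 := hgen (r'.map (mapRingHom (Ideal.Quotient.mk p)))
      (Ideal.map_isPrime_of_surjective hs (by rw [ker_mk_poly]; exact hle'))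
      (Ideal.mem_map_of_mem _ hfr) (comap_map_mk p r' hc)
    have h2 := Ideal.comap_mono (f := mapRingHom (Ideal.Quotient.mk p)) h1
    rw [Ideal.comap_map_of_surjective _ hs, Ideal.comap_map_of_surjective _ hs,
      ← RingHom.ker_eq_comap_bot, ker_mk_poly, sup_eq_left.mpr hle, sup_eq_left.mpr hle'] at h2
    exact h2

end General

/-- Closure rule for a predicate on primes of height `d` containing `c`. -/
def Rule {S : Type*} [CommRing S] (c : Ideal S) (d : ℕ) (Z : Ideal S → Prop) : Prop :=
  ∀ q r : Ideal S, q.IsPrime → r.IsPrime → c ≤ q → q.height + 1 = d → r.height = d → q ≤ r →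
    ∀ f, f ∉ q → f ∈ r →
      (∀ r' : Ideal S, r'.IsPrime → r'.height = d → q ≤ r' → f ∈ r' → r' ≠ r → Z r') → Z r

section Cell

open Polynomial

variable {S : Type*} [CommRing S]

theorem cell_poly [IsNoetherianRing S] {c : Ideal S} {d : ℕ} {Z : Ideal S[X] → Prop}
    (hR : Rule (c.map C) d Z)
    (hE : ∀ p : Ideal S, p.IsPrime → c ≤ p → p.height = d → Z (p.map C)) :
    ∀ r : Ideal S[X], r.IsPrime → c.map C ≤ r → r.height = d → Z r := by
  intro r hr hc hd
  have hcyl : ∀ r' : Ideal S[X], r'.IsPrime → c.map C ≤ r' → r'.height = d →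
      (r'.comap C).map C = r' → Z r' := by
    intro r' hr' hc' hd' he
    haveI : (r'.comap C).IsPrime := Ideal.comap_isPrime _ _
    rw [← he]
    refine hE _ inferInstance (Ideal.map_le_iff_le_comap.mp hc') ?_
    rw [← ht_map_C, he, hd']
  by_cases he : (r.comap C).map C = r
  · exact hcyl r hr hc hd he
  haveI : (r.comap C).IsPrime := Ideal.comap_isPrime _ _
  have hle : (r.comap C).map C ≤ r := Ideal.map_comap_le
  have hq : ((r.comap C).map C : Ideal S[X]).height + 1 = d := by
    rw [← hd]
    refine le_antisymm (ht_lt (lt_of_le_of_ne hle he)) ?_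
    rw [ht_map_C]
    exact ht_le_succ r
  obtain ⟨f, hf, hfq, hgen⟩ := exists_gen r (Ne.symm he)
  have hcq : c.map C ≤ (r.comap C).map C := Ideal.map_mono (Ideal.map_le_iff_le_comap.mp hc)
  refine hR _ r inferInstance hr hcq hq hd hle f hfq hf fun r' hr' hd' hle' hf' hne => ?_
  haveI : (r'.comap C).IsPrime := Ideal.comap_isPrime _ _
  have h1 : (r.comap C).map C ≤ (r'.comap C).map C :=
    Ideal.map_mono (Ideal.map_le_iff_le_comap.mp hle')
  rcases eq_or_eq_of_ht h1 Ideal.map_comap_le hq hd' with h | h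
  · exfalso
    have h2 : r'.comap C = r.comap C := by
      rw [← comap_map_C (r'.comap C), h, comap_map_C]
    exact hne (eq_of_ht (hgen r' hr' hf' h2) hd hd').symm
  · exact hcyl r' hr' (hcq.trans hle') hd' h

theorem rule_poly [IsNoetherianRing S] {c : Ideal S} {d : ℕ} {Z : Ideal S[X] → Prop}
    (hR : Rule (c.map C) d Z) : Rule c d fun p => Z (p.map C) := by
  intro q r hq hr hc hqd hrd hle f hfq hfr hZ
  refine hR (q.map C) (r.map C) inferInstance inferInstance (Ideal.map_mono hc)
    (by rw [ht_map_C, hqd]) (by rw [ht_map_C, hrd]) (Ideal.map_mono hle) (C f)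
    (fun h => hfq (by rw [← comap_map_C q]; exact h)) (Ideal.mem_map_of_mem _ hfr)
    fun r' hr' hd' hle' hf' hne => ?_
  haveI : (r'.comap C).IsPrime := Ideal.comap_isPrime _ _
  have h0 : q ≤ r'.comap C := Ideal.map_le_iff_le_comap.mp hle'
  rcases eq_or_eq_of_ht (Ideal.map_mono (f := (C : S →+* S[X])) h0) Ideal.map_comap_le
    (by rw [ht_map_C, hqd]) hd' with h | h
  · exfalso
    apply hfq
    rw [← comap_map_C q, ← h, comap_map_C]
    exact hf'
  · rw [← h]
    refine hZ _ inferInstance (by rw [← ht_map_C, h, hd']) h0 hf' fun h' => hne ?_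
    rw [← h, h']

theorem rule_equiv {S' : Type*} [CommRing S'] (e : S ≃+* S') {c : Ideal S} {d : ℕ}
    {Z : Ideal S → Prop} (hR : Rule c d Z) : Rule (c.map e) d fun p => Z (p.comap e) := by
  intro q r hq hr hc hqd hrd hle f hfq hfr hZ
  refine hR (q.comap e) (r.comap e) (Ideal.comap_isPrime _ _) (Ideal.comap_isPrime _ _)
    (Ideal.map_le_iff_le_comap.mp hc) (by rw [e.height_comap, hqd])
    (by rw [e.height_comap, hrd]) (Ideal.comap_mono hle) (e.symm f)
    (by rw [Ideal.mem_comap, e.apply_symm_apply]; exact hfq)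
    (by rw [Ideal.mem_comap, e.apply_symm_apply]; exact hfr) fun r' hr' hd' hle' hf' hne => ?_
  have h1 : (r'.comap e.symm).comap e = r' := by
    ext x
    simp
  rw [← h1]
  refine hZ _ (Ideal.comap_isPrime _ _) (by rw [e.symm.height_comap, hd']) (fun x hx => ?_) hf'
    fun h => hne ?_
  · exact hle' (by rw [Ideal.mem_comap, e.apply_symm_apply]; exact hx)
  · rw [← h1, h]

theorem cell [IsNoetherianRing S] {c : Ideal S} {d : ℕ} (n : ℕ) :
    ∀ {Z : Ideal (MvPolynomial (Fin n) S) → Prop}, Rule (c.map MvPolynomial.C) d Z →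
      (∀ p : Ideal S, p.IsPrime → c ≤ p → p.height = d → Z (p.map MvPolynomial.C)) →
      ∀ r : Ideal (MvPolynomial (Fin n) S), r.IsPrime → c.map MvPolynomial.C ≤ r →
        r.height = d → Z r := by
  induction n with
  | zero =>
    intro Z _ hE r hr hc hd
    haveI : (r.comap (MvPolynomial.C : S →+* MvPolynomial (Fin 0) S)).IsPrime :=
      Ideal.comap_isPrime _ _
    have he : (r.comap (MvPolynomial.C : S →+* MvPolynomial (Fin 0) S)).map MvPolynomial.C = r :=
      Ideal.map_comap_of_surjective _ (MvPolynomial.C_surjective (Fin 0)) r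
    rw [← he]
    refine hE _ inferInstance (Ideal.map_le_iff_le_comap.mp hc) ?_
    rw [← ht_map_mvC (γ := Fin 0), he, hd]
  | succ n ih =>
    intro Z hR hE r hr hc hd
    let e := (MvPolynomial.finSuccEquiv S n).toRingEquiv
    have hC : ∀ p : Ideal S, (p.map (MvPolynomial.C : S →+* MvPolynomial (Fin (n + 1)) S)).map e =
        (p.map (MvPolynomial.C : S →+* MvPolynomial (Fin n) S)).map C := by
      intro p
      rw [← Ideal.map_coe e, Ideal.map_map, Ideal.map_map]
      congr 1
      refine RingHom.ext fun a => ?_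
      simp [e, MvPolynomial.finSuccEquiv_apply]
    have hce : ∀ I : Ideal (MvPolynomial (Fin (n + 1)) S), (I.map e).comap e = I := fun I =>
      Ideal.comap_map_of_bijective e e.bijective
    have hR' := rule_equiv e hR
    rw [hC] at hR'
    have h1 := cell_poly hR' (ih (rule_poly hR') fun p hp hcp hpd => by
      rw [← hC, hce]
      exact hE p hp hcp hpd) (r.map e) (Ideal.map_isPrime_of_equiv e)
      (by rw [← hC]; exact Ideal.map_mono hc) (by rw [e.height_map, hd])
    rwa [hce] at h1

end Cell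

section Chain

open MvPolynomial

variable {σ k : Type*} [Field k]

open Classical in
/-- The cylinder over the projection of `V(p)` to the coordinates in `s`. -/
noncomputable def cyl (p : Ideal (MvPolynomial σ k)) (s : Set σ) : Ideal (MvPolynomial σ k) :=
  RingHom.ker (aeval (fun y => if y ∈ s then MvPolynomial.C (Ideal.Quotient.mk p (X y))
    else (X y : MvPolynomial σ (MvPolynomial σ k ⧸ p))) :
      MvPolynomial σ k →ₐ[k] MvPolynomial σ (MvPolynomial σ k ⧸ p))

theorem cyl_isPrime (p : Ideal (MvPolynomial σ k)) [p.IsPrime] (s : Set σ) :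
    (cyl p s).IsPrime := RingHom.ker_isPrime _

theorem cyl_le {p : Ideal (MvPolynomial σ k)} {s : Set σ} {B : Type*} [CommRing B] [Algebra k B]
    [Algebra (MvPolynomial σ k ⧸ p) B] [IsScalarTower k (MvPolynomial σ k ⧸ p) B] (ψ : σ → B)
    (hψ : ∀ y ∈ s, ψ y = algebraMap _ B (Ideal.Quotient.mk p (X y))) {f : MvPolynomial σ k}
    (hf : f ∈ cyl p s) : aeval ψ f = 0 := by
  classical
  have h1 : (aeval ψ : MvPolynomial σ k →ₐ[k] B) =
      ((aeval ψ : MvPolynomial σ (MvPolynomial σ k ⧸ p) →ₐ[MvPolynomial σ k ⧸ p] B).restrictScalars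
        k).comp (aeval (fun y => if y ∈ s then MvPolynomial.C (Ideal.Quotient.mk p (X y))
          else (X y : MvPolynomial σ (MvPolynomial σ k ⧸ p)))) := by
    ext y
    by_cases hy : y ∈ s
    · simp [hy, hψ y hy]
    · simp [hy]
  rw [h1, AlgHom.comp_apply]
  rw [cyl, RingHom.mem_ker] at hf
  rw [hf, map_zero]

theorem aeval_mk (p : Ideal (MvPolynomial σ k)) (f : MvPolynomial σ k) :
    aeval (fun y => Ideal.Quotient.mk p (X y)) f = Ideal.Quotient.mk p f := by
  have : (aeval (fun y => Ideal.Quotient.mk p (X y)) : MvPolynomial σ k →ₐ[k] _) =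
      Ideal.Quotient.mkₐ k p := by
    ext y
    simp
  rw [this]
  rfl

theorem le_ht_of_blocks (p : Ideal (MvPolynomial σ k)) [p.IsPrime] (r : ℕ) (s : ℕ → Set σ)
    (hs : ∀ l, s l ⊆ s (l + 1)) (f : ℕ → MvPolynomial σ k)
    (hf : ∀ l < r, f l ∈ p ∧ f l ∈ supported k (s (l + 1)))
    (hψ : ∀ l < r, ∃ ψ : σ → MvPolynomial σ k ⧸ p,
      (∀ y ∈ s l, ψ y = Ideal.Quotient.mk p (X y)) ∧ aeval ψ (f l) ≠ 0) :
    (r : ℕ∞) ≤ p.height := by
  classical
  refine le_ht_of_chain p r (fun l => cyl p (s l)) (fun l => cyl_isPrime p _) (fun l hl => ?_)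
    fun g hg => ?_
  · refine lt_of_le_of_ne (fun g hg => ?_) fun h => ?_
    · refine cyl_le (B := MvPolynomial σ (MvPolynomial σ k ⧸ p)) _ (fun y hy => ?_) hg
      simp [hs l hy]
    · obtain ⟨ψ, h1, h2⟩ := hψ l hl
      apply h2
      refine cyl_le (p := p) (s := s l) ψ (fun y hy => by simpa using h1 y hy) ?_
      have h' : cyl p (s l) = cyl p (s (l + 1)) := h
      rw [h', cyl, RingHom.mem_ker]
      have h3 := hom_congr_vars (p₁ := f l) (p₂ := f l)
        (f₁ := (aeval (fun y => if y ∈ s (l + 1) then MvPolynomial.C (Ideal.Quotient.mk p (X y))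
          else (X y : MvPolynomial σ (MvPolynomial σ k ⧸ p))) :
            MvPolynomial σ k →ₐ[k] MvPolynomial σ (MvPolynomial σ k ⧸ p)))
        (f₂ := (MvPolynomial.C : _ →+* MvPolynomial σ (MvPolynomial σ k ⧸ p)).comp
          (Ideal.Quotient.mk p)) ?_ ?_ rfl
      · refine h3.trans ?_
        simp [Ideal.Quotient.eq_zero_iff_mem.mpr (hf l hl).1]
      · ext1 a
        simp only [RingHom.comp_apply, RingHom.coe_coe, aeval_C]
        rfl
      · intro y hy _
        have : y ∈ s (l + 1) := mem_supported.mp (hf l hl).2 hy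
        simp [this]
  · have := cyl_le (p := p) (fun y => Ideal.Quotient.mk p (X y)) (fun y _ => rfl) hg
    rwa [aeval_mk, Ideal.Quotient.eq_zero_iff_mem] at this

end Chain

end Pool.Agent.MP_52bf41_ag.H1
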