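import Pool.Agent.MP_52bf41_ag.H1.Defs
import Pool.Agent.MP_52bf41_ag.H1.Ht

/-! The group action: functoriality, Zariski density of rational points, connectedness. -/

namespace Pool.Agent.MP_52bf41_ag.H1

open MvPolynomial

variable {D N : ℕ}

abbrev Sq (D : ℕ) (R : Type*) := Matrix (Fin (D + 1)) (Fin (D + 1)) R

section Ring

variable {R R' : Type*} [CommRing R] [CommRing R']

def Col (g : Sq D R) : Prop := ∀ i, g i 0 = (1 : Sq D R) i 0

def InP (g g' : Sq D R) : Prop := g * g' = 1 ∧ Col g

theorem pencil_act (g g' : Sq D R) (x : Var D N → R) :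
    pencil (act g g' x) = g.submatrix Fin.succ Fin.succ * pencil x * g' := rfl

theorem sections_act (g g' : Sq D R) (x : Var D N → R) :
    sections (act g g' x) = sections x * g' := rfl

theorem var_ext {x x' : Var D N → R} (h1 : pencil x = pencil x') (h2 : sections x = sections x') :
    x = x' := by
  funext ⟨r, j⟩
  rcases r with i | r
  · exact congrFun (congrFun h1 i) j
  · exact congrFun (congrFun h2 r) j

theorem pencil_map {R R' : Type*} (φ : R → R') (x : Var D N → R) :
    pencil (fun y => φ (x y)) = (pencil x).map φ := rfl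

theorem sections_map {R R' : Type*} (φ : R → R') (x : Var D N → R) :
    sections (fun y => φ (x y)) = (sections x).map φ := rfl

theorem act_map (φ : R →+* R') (g g' : Sq D R) (x : Var D N → R) :
    (fun y => φ (act g g' x y)) = act (g.map φ) (g'.map φ) fun y => φ (x y) := by
  refine var_ext ?_ ?_
  · rw [pencil_map φ, pencil_act, pencil_act, pencil_map φ x, Matrix.map_mul, Matrix.map_mul]
    rfl
  · rw [sections_map φ, sections_act, sections_act, sections_map φ x, Matrix.map_mul]

theorem Col.one : Col (1 : Sq D R) := fun _ => rfl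

theorem Col.mul_apply {g : Sq D R} (h : Col g) {m : Type*} (a : Matrix m (Fin (D + 1)) R) (r : m) :
    (a * g) r 0 = a r 0 := by
  rw [Matrix.mul_apply]
  simp only [h _, Matrix.one_apply]
  simp

theorem Col.mul {g h : Sq D R} (hg : Col g) (hh : Col h) : Col (g * h) := fun i => by
  rw [hh.mul_apply, hg i]

theorem Col.map {g : Sq D R} (hg : Col g) (φ : R →+* R') : Col (g.map φ) := fun i => by
  rw [Matrix.map_apply, hg i, Matrix.one_apply, Matrix.one_apply]
  split_ifs <;> simp

theorem Col.low_mul {g : Sq D R} (hg : Col g) (h : Sq D R) :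
    (g * h).submatrix Fin.succ Fin.succ =
      g.submatrix Fin.succ Fin.succ * h.submatrix Fin.succ Fin.succ := by
  ext i j
  simp only [Matrix.submatrix_apply, Matrix.mul_apply, Fin.sum_univ_succ, hg i.succ]
  rw [Matrix.one_apply_ne (Fin.succ_ne_zero i)]
  simp

theorem InP.one : InP (1 : Sq D R) 1 := ⟨mul_one _, Col.one⟩

theorem InP.mul_eq' {g g' : Sq D R} (h : InP g g') : g' * g = 1 := mul_eq_one_comm.mp h.1

theorem InP.symm {g g' : Sq D R} (h : InP g g') : InP g' g :=
  ⟨h.mul_eq', fun i => by rw [← h.2.mul_apply g' i, h.mul_eq']⟩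

theorem InP.mul {g g' h h' : Sq D R} (hg : InP g g') (hh : InP h h') : InP (g * h) (h' * g') :=
  ⟨by rw [mul_assoc, ← mul_assoc h, hh.1, one_mul, hg.1], hg.2.mul hh.2⟩

theorem InP.map {g g' : Sq D R} (h : InP g g') (φ : R →+* R') : InP (g.map φ) (g'.map φ) :=
  ⟨by rw [← Matrix.map_mul, h.1, Matrix.map_one _ (map_zero φ) (map_one φ)], h.2.map φ⟩

theorem act_act {g : Sq D R} (hg : Col g) (g' h h' : Sq D R) (x : Var D N → R) :
    act g g' (act h h' x) = act (g * h) (h' * g') x := by
  refine var_ext ?_ ?_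
  · simp only [pencil_act, hg.low_mul, Matrix.mul_assoc]
  · simp only [sections_act, Matrix.mul_assoc]

theorem act_one (x : Var D N → R) : act (1 : Sq D R) 1 x = x := by
  refine var_ext ?_ ?_
  · rw [pencil_act, Matrix.submatrix_one _ (Fin.succ_injective D), Matrix.one_mul, Matrix.mul_one]
  · rw [sections_act, Matrix.mul_one]

theorem InP.act_act {g g' : Sq D R} (h : InP g g') (x : Var D N → R) :
    act g' g (act g g' x) = x := by
  rw [H1.act_act h.symm.2, h.mul_eq', act_one]

theorem act_zero_col {g g' : Sq D R} (h : Col g') (x : Var D N → R) (r : Fin N) :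
    act g g' x (Sum.inr r, 0) = x (Sum.inr r, 0) :=
  h.mul_apply (sections x) r

/-- The matrix with first column `e_0` and prescribed other columns. -/
def mkP (e : Fin (D + 1) × Fin D → R) : Sq D R :=
  Matrix.of fun i j => Fin.cases ((1 : Sq D R) i 0) (fun j => e (i, j)) j

theorem col_mkP (e : Fin (D + 1) × Fin D → R) : Col (mkP e) := fun _ => rfl

theorem mkP_map (φ : R →+* R') (e : Fin (D + 1) × Fin D → R) :
    (mkP e).map φ = mkP fun p => φ (e p) := by
  ext i j
  refine Fin.cases ?_ (fun j => rfl) j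
  exact ((col_mkP e).map φ i).trans (col_mkP _ i).symm

theorem Col.mkP_eq {g : Sq D R} (h : Col g) : mkP (fun p => g p.1 p.2.succ) = g := by
  ext i j
  refine Fin.cases ?_ (fun j => rfl) j
  exact (h i).symm

end Ring

section Universal

variable (D) (K : Type*) [CommRing K]

noncomputable abbrev gU : Sq D (MvPolynomial (Fin (D + 1) × Fin D) K) := mkP X

abbrev LU := Localization.Away (gU D K).det

noncomputable def gL : Sq D (LU D K) := (gU D K).map (algebraMap _ _)

theorem isUnit_det_gL : IsUnit (gL D K).det := by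
  rw [gL, ← RingHom.mapMatrix_apply, ← RingHom.map_det]
  exact IsLocalization.Away.algebraMap_isUnit _

theorem inP_gL : InP (gL D K) (gL D K)⁻¹ :=
  ⟨Matrix.mul_nonsing_inv _ (isUnit_det_gL D K), (col_mkP _).map _⟩

variable {D K}

theorem eval_det_gU {g : Sq D K} (h : Col g) :
    eval (fun p => g p.1 p.2.succ) (gU D K).det = g.det := by
  rw [RingHom.map_det, RingHom.mapMatrix_apply, mkP_map]
  simp only [eval_X, h.mkP_eq]

noncomputable def evU {g g' : Sq D K} (h : InP g g') : LU D K →+* K :=
  IsLocalization.Away.lift (gU D K).det (g := eval fun p => g p.1 p.2.succ) (by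
    rw [eval_det_gU h.2]
    exact Matrix.isUnit_det_of_right_inverse h.1)

theorem evU_algebraMap {g g' : Sq D K} (h : InP g g')
    (a : MvPolynomial (Fin (D + 1) × Fin D) K) :
    evU h (algebraMap _ _ a) = eval (fun p => g p.1 p.2.succ) a :=
  IsLocalization.Away.lift_eq _ _ _

theorem evU_const {g g' : Sq D K} (h : InP g g') (a : K) : evU h (algebraMap K _ a) = a := by
  rw [IsScalarTower.algebraMap_apply K (MvPolynomial (Fin (D + 1) × Fin D) K), evU_algebraMap]
  simp

theorem gL_map {g g' : Sq D K} (h : InP g g') : (gL D K).map (evU h) = g := by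
  rw [gL, Matrix.map_map]
  have : (evU h ∘ algebraMap _ _) =
      (eval (fun p => g p.1 p.2.succ) : MvPolynomial (Fin (D + 1) × Fin D) K →+* K) :=
    funext (evU_algebraMap h)
  rw [this, mkP_map]
  simp only [eval_X, h.2.mkP_eq]

theorem gL_inv_map {g g' : Sq D K} (h : InP g g') : (gL D K)⁻¹.map (evU h) = g' := by
  have h1 := ((inP_gL D K).map (evU h)).1
  rw [gL_map] at h1
  rw [← one_mul ((gL D K)⁻¹.map (evU h)), ← h.mul_eq', mul_assoc, h1, mul_one]

instance [IsDomain K] : IsDomain (LU D K) := by
  refine IsLocalization.isDomain_localization (powers_le_nonZeroDivisors_of_noZeroDivisors ?_)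
  intro h
  have := eval_det_gU (Col.one (D := D) (R := K))
  rw [h] at this
  simp at this

end Universal

variable {k : Type*} [Field k]

theorem hom_aeval {σ R R' : Type*} [CommRing R] [CommRing R'] [Algebra k R] [Algebra k R']
    (φ : R →+* R') (hφ : ∀ a, φ (algebraMap k R a) = algebraMap k R' a) (x : σ → R)
    (F : MvPolynomial σ k) : φ (aeval x F) = aeval (fun y => φ (x y)) F := by
  induction F using MvPolynomial.induction_on with
  | C a => simp [hφ]
  | add p q hp hq => simp [hp, hq]
  | mul_X p i hp => simp [hp]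

theorem aeval_pull {R : Type*} [CommRing R] [Algebra k R] (g g' : Sq D k) (x : Var D N → R)
    (F : MvPolynomial (Var D N) k) :
    aeval x (aeval (act (g.map C) (g'.map C) X) F : MvPolynomial (Var D N) k) =
      aeval (act (g.map (algebraMap k R)) (g'.map (algebraMap k R)) x) F := by
  have h := hom_aeval (k := k) (aeval x : MvPolynomial (Var D N) k →ₐ[k] R).toRingHom (by simp)
    (act (g.map C) (g'.map C) X) F
  refine h.trans ?_
  rw [act_map, Matrix.map_map, Matrix.map_map]
  congr 3
  · congr 1
    funext a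
    simp
  · congr 1
    funext a
    simp
  · funext y
    simp

/-- Invariant ideals. -/
def Inv (I : Ideal (MvPolynomial (Var D N) k)) : Prop := ∀ s ∈ Grp k D N, ∀ f ∈ I, s f ∈ I

theorem Inv.pull {I : Ideal (MvPolynomial (Var D N) k)} (hI : Inv I) {g g' : Sq D k}
    (h : InP g g') {F : MvPolynomial (Var D N) k} (hF : F ∈ I) :
    (aeval (act (g.map C) (g'.map C) X) F : MvPolynomial (Var D N) k) ∈ I :=
  hI _ ⟨g, g', h.1, h.2, rfl⟩ F hF

section Density

variable {K : Type*} [Field K] [Algebra k K]

theorem evU_aeval {g g' : Sq D K} (h : InP g g') (x : Var D N → K)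
    (F : MvPolynomial (Var D N) k) :
    evU h (aeval (act (gL D K) (gL D K)⁻¹ fun y => algebraMap K _ (x y)) F) =
      aeval (act g g' x) F := by
  rw [hom_aeval (evU h), act_map, gL_map, gL_inv_map]
  · simp only [evU_const]
  · intro a
    rw [IsScalarTower.algebraMap_apply k K, evU_const]

theorem Inv.universal [Infinite k] {I : Ideal (MvPolynomial (Var D N) k)} (hI : Inv I)
    {x : Var D N → K} (hx : ∀ F ∈ I, aeval x F = 0) {F : MvPolynomial (Var D N) k} (hF : F ∈ I) :
    aeval (act (gL D K) (gL D K)⁻¹ fun y => algebraMap K _ (x y)) F = 0 := by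
  obtain ⟨m, a, ha⟩ := IsLocalization.Away.surj (gU D K).det
    (aeval (act (gL D K) (gL D K)⁻¹ fun y => algebraMap K _ (x y)) F)
  have h0 : a * (gU D K).det = 0 := by
    refine MvPolynomial.funext_set (fun _ => Set.range (algebraMap k K))
      (fun _ => Set.infinite_range_of_injective (algebraMap k K).injective) fun e he => ?_
    choose e0 he0 using fun p => he p (Set.mem_univ p)
    have hc : Col ((mkP e0).map (algebraMap k K)) := (col_mkP e0).map _
    have he' : (fun p : Fin (D + 1) × Fin D => (mkP e0).map (algebraMap k K) p.1 p.2.succ) = e :=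
      funext he0
    have hd := eval_det_gU hc
    rw [he'] at hd
    rw [map_mul, map_zero, hd]
    by_cases hz : (mkP e0).det = 0
    · rw [← RingHom.mapMatrix_apply, ← RingHom.map_det, hz, map_zero, mul_zero]
    have hP : InP (mkP e0) (mkP e0)⁻¹ := ⟨Matrix.mul_nonsing_inv _ (Ne.isUnit hz), col_mkP e0⟩
    have h1 := congrArg (evU (hP.map (algebraMap k K))) ha
    rw [map_mul, evU_aeval, evU_algebraMap, he', ← aeval_pull, hx _ (hI.pull hP hF),
      zero_mul] at h1
    rw [← h1, zero_mul]
  have hu : IsUnit (algebraMap _ (LU D K) (gU D K).det) := IsLocalization.Away.algebraMap_isUnit _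
  have h1 := congrArg (algebraMap _ (LU D K)) h0
  rw [map_mul, map_zero, hu.mul_left_eq_zero] at h1
  rw [h1, (hu.pow m).mul_left_eq_zero] at ha
  exact ha

theorem Inv.dens [Infinite k] {I : Ideal (MvPolynomial (Var D N) k)} (hI : Inv I)
    {x : Var D N → K} (hx : ∀ F ∈ I, aeval x F = 0) {g g' : Sq D K} (h : InP g g')
    {F : MvPolynomial (Var D N) k} (hF : F ∈ I) : aeval (act g g' x) F = 0 := by
  rw [← evU_aeval h, hI.universal hx hF, map_zero]

end Density

theorem aeval_algebraMap_X {σ K : Type*} [CommRing K] [Algebra k K] [Algebra (MvPolynomial σ k) K]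
    [IsScalarTower k (MvPolynomial σ k) K] (F : MvPolynomial σ k) :
    aeval (fun y => algebraMap (MvPolynomial σ k) K (X y)) F = algebraMap _ K F := by
  have : (aeval (fun y => algebraMap (MvPolynomial σ k) K (X y)) : MvPolynomial σ k →ₐ[k] K) =
      IsScalarTower.toAlgHom k _ K := by
    ext y
    simp
  rw [this]
  rfl

/-- The generic point of `V(p)`. -/
noncomputable def gen {σ : Type*} (p : Ideal (MvPolynomial σ k)) [p.IsPrime] :
    σ → p.ResidueField := fun y => algebraMap (MvPolynomial σ k) _ (X y)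

theorem aeval_gen {σ : Type*} (p : Ideal (MvPolynomial σ k)) [p.IsPrime] (F : MvPolynomial σ k) :
    aeval (gen p) F = 0 ↔ F ∈ p := by
  unfold gen
  rw [aeval_algebraMap_X, Ideal.algebraMap_residueField_eq_zero]

theorem inv_of_aeval {p : Ideal (MvPolynomial (Var D N) k)} [p.IsPrime]
    (h : ∀ g g' : Sq D k, InP g g' → ∀ F ∈ p,
      aeval (act (g.map (algebraMap k p.ResidueField)) (g'.map (algebraMap k _)) (gen p)) F = 0) :
    Inv p := by
  rintro s ⟨g, g', h1, h2, rfl⟩ F hF
  rw [← aeval_gen]
  exact (aeval_pull g g' _ F).trans (h g g' ⟨h1, h2⟩ F hF)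

/-- Connectedness: a prime with finite orbit is invariant. -/
theorem inv_of_finite [Infinite k] {d : ℕ} (S : Finset (PrimeSpectrum (MvPolynomial (Var D N) k)))
    (hd : ∀ p ∈ S, p.asIdeal.height = d)
    (hS : ∀ s ∈ Grp k D N, ∀ p ∈ S, PrimeSpectrum.comap s p ∈ S) {p} (hp : p ∈ S) :
    Inv p.asIdeal := by
  let K := p.asIdeal.ResidueField
  have hI : Inv (S.inf fun q => q.asIdeal) := by
    intro s hs f hf
    rw [Submodule.mem_finsetInf] at hf ⊢
    exact fun q hq => hf _ (hS s hs q hq)
  let φ : MvPolynomial (Var D N) k →ₐ[k] LU D K :=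
    aeval (act (gL D K) (gL D K)⁻¹ fun y => algebraMap K _ (gen p.asIdeal y))
  have hpr : (RingHom.ker φ).IsPrime := RingHom.ker_isPrime φ
  have hle : (S.inf fun q => q.asIdeal) ≤ RingHom.ker φ := fun F hF =>
    hI.universal (fun F hF => (aeval_gen _ F).mpr
      ((Finset.inf_le (f := fun q : PrimeSpectrum _ => q.asIdeal) hp) hF)) hF
  obtain ⟨q, hq, hqle⟩ := hpr.inf_le'.mp hle
  have hsp : ∀ g g' : Sq D K, InP g g' → ∀ F ∈ RingHom.ker φ,
      aeval (act g g' (gen p.asIdeal)) F = 0 := by
    intro g g' h F hF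
    rw [← evU_aeval h]
    rw [RingHom.mem_ker] at hF
    exact (congrArg (evU h) hF).trans (map_zero _)
  have h1 : RingHom.ker φ ≤ p.asIdeal := fun F hF => by
    have := hsp 1 1 InP.one F hF
    rwa [act_one, aeval_gen] at this
  have h2 : q.asIdeal = p.asIdeal := eq_of_ht (hqle.trans h1) (hd q hq) (hd p hp)
  exact inv_of_aeval fun g g' h F hF => hsp _ _ (h.map _) F (hqle (h2 ▸ hF))

end Pool.Agent.MP_52bf41_ag.H1
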