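import Pool.Agent.MP_52bf41_ag.H1.Act

/-! Charts: normal forms with respect to `D + 1` chosen rows. -/

namespace Pool.Agent.MP_52bf41_ag.H1

open MvPolynomial

variable {D N : ℕ} (σ : Fin (D + 1) → Fin N)

section Ring

variable {R R' : Type*} [CommRing R] [CommRing R']

def mM (x : Var D N → R) : Sq D R := (sections x).submatrix σ id

def mN (x : Var D N → R) : Sq D R := (1 : Sq D R).updateCol 0 fun a => x (Sum.inr (σ a), 0)

def del (x : Var D N → R) : R := x (Sum.inr (σ 0), 0) * (mM σ x).det

noncomputable def mG (b : Bool) (x : Var D N → R) : Sq D R :=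
  bif b then (mN σ x)⁻¹ * mM σ x else (mM σ x)⁻¹ * mN σ x

def Fix (y : Var D N) : Prop := ∃ a, y.1 = Sum.inr (σ a)

open Classical in
noncomputable def th (b : Bool) (x : Var D N → R) : Var D N → R := fun y =>
  if Fix σ y then x y else act (mG σ b x) (mG σ (!b) x) x y

/-- The slice coordinates. -/
def Sl : Set (Var D N) := {y | ¬Fix σ y ∨ y.2 = 0}

variable {σ}

theorem det_mN (x : Var D N → R) : (mN σ x).det = x (Sum.inr (σ 0), 0) := by
  rw [mN, ← Matrix.cramer_apply, Matrix.cramer_one]
  rfl

theorem unit_mN {x : Var D N → R} (h : IsUnit (del σ x)) : IsUnit (mN σ x).det := by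
  rw [det_mN]
  exact isUnit_of_mul_isUnit_left h

theorem unit_mM {x : Var D N → R} (h : IsUnit (del σ x)) : IsUnit (mM σ x).det :=
  isUnit_of_mul_isUnit_right h

theorem col_of_eq {a b c : Sq D R} (h : c * a = 1) (h0 : ∀ i, b i 0 = a i 0) : Col (c * b) := by
  intro i
  rw [← h, Matrix.mul_apply, Matrix.mul_apply]
  simp only [h0]

theorem inP_mG {x : Var D N → R} (h : IsUnit (del σ x)) (b : Bool) :
    InP (mG σ b x) (mG σ (!b) x) := by
  have h1 : InP (mG σ true x) (mG σ false x) := by
    refine ⟨?_, col_of_eq (Matrix.nonsing_inv_mul _ (unit_mN h)) fun i => ?_⟩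
    · simp only [mG, cond_true, cond_false]
      rw [mul_assoc, ← mul_assoc (mM σ x), Matrix.mul_nonsing_inv _ (unit_mM h), one_mul,
        Matrix.nonsing_inv_mul _ (unit_mN h)]
    · simp [mN, mM, sections]
  cases b
  · exact h1.symm
  · exact h1

theorem th_fix (b : Bool) (x : Var D N → R) {y : Var D N} (hy : Fix σ y) : th σ b x y = x y :=
  if_pos hy

theorem th_not_fix (b : Bool) (x : Var D N → R) {y : Var D N} (hy : ¬Fix σ y) :
    th σ b x y = act (mG σ b x) (mG σ (!b) x) x y := if_neg hy

theorem mM_congr {x x' : Var D N → R} (h : ∀ y, Fix σ y → x y = x' y) : mM σ x = mM σ x' := by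
  ext a j
  exact h (Sum.inr (σ a), j) ⟨a, rfl⟩

theorem mN_congr {x x' : Var D N → R}
    (h : ∀ a, x (Sum.inr (σ a), 0) = x' (Sum.inr (σ a), 0)) : mN σ x = mN σ x' := by
  rw [mN, mN, funext h]

theorem del_congr {x x' : Var D N → R} (h : ∀ y, Fix σ y → x y = x' y) :
    del σ x = del σ x' := by
  rw [del, del, mM_congr h, h _ ⟨0, rfl⟩]

theorem mG_congr {x x' : Var D N → R} (h : ∀ y, Fix σ y → x y = x' y) (b : Bool) :
    mG σ b x = mG σ b x' := by
  rw [mG, mG, mM_congr h, mN_congr fun a => h _ ⟨a, rfl⟩]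

theorem del_th (b : Bool) (x : Var D N → R) : del σ (th σ b x) = del σ x :=
  del_congr fun _ hy => th_fix b x hy

theorem act_congr {x x' : Var D N → R} (h : ∀ y, ¬Fix σ y → x y = x' y) (g g' : Sq D R)
    {y : Var D N} (hy : ¬Fix σ y) : act g g' x y = act g g' x' y := by
  obtain ⟨r, j⟩ := y
  rcases r with i | r
  · have : pencil x = pencil x' := by
      ext i j
      exact h (Sum.inl i, j) (by rintro ⟨a, ha⟩; cases ha)
    exact congrArg (fun T => (g.submatrix Fin.succ Fin.succ * T * g') i j) this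
  · change (sections x * g') r j = (sections x' * g') r j
    rw [Matrix.mul_apply, Matrix.mul_apply]
    exact Finset.sum_congr rfl fun l _ => congrArg (· * g' l j) (h (Sum.inr r, l) hy)

theorem th_th {x : Var D N → R} (h : IsUnit (del σ x)) (b : Bool) :
    th σ (!b) (th σ b x) = x := by
  funext y
  by_cases hy : Fix σ y
  · rw [th_fix _ _ hy, th_fix _ _ hy]
  · have hG := mG_congr fun y hy => th_fix b x (σ := σ) (y := y) hy
    rw [th_not_fix _ _ hy, hG, hG, Bool.not_not,
      act_congr (fun y hy => th_not_fix b x hy) _ _ hy, (inP_mG h b).act_act]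

theorem map_inv_of_unit (φ : R →+* R') {a : Sq D R} (h : IsUnit a.det) :
    a⁻¹.map φ = (a.map φ)⁻¹ := by
  symm
  apply Matrix.inv_eq_right_inv
  rw [← Matrix.map_mul, Matrix.mul_nonsing_inv _ h, Matrix.map_one _ (map_zero φ) (map_one φ)]

theorem mN_map (φ : R →+* R') (x : Var D N → R) :
    (mN σ x).map φ = mN σ fun y => φ (x y) := by
  ext a j
  simp only [mN, Matrix.map_apply, Matrix.updateCol_apply, Matrix.one_apply]
  split_ifs <;> simp

theorem del_map (φ : R →+* R') (x : Var D N → R) : φ (del σ x) = del σ fun y => φ (x y) := by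
  rw [del, map_mul, RingHom.map_det]
  rfl

theorem mG_map (φ : R →+* R') {x : Var D N → R} (h : IsUnit (del σ x)) (b : Bool) :
    (mG σ b x).map φ = mG σ b fun y => φ (x y) := by
  cases b
  · simp only [mG, cond_false]
    rw [Matrix.map_mul, map_inv_of_unit φ (unit_mM h), mN_map]
    rfl
  · simp only [mG, cond_true]
    rw [Matrix.map_mul, map_inv_of_unit φ (unit_mN h), mN_map]
    rfl

theorem th_map (φ : R →+* R') {x : Var D N → R} (h : IsUnit (del σ x)) (b : Bool) :
    (fun y => φ (th σ b x y)) = th σ b fun y => φ (x y) := by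
  funext y
  by_cases hy : Fix σ y
  · rw [th_fix _ _ hy, th_fix _ _ hy]
  · rw [th_not_fix _ _ hy, th_not_fix _ _ hy, ← mG_map φ h, ← mG_map φ h]
    exact congrFun (act_map φ _ _ x) y

theorem mM_act (g g' : Sq D R) (x : Var D N → R) : mM σ (act g g' x) = mM σ x * g' := rfl

theorem mN_act {g g' : Sq D R} (h : InP g g') (x : Var D N → R) :
    mN σ (act g g' x) = mN σ x := mN_congr fun _ => act_zero_col h.symm.2 x _

theorem del_act {g g' : Sq D R} (h : InP g g') (x : Var D N → R) :
    del σ (act g g' x) = del σ x * g'.det := by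
  rw [del, del, act_zero_col h.symm.2, mM_act, Matrix.det_mul, mul_assoc]

theorem unit_act {g g' : Sq D R} (h : InP g g') {x : Var D N → R} (hx : IsUnit (del σ x)) :
    IsUnit (del σ (act g g' x)) := by
  rw [del_act h]
  exact hx.mul (Matrix.isUnit_det_of_left_inverse h.1)

theorem nf_act {g g' : Sq D R} (h : InP g g') {x : Var D N → R} (hx : IsUnit (del σ x)) :
    act (mG σ true (act g g' x)) (mG σ false (act g g' x)) (act g g' x) =
      act (mG σ true x) (mG σ false x) x := by
  have h1 : mG σ true (act g g' x) = mG σ true x * g' := by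
    simp only [mG, cond_true, mN_act h, mM_act, mul_assoc]
  have h2 : mG σ false (act g g' x) = g * mG σ false x := by
    simp only [mG, cond_false, mN_act h, mM_act]
    rw [Matrix.mul_inv_rev, Matrix.inv_eq_left_inv h.1, mul_assoc]
  rw [act_act (inP_mG (unit_act h hx) true).2, h1, h2, mul_assoc, h.mul_eq', mul_one,
    ← mul_assoc, h.mul_eq', one_mul]

theorem th_act {g g' : Sq D R} (h : InP g g') {x : Var D N → R} (hx : IsUnit (del σ x))
    {y : Var D N} (hy : y ∈ Sl σ) : th σ true (act g g' x) y = th σ true x y := by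
  by_cases hf : Fix σ y
  · rw [th_fix _ _ hf, th_fix _ _ hf]
    obtain ⟨r, j⟩ := y
    obtain ⟨a, rfl⟩ : ∃ a, r = Sum.inr (σ a) := hf
    obtain rfl : j = 0 := hy.resolve_left (not_not.mpr ⟨a, rfl⟩)
    exact act_zero_col h.symm.2 x _
  · rw [th_not_fix _ _ hf, th_not_fix _ _ hf]
    exact congrFun (nf_act h hx) y

theorem nf_fix {x : Var D N → R} (hx : IsUnit (del σ x)) (a : Fin (D + 1)) (j : Fin (D + 1)) :
    act (mG σ true x) (mG σ false x) x (Sum.inr (σ a), j) = mN σ x a j := by
  change (mM σ x * mG σ false x) a j = _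
  simp only [mG, cond_false]
  rw [← mul_assoc, Matrix.mul_nonsing_inv _ (unit_mM hx), one_mul]

theorem exists_act {x x' : Var D N → R} (hx : IsUnit (del σ x)) (hx' : IsUnit (del σ x'))
    (h : ∀ y ∈ Sl σ, th σ true x y = th σ true x' y) : ∃ g g', InP g g' ∧ x' = act g g' x := by
  have h1 : act (mG σ true x) (mG σ false x) x = act (mG σ true x') (mG σ false x') x' := by
    funext y
    by_cases hf : Fix σ y
    · obtain ⟨r, j⟩ := y
      obtain ⟨a, rfl⟩ : ∃ a, r = Sum.inr (σ a) := hf
      rw [nf_fix hx, nf_fix hx', mN_congr fun a => ?_]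
      have := h (Sum.inr (σ a), 0) (Or.inr rfl)
      rwa [th_fix _ _ ⟨a, rfl⟩, th_fix _ _ ⟨a, rfl⟩] at this
    · have := h y (Or.inl hf)
      rwa [th_not_fix _ _ hf, th_not_fix _ _ hf] at this
  refine ⟨_, _, (inP_mG hx' false).mul (inP_mG hx true), ?_⟩
  rw [← act_act (inP_mG hx' false).2]
  simp only [Bool.not_false, Bool.not_true]
  rw [h1]
  exact ((inP_mG hx' true).act_act x').symm

end Ring

variable {k : Type*} [Field k]

noncomputable abbrev delX (k : Type*) [Field k] : MvPolynomial (Var D N) k := del σ X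

abbrev Loc (k : Type*) [Field k] := Localization.Away (delX σ k)

noncomputable def xL (k : Type*) [Field k] : Var D N → Loc σ k := fun y =>
  algebraMap (MvPolynomial (Var D N) k) _ (X y)

variable {σ}

theorem aeval_delX {R : Type*} [CommRing R] [Algebra k R] (x : Var D N → R) :
    aeval x (delX σ k) = del σ x := by
  have := del_map (σ := σ) (aeval x : MvPolynomial (Var D N) k →ₐ[k] R).toRingHom X
  simpa using this

theorem unit_xL : IsUnit (del σ (xL σ k)) := by
  unfold xL
  rw [← del_map]
  exact IsLocalization.Away.algebraMap_isUnit _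

/-- The extension of a point to the localization. -/
noncomputable def hat {R : Type*} [CommRing R] [Algebra k R] {x : Var D N → R}
    (h : IsUnit (del σ x)) : Loc σ k →+* R :=
  IsLocalization.Away.lift (delX σ k)
    (g := (aeval x : MvPolynomial (Var D N) k →ₐ[k] R).toRingHom) (by
      rw [← aeval_delX (k := k)] at h
      exact h)

theorem hat_algebraMap {R : Type*} [CommRing R] [Algebra k R] {x : Var D N → R}
    (h : IsUnit (del σ x)) (F : MvPolynomial (Var D N) k) :
    hat h (algebraMap _ (Loc σ k) F) = aeval x F := IsLocalization.Away.lift_eq _ _ _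

theorem hat_const {R : Type*} [CommRing R] [Algebra k R] {x : Var D N → R}
    (h : IsUnit (del σ x)) (a : k) : hat h (algebraMap k (Loc σ k) a) = algebraMap k R a := by
  rw [IsScalarTower.algebraMap_apply k (MvPolynomial (Var D N) k), hat_algebraMap]
  simp

theorem hat_th {R : Type*} [CommRing R] [Algebra k R] {x : Var D N → R}
    (h : IsUnit (del σ x)) (b : Bool) (F : MvPolynomial (Var D N) k) :
    hat h (aeval (th σ b (xL σ k)) F) = aeval (th σ b x) F := by
  rw [hom_aeval _ (hat_const h), th_map _ unit_xL]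
  simp only [xL, hat_algebraMap, aeval_X]

theorem unit_th {R : Type*} [CommRing R] {x : Var D N → R} (h : IsUnit (del σ x)) (b : Bool) :
    IsUnit (del σ (th σ b x)) := (del_th b x).symm ▸ h

theorem hat_hat (b : Bool) : (hat (unit_th (unit_xL (σ := σ) (k := k)) b)).comp
    (hat (unit_th (unit_xL (σ := σ) (k := k)) (!b))) = RingHom.id _ := by
  refine IsLocalization.ringHom_ext (Submonoid.powers (delX σ k)) (RingHom.ext fun F => ?_)
  simp only [RingHom.comp_apply, RingHom.id_apply]
  rw [hat_algebraMap, hat_th, th_th unit_xL]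
  exact aeval_algebraMap_X F

noncomputable def thEquiv (σ : Fin (D + 1) → Fin N) (k : Type*) [Field k] (b : Bool) :
    Loc σ k ≃+* Loc σ k :=
  RingEquiv.ofRingHom (hat (unit_th unit_xL b)) (hat (unit_th unit_xL (!b))) (hat_hat b) (by
    have := hat_hat (σ := σ) (k := k) (!b)
    simpa only [Bool.not_not] using this)

theorem ht_th {R : Type*} [CommRing R] [Algebra k R] {x : Var D N → R} (h : IsUnit (del σ x))
    (b : Bool) : (RingHom.ker (aeval (th σ b x) : MvPolynomial (Var D N) k →ₐ[k] R)).height =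
      (RingHom.ker (aeval x : MvPolynomial (Var D N) k →ₐ[k] R)).height := by
  have h1 : RingHom.ker (aeval x : MvPolynomial (Var D N) k →ₐ[k] R) =
      (RingHom.ker (hat (k := k) h)).under _ := by
    ext F
    rw [Ideal.under_def, Ideal.mem_comap, RingHom.mem_ker, RingHom.mem_ker, hat_algebraMap]
  have h2 : RingHom.ker (aeval (th σ b x) : MvPolynomial (Var D N) k →ₐ[k] R) =
      ((RingHom.ker (hat (k := k) h)).comap (thEquiv σ k b)).under _ := by
    ext F
    rw [Ideal.under_def, Ideal.mem_comap, Ideal.mem_comap, RingHom.mem_ker, RingHom.mem_ker,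
      ← hat_th h]
    have : thEquiv σ k b (algebraMap _ _ F) = aeval (th σ b (xL σ k)) F :=
      hat_algebraMap (unit_th unit_xL b) F
    rw [this]
  rw [h1, h2, IsLocalization.height_under (Submonoid.powers (delX σ k)),
    IsLocalization.height_under (Submonoid.powers (delX σ k)), RingEquiv.height_comap]

theorem exists_num (σ : Fin (D + 1) → Fin N) (b : Bool) (F : MvPolynomial (Var D N) k) :
    ∃ (m : ℕ) (a : MvPolynomial (Var D N) k),
      aeval (th σ b (xL σ k)) F * algebraMap _ _ (delX σ k) ^ m = algebraMap _ _ a :=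
  IsLocalization.Away.surj _ _

theorem num_spec {b : Bool} {F a : MvPolynomial (Var D N) k} {m : ℕ}
    (h : aeval (th σ b (xL σ k)) F * algebraMap _ _ (delX σ k) ^ m = algebraMap _ _ a)
    {R : Type*} [CommRing R] [Algebra k R] {x : Var D N → R} (hx : IsUnit (del σ x)) :
    aeval x a = aeval (th σ b x) F * del σ x ^ m := by
  have := congrArg (hat hx) h
  rw [map_mul, map_pow, hat_th, hat_algebraMap, hat_algebraMap, aeval_delX] at this
  exact this.symm

theorem th_mono {R R' : Type*} [CommRing R] [Algebra k R] [CommRing R'] [Algebra k R']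
    {x : Var D N → R} {x' : Var D N → R'} (hx : IsUnit (del σ x)) (hx' : IsUnit (del σ x'))
    (h : ∀ F : MvPolynomial (Var D N) k, aeval x F = 0 → aeval x' F = 0) (b : Bool)
    (F : MvPolynomial (Var D N) k) (hF : aeval (th σ b x) F = 0) : aeval (th σ b x') F = 0 := by
  obtain ⟨m, a, ha⟩ := exists_num σ b F
  have h1 := h a (by rw [num_spec ha hx, hF, zero_mul])
  rwa [num_spec ha hx', (hx'.pow m).mul_left_eq_zero] at h1

theorem unit_gen {p : Ideal (MvPolynomial (Var D N) k)} [p.IsPrime] (h : delX σ k ∉ p) :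
    IsUnit (del σ (gen p)) := by
  rw [← aeval_delX (k := k)]
  exact Ne.isUnit fun h' => h ((aeval_gen p _).mp h')

variable (σ) in
/-- Transport of primes along the chart map. -/
noncomputable def tw (b : Bool) (p : Ideal (MvPolynomial (Var D N) k)) [p.IsPrime] :
    Ideal (MvPolynomial (Var D N) k) :=
  RingHom.ker (aeval (th σ b (gen p)) : MvPolynomial (Var D N) k →ₐ[k] p.ResidueField)

instance (b : Bool) (p : Ideal (MvPolynomial (Var D N) k)) [p.IsPrime] : (tw σ b p).IsPrime :=
  RingHom.ker_isPrime _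

theorem mem_tw {b : Bool} {p : Ideal (MvPolynomial (Var D N) k)} [p.IsPrime]
    {F : MvPolynomial (Var D N) k} : F ∈ tw σ b p ↔ aeval (th σ b (gen p)) F = 0 := Iff.rfl

theorem del_notMem_tw {p : Ideal (MvPolynomial (Var D N) k)} [p.IsPrime] (h : delX σ k ∉ p)
    (b : Bool) : delX σ k ∉ tw σ b p := by
  rw [mem_tw, aeval_delX]
  exact (unit_th (unit_gen h) b).ne_zero

theorem ht_tw {p : Ideal (MvPolynomial (Var D N) k)} [p.IsPrime] (h : delX σ k ∉ p) (b : Bool) :
    (tw σ b p).height = p.height := by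
  rw [tw, ht_th (unit_gen h)]
  congr 1
  ext F
  exact aeval_gen p F

theorem tw_mono {p q : Ideal (MvPolynomial (Var D N) k)} [p.IsPrime] [q.IsPrime] (hpq : p ≤ q)
    (h : delX σ k ∉ q) (b : Bool) : tw σ b p ≤ tw σ b q := fun F hF =>
  th_mono (unit_gen fun h' => h (hpq h')) (unit_gen h)
    (fun F hF => (aeval_gen q F).mpr (hpq ((aeval_gen p F).mp hF))) b F hF

theorem mem_tw_iff {p : Ideal (MvPolynomial (Var D N) k)} [p.IsPrime] (h : delX σ k ∉ p)
    {R : Type*} [CommRing R] [Algebra k R] {x : Var D N → R} (hx : IsUnit (del σ x))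
    (hp : ∀ F, aeval x F = 0 ↔ F ∈ p) (b : Bool) (F : MvPolynomial (Var D N) k) :
    F ∈ tw σ b p ↔ aeval (th σ b x) F = 0 :=
  ⟨th_mono (unit_gen h) hx (fun F hF => (hp F).mpr ((aeval_gen p F).mp hF)) b F,
    th_mono hx (unit_gen h) (fun F hF => (aeval_gen p F).mpr ((hp F).mp hF)) b F⟩

theorem tw_tw {p : Ideal (MvPolynomial (Var D N) k)} [p.IsPrime] (h : delX σ k ∉ p) (b : Bool) :
    tw σ (!b) (tw σ b p) = p := by
  ext F
  rw [mem_tw_iff (del_notMem_tw h b) (unit_th (unit_gen h) b) (fun _ => Iff.rfl),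
    th_th (unit_gen h), aeval_gen]

theorem aeval_congr_supported {τ R : Type*} [CommRing R] [Algebra k R] {s : Set τ}
    {x x' : τ → R} (h : ∀ y ∈ s, x y = x' y) {F : MvPolynomial τ k} (hF : F ∈ supported k s) :
    aeval x F = aeval x' F :=
  hom_congr_vars (f₁ := (aeval x : MvPolynomial τ k →ₐ[k] R).toRingHom)
    (f₂ := (aeval x' : MvPolynomial τ k →ₐ[k] R).toRingHom) (by ext; simp)
    (fun y hy _ => by simpa using h y (mem_supported.mp hF hy)) rfl

section Cylinder

variable {γ S : Type*} [CommRing S] [Algebra k S]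
  (E : MvPolynomial (Var D N) k ≃ₐ[k] MvPolynomial γ S)

noncomputable def emb : S →+* MvPolynomial (Var D N) k := 
  (E.symm : MvPolynomial γ S →+* MvPolynomial (Var D N) k).comp C

noncomputable def ext (q : Ideal S) : Ideal (MvPolynomial (Var D N) k) := (q.map C).comap E

theorem ext_eq_map (q : Ideal S) : ext E q = q.map (emb E) := by
  rw [emb, ← Ideal.map_map]
  exact (Ideal.map_symm E.toRingEquiv).symm

instance (q : Ideal S) [q.IsPrime] : (ext E q).IsPrime :=
  haveI := isPrime_map_mvC (γ := γ) q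
  Ideal.comap_isPrime _ _

theorem comap_ext (q : Ideal S) : (ext E q).comap (emb E) = q := by
  ext a
  rw [Ideal.mem_comap, ext, Ideal.mem_comap]
  simp only [emb, RingHom.comp_apply, RingHom.coe_coe, AlgEquiv.apply_symm_apply]
  rw [← Ideal.mem_comap, comap_map_mvC]

theorem ht_ext [IsNoetherianRing S] [Finite γ] (q : Ideal S) [q.IsPrime] :
    (ext E q).height = q.height := by
  rw [← ht_map_mvC (γ := γ) q]
  exact E.toRingEquiv.height_comap _

theorem inv_tw_ext (hE : ∀ s, emb E s ∈ supported k (Sl σ)) (q : Ideal S) [q.IsPrime]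
    (h : delX σ k ∉ ext E q) : Inv (tw σ false (ext E q)) := by
  refine inv_of_aeval fun g g' hg F hF => ?_
  have hp := del_notMem_tw h false
  have hx := unit_gen hp
  have hg' := hg.map (algebraMap k (tw σ false (ext E q)).ResidueField)
  have hx' := unit_act hg' hx
  have h1 : ∀ F, aeval (th σ true (gen (tw σ false (ext E q)))) F = 0 ↔ F ∈ ext E q := by
    intro F
    rw [← mem_tw]
    have := tw_tw h false
    simp only [Bool.not_false] at this
    rw [this]
  have h2 : ext E q ≤ RingHom.ker (aeval (th σ true (act (g.map (algebraMap k _))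
      (g'.map (algebraMap k _)) (gen (tw σ false (ext E q))))) :
      MvPolynomial (Var D N) k →ₐ[k] _) := by
    refine (ext_eq_map E q).le.trans (Ideal.map_le_iff_le_comap.mpr ?_)
    intro s hs
    rw [Ideal.mem_comap, RingHom.mem_ker,
      aeval_congr_supported (fun y hy => th_act hg' hx hy) (hE s), h1, ← Ideal.mem_comap,
      comap_ext]
    exact hs
  have h3 := th_mono (unit_th hx true) (unit_th hx' true) (fun F hF => h2 ((h1 F).mp hF)) false F
  have e1 := th_th hx true
  have e2 := th_th hx' true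
  simp only [Bool.not_true] at e1 e2
  rw [e1, e2] at h3
  exact h3 ((aeval_gen _ F).mpr hF)

theorem le_ext_aux [Infinite k] (hE : ∀ y ∈ Sl σ, ∃ s, E (X y) = C s)
    {p : Ideal (MvPolynomial (Var D N) k)} (hI : Inv p) {K : Type*} [Field K] [Algebra k K]
    {x : Var D N → K} (hx : IsUnit (del σ x)) (hp : ∀ F, aeval x F = 0 ↔ F ∈ p) :
    RingHom.ker (aeval (th σ true x) : MvPolynomial (Var D N) k →ₐ[k] K) ≤
      ext E ((RingHom.ker (aeval (th σ true x) : MvPolynomial (Var D N) k →ₐ[k] K)).comap
        (emb E)) := by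
  let K' := FractionRing (MvPolynomial γ K)
  let ev : MvPolynomial (Var D N) k →ₐ[k] K := aeval (th σ true x)
  let φ : S →+* K := (ev : MvPolynomial (Var D N) k →+* K).comp (emb E)
  let ψ : MvPolynomial (Var D N) k →+* MvPolynomial γ K :=
    (map φ).comp (E : MvPolynomial (Var D N) k →+* MvPolynomial γ S)
  let z : Var D N → K' := fun y => algebraMap (MvPolynomial γ K) K' (ψ (X y))
  have hψ : ∀ a : k, ψ (algebraMap k _ a) = algebraMap k _ a := by
    intro a
    have h1 : emb E (algebraMap k S a) = algebraMap k _ a := E.symm.commutes a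
    simp only [ψ, RingHom.comp_apply, RingHom.coe_coe, AlgEquiv.commutes]
    rw [MvPolynomial.algebraMap_apply, map_C, MvPolynomial.algebraMap_apply]
    simp only [φ, RingHom.comp_apply, RingHom.coe_coe, h1, AlgHom.commutes]
  have hz : ∀ F, aeval z F = algebraMap (MvPolynomial γ K) K' (ψ F) := by
    intro F
    have := hom_aeval (k := k) ((algebraMap (MvPolynomial γ K) K').comp ψ) (fun a => by
      rw [RingHom.comp_apply, hψ, ← IsScalarTower.algebraMap_apply]) X F
    rw [aeval_X_left_apply] at this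
    exact this.symm
  have hker : ∀ F, aeval z F = 0 ↔ F ∈ ext E ((RingHom.ker ev).comap (emb E)) := by
    intro F
    rw [hz, map_eq_zero_iff _ (IsFractionRing.injective _ _), ext, Ideal.mem_comap]
    have := MvPolynomial.ker_map (σ := γ) φ
    have h2 : RingHom.ker φ = (RingHom.ker ev).comap (emb E) := rfl
    rw [← h2, ← this]
    rfl
  have hzu : IsUnit (del σ z) := by
    rw [← aeval_delX (k := k)]
    refine Ne.isUnit fun h' => (unit_th hx true).ne_zero ?_
    have := (hker _).mp h'
    rw [ext_eq_map] at this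
    rw [← aeval_delX (k := k)]
    exact Ideal.map_comap_le this
  have hx1 : IsUnit (del σ fun y => algebraMap K K' (x y)) := by
    rw [← del_map]
    exact hx.map _
  have e1 := th_th hzu false
  simp only [Bool.not_false] at e1
  obtain ⟨g, g', hg, he⟩ := exists_act hx1 (unit_th hzu false) fun y hy => by
    rw [e1, ← th_map (algebraMap K K') hx]
    obtain ⟨s, hs⟩ := hE y hy
    have h1 : emb E s = X y := by
      simp only [emb, RingHom.comp_apply, RingHom.coe_coe]
      rw [← hs, AlgEquiv.symm_apply_apply]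
    simp only [z, ψ, RingHom.comp_apply, RingHom.coe_coe, hs, map_C, φ, h1, ev, aeval_X]
    rw [IsScalarTower.algebraMap_apply K (MvPolynomial γ K) K']
    rfl
  intro F hF
  rw [← hker, ← e1]
  refine th_mono hx (unit_th hzu false) (fun F hF => ?_) true F hF
  rw [he]
  refine hI.dens (fun F hF => ?_) hg ((hp F).mp hF)
  rw [← hom_aeval (algebraMap K K') (fun a => (IsScalarTower.algebraMap_apply k K K' a).symm),
    (hp F).mpr hF, map_zero]

theorem tw_eq_ext [Infinite k] (hE : ∀ y ∈ Sl σ, ∃ s, E (X y) = C s)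
    {p : Ideal (MvPolynomial (Var D N) k)} [p.IsPrime] (hI : Inv p) (h : delX σ k ∉ p) :
    tw σ true p = ext E ((tw σ true p).comap (emb E)) :=
  le_antisymm (le_ext_aux E hE hI (unit_gen h) (aeval_gen p))
    (by rw [ext_eq_map]; exact Ideal.map_comap_le)

end Cylinder

end Pool.Agent.MP_52bf41_ag.H1
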