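import Pool.Agent.MP_52bf41_ag.H1.Chart

/-! Coordinate subspaces and the cell lemma for affine space. -/

namespace Pool.Agent.MP_52bf41_ag.H1

open MvPolynomial

variable {τ k : Type*} [Field k]

open Classical in
/-- The prime ideal of the coordinate subspace on which the variables in `Z` vanish. -/
noncomputable def cs (k : Type*) [Field k] (Z : Set τ) : Ideal (MvPolynomial τ k) :=
  RingHom.ker (aeval (fun y => if y ∈ Z then 0 else X y) : MvPolynomial τ k →ₐ[k] MvPolynomial τ k)

instance (Z : Set τ) : (cs k Z).IsPrime := RingHom.ker_isPrime _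

theorem X_mem_cs {Z : Set τ} {y : τ} : X y ∈ cs k Z ↔ y ∈ Z := by
  rw [cs, RingHom.mem_ker, aeval_X]
  split_ifs with h <;> simp [h]

theorem cs_le {Z : Set τ} {I : Ideal (MvPolynomial τ k)} (h : ∀ y ∈ Z, X y ∈ I) : cs k Z ≤ I := by
  classical
  intro F hF
  have h1 := hom_aeval (k := k) (Ideal.Quotient.mk I) (fun _ => rfl)
    (fun y => if y ∈ Z then 0 else (X y : MvPolynomial τ k)) F
  rw [cs, RingHom.mem_ker] at hF
  rw [hF, map_zero] at h1
  have h2 : (fun y => Ideal.Quotient.mk I (if y ∈ Z then 0 else X y)) =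
      fun y => Ideal.Quotient.mk I (X y) := by
    funext y
    split_ifs with hy
    · rw [map_zero, Ideal.Quotient.eq_zero_iff_mem.mpr (h y hy)]
    · rfl
  rw [h2, aeval_mk] at h1
  exact Ideal.Quotient.eq_zero_iff_mem.mp h1.symm

theorem cs_mono {Z Z' : Set τ} (h : Z ⊆ Z') : cs k Z ≤ cs k Z' :=
  cs_le fun _ hy => X_mem_cs.mpr (h hy)

theorem ht_cs [Finite τ] (Z : Finset τ) : (cs k (Z : Set τ)).height = Z.card := by
  classical
  refine le_antisymm ?_ ?_
  · have h1 : cs k (Z : Set τ) = Ideal.span (Z.image X : Finset (MvPolynomial τ k)) := by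
      refine le_antisymm (cs_le fun y hy => Ideal.subset_span ?_) (Ideal.span_le.mpr ?_)
      · exact Finset.mem_coe.mpr (Finset.mem_image_of_mem _ hy)
      · intro F hF
        obtain ⟨y, hy, rfl⟩ := Finset.mem_image.mp hF
        exact X_mem_cs.mpr hy
    refine (Ideal.height_le_card_of_mem_minimalPrimes_span_finset (s := Z.image X) ?_).trans
      (by exact_mod_cast Finset.card_image_le)
    rw [← h1, Ideal.minimalPrimes_eq_subsingleton_self]
    rfl
  · induction Z using Finset.induction_on with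
    | empty => simp
    | insert y Z hy ih =>
      rw [Finset.card_insert_of_notMem hy]
      push_cast
      refine le_trans (by gcongr) (ht_lt (p := cs k (Z : Set τ)) (lt_of_le_of_ne
        (cs_mono (Set.subset_insert _ _)) fun h => hy ?_))
      have : X y ∈ cs k (Z : Set τ) := h ▸ X_mem_cs.mpr (Set.mem_insert _ _)
      exact X_mem_cs.mp this

open Classical in
/-- Splitting off the variables outside `s`. -/
noncomputable def spl (k : Type*) [Field k] (s : Set τ) {γ : Type*} (e : γ ≃ ↥sᶜ) :
    MvPolynomial τ k ≃ₐ[k] MvPolynomial γ (MvPolynomial s k) :=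
  (renameEquiv k (((Equiv.Set.sumCompl s).symm.trans (Equiv.sumComm _ _)).trans
    (Equiv.sumCongr e.symm (Equiv.refl _)))).trans (sumAlgEquiv k γ s)

theorem spl_X {s : Set τ} {γ : Type*} (e : γ ≃ ↥sᶜ) (y : s) :
    spl k s e (X y) = C (X y) := by
  simp [spl]

theorem spl_symm_C {s : Set τ} {γ : Type*} (e : γ ≃ ↥sᶜ) (F : MvPolynomial s k) :
    (spl k s e).symm (C F) = rename Subtype.val F := by
  rw [AlgEquiv.symm_apply_eq]
  induction F using MvPolynomial.induction_on with
  | C a => exact ((spl k s e).commutes a).symm.trans (by simp)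
  | add p q hp hq => simp only [map_add, hp, hq]
  | mul_X p i hp => simp only [map_mul, hp, rename_X, spl_X]

theorem cell_mv [Finite τ] {Z : Set τ} {d : ℕ} {P : Ideal (MvPolynomial τ k) → Prop}
    (hR : Rule (cs k Z) d P) (h0 : (cs k Z).height = d → P (cs k Z))
    (r : Ideal (MvPolynomial τ k)) (hr : r.IsPrime) (hc : cs k Z ≤ r) (hd : r.height = d) :
    P r := by
  let e := (spl k Z (Finite.equivFin ↥Zᶜ).symm).toRingEquiv
  have hce : ∀ I : Ideal (MvPolynomial τ k), (I.map e).comap e = I := fun I =>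
    Ideal.comap_map_of_bijective e e.bijective
  have h1 : (cs k Z).map e = (cs k (Set.univ : Set Z)).map C := by
    refine le_antisymm (Ideal.map_le_iff_le_comap.mpr (cs_le fun y hy => ?_))
      (Ideal.map_le_iff_le_comap.mpr (cs_le fun y _ => ?_))
    · have : e (X y) = C (X ⟨y, hy⟩) := spl_X _ ⟨y, hy⟩
      rw [Ideal.mem_comap, this]
      exact Ideal.mem_map_of_mem _ (X_mem_cs.mpr trivial)
    · have : e (X y) = C (X y) := spl_X _ y
      rw [Ideal.mem_comap, ← this]
      exact Ideal.mem_map_of_mem _ (X_mem_cs.mpr y.2)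
  have hR' := rule_equiv e hR
  rw [h1] at hR'
  have h2 := cell _ hR' (fun p hp hcp hpd => ?_) (r.map e) (Ideal.map_isPrime_of_equiv e)
    (h1 ▸ Ideal.map_mono hc) (by rw [e.height_map, hd])
  · rwa [hce] at h2
  have h3 : p = cs k (Set.univ : Set Z) := by
    refine le_antisymm (fun F hF => ?_) hcp
    have h4 : F - C (constantCoeff F) ∈ cs k (Set.univ : Set Z) := by
      rw [cs, RingHom.mem_ker]
      simp only [Set.mem_univ, if_true, map_sub, aeval_zero', aeval_C, algebraMap_eq, sub_self]
    by_cases h5 : constantCoeff F = 0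
    · simpa [h5] using h4
    · exfalso
      refine hp.ne_top (Ideal.eq_top_of_isUnit_mem _ ?_ ((Ne.isUnit h5).map C))
      simpa using p.sub_mem hF (hcp h4)
  rw [h3, ← h1, hce]
  refine h0 ?_
  rw [← e.height_map, h1, ht_map_mvC, ← h3, hpd]

end Pool.Agent.MP_52bf41_ag.H1
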