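import Mathlib

/-! Naive Chow groups of a quotient stack `[U/G]` (invariant cycles modulo divisors of invariant
rational functions) and the quotient presentation of the locus of curves with rational tails. -/

namespace Pool.Agent.MP_52bf41_ag.H1

open MvPolynomial

section Naive

variable {A : Type*} [CommRing A]

/-- Integral closed substacks of codimension `d` of `[U/G]`: invariant primes of height `d`
in `U`. -/
def Cyc (G : Set (A →+* A)) (U : Set (PrimeSpectrum A)) (d : ℕ) : Type _ :=
  {p : PrimeSpectrum A //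
    p ∈ U ∧ p.asIdeal.height = d ∧ ∀ s ∈ G, ∀ f ∈ p.asIdeal, s f ∈ p.asIdeal}

/-- The length of `(O/I)/(f)`. -/
noncomputable def ordq {O : Type*} [CommRing O] (I : Ideal O) (f : O) : ℕ :=
  (Ring.ord (O ⧸ I) (Ideal.Quotient.mk I f)).toNat

/-- The map to the local ring at `p`. -/
noncomputable def loc (p : PrimeSpectrum A) : A →+* Localization.AtPrime p.asIdeal :=
  algebraMap A (Localization.AtPrime p.asIdeal)

/-- Order of vanishing along `V(p)` of the restriction of `f` to `V(q)`: the length of
`O/(f)` for the local ring `O` of `V(q)` at `p`. -/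
noncomputable def ordAt (p q : PrimeSpectrum A) (f : A) : ℕ :=
  ordq (q.asIdeal.map (loc p)) (loc p f)

/-- The geometric point over `p`. -/
noncomputable def geo (p : PrimeSpectrum A) : A →+* AlgebraicClosure p.asIdeal.ResidueField :=
  algebraMap A (AlgebraicClosure p.asIdeal.ResidueField)

/-- `x` is the divisor of a nonzero invariant rational function `f/g` on an invariant integral
subvariety of codimension `d - 1`. -/
def IsDiv (G : Set (A →+* A)) (U : Set (PrimeSpectrum A)) (d : ℕ) (x : Cyc G U d →₀ ℚ) : Prop :=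
  ∃ (e : ℕ) (q : Cyc G U e) (f g : A), e + 1 = d ∧ f ∉ q.1.asIdeal ∧ g ∉ q.1.asIdeal ∧
    (∀ s ∈ G, s f * g - f * s g ∈ q.1.asIdeal) ∧
    ∀ p : Cyc G U d, x p = (ordAt p.1 q.1 f : ℚ) - (ordAt p.1 q.1 g : ℚ)

/-- The codimension `d` naive Chow group of `[U/G]` with rational coefficients. -/
abbrev Chow (G : Set (A →+* A)) (U : Set (PrimeSpectrum A)) (d : ℕ) : Type _ :=
  (Cyc G U d →₀ ℚ) ⧸ Submodule.span ℚ {x | IsDiv G U d x}

end Naive

/-- Entries of a `D × (D+1)` matrix (equations of the curve) and of an `N × (D+1)` matrix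
(`N` sections of the line bundle). -/
abbrev Var (D N : ℕ) : Type := (Fin D ⊕ Fin N) × Fin (D + 1)

variable {D N : ℕ}

/-- The matrix `T` of the equations. -/
def pencil {R : Type*} (x : Var D N → R) : Matrix (Fin D) (Fin (D + 1)) R :=
  Matrix.of fun i j => x (Sum.inl i, j)

/-- The matrix `J` of the sections. -/
def sections {R : Type*} (x : Var D N → R) : Matrix (Fin N) (Fin (D + 1)) R :=
  Matrix.of fun r j => x (Sum.inr r, j)

/-- Change of coordinates `q ↦ g q` with inverse `g'`: `(T, J) ↦ (h T g', J g')`, where `h` is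
the lower right block of `g`. -/
def act {R : Type*} [CommRing R] (g g' : Matrix (Fin (D + 1)) (Fin (D + 1)) R)
    (x : Var D N → R) : Var D N → R := fun y =>
  Sum.elim (fun i => (g.submatrix Fin.succ Fin.succ * pencil x * g') i y.2)
    (fun r => (sections x * g') r y.2) y.1

/-- The group of invertible matrices fixing the first basis vector, acting on the coordinate
ring. -/
def Grp (k : Type*) [Field k] (D N : ℕ) :
    Set (MvPolynomial (Var D N) k →+* MvPolynomial (Var D N) k) :=
  {s | ∃ g g' : Matrix (Fin (D + 1)) (Fin (D + 1)) k, g * g' = 1 ∧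
    (∀ i, g i 0 = (1 : Matrix (Fin (D + 1)) (Fin (D + 1)) k) i 0) ∧
    s = (aeval (act (g.map C) (g'.map C) X) :
      MvPolynomial (Var D N) k →ₐ[k] MvPolynomial (Var D N) k)}

/-- The curve `t q_{j+1} = s (T q)_j` in `P^1 × P^D` is the graph of a rational normal curve
of degree `e` together with `m = D - e` lines in general position, attached over distinct
points `a i` of `P^1` different from `0, 1, ∞`. -/
def IsTail {K : Type*} [Field K] (T : Matrix (Fin D) (Fin (D + 1)) K) : Prop :=
  ∃ (e m : ℕ) (a : Fin m → K) (u : Fin (e + 1) → Fin (D + 1) → K)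
    (w : Fin m → Fin (D + 1) → K), e + m = D ∧ Function.Injective a ∧
    (∀ i, a i ≠ 0 ∧ a i ≠ 1) ∧ LinearIndependent K (Sum.elim u w) ∧
    ∀ (s t : K) (q : Fin (D + 1) → K), s ≠ 0 ∨ t ≠ 0 →
      ((∀ j, t * q j.succ = s * T.mulVec q j) ↔
        ∃ c : K, q = c • ∑ l : Fin (e + 1), (s ^ (e - l) * t ^ (l : ℕ)) • u l ∨
          ∃ (i : Fin m) (y : K), t = a i * s ∧
            q = c • ∑ l : Fin (e + 1), (s ^ (e - l) * t ^ (l : ℕ)) • u l + y • w i)

/-- The curve over the geometric point at `p` has rational tails. -/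
def TailAt {A : Type*} [CommRing A] (x : Var D N → A) (p : PrimeSpectrum A) : Prop :=
  IsTail (pencil fun y => geo p (x y))

/-- The points whose geometric fibre is a curve with rational tails. -/
def Tails (k : Type*) [Field k] (D N : ℕ) : Set (PrimeSpectrum (MvPolynomial (Var D N) k)) :=
  {p | TailAt X p}

/-- The dimension of the codimension `d` Chow group of `[Tails / Grp]`. -/
noncomputable def chowDim (k : Type*) [Field k] (D N d : ℕ) : ℕ :=
  Module.finrank ℚ (Chow (Grp k D N) (Tails k D N) d)

end Pool.Agent.MP_52bf41_ag.H1
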