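import Pool.Agent.MP_52bf41_ag.H1.Fun

/-! Equivariant multiplicities vanish on divisors of invariant rational functions. -/

namespace Pool.Agent.MP_52bf41_ag.H1

open MvPolynomial Finsupp

variable {k : Type*} [Field k] {D N : ℕ}

theorem exists_homog [Infinite k] (a : Fin D → ℤ) {q : Ideal (MvPolynomial (Var D N) k)}
    (hq : q.IsPrime) {F G : MvPolynomial (Var D N) k} (hF : F ∉ q) (hG : G ∉ q)
    (hinv : ∀ s ∈ Grp k D N, s F * G - F * s G ∈ q) :
    ∃ (γ : ℤ) (F' G' : MvPolynomial (Var D N) k), IsWeightedHomogeneous (wT a) F' γ ∧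
      IsWeightedHomogeneous (wT a) G' γ ∧ F' ∉ q ∧ G' ∉ q ∧ F' * G - F * G' ∈ q := by
  classical
  obtain ⟨γ, hγ⟩ : ∃ γ, weightedHomogeneousComponent (wT a) γ G ∉ q := by
    by_contra h
    push Not at h
    apply hG
    rw [← sum_weightedHomogeneousComponent (wT a) G, finsum_eq_sum _
      (weightedHomogeneousComponent_finsupp G)]
    exact Ideal.sum_mem _ fun γ _ => h γ
  have h1 : weightedHomogeneousComponent (wT a) γ F * G -
      F * weightedHomogeneousComponent (wT a) γ G ∈ q := by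
    refine mem_of_forall_unit (k := k)
      (S := insert γ ((F.support ∪ G.support).image (weight (wT a))))
      (a := fun γ => weightedHomogeneousComponent (wT a) γ F * G -
        F * weightedHomogeneousComponent (wT a) γ G) (fun t => ?_) γ (Finset.mem_insert_self _ _)
    have := hinv _ (scale_mem a t)
    rw [RingHom.coe_coe, scale_eq _ _ F fun μ hμ => Finset.mem_insert_of_mem (b := γ)
      (Finset.mem_image_of_mem _ (Finset.mem_union_left G.support hμ)),
      scale_eq _ _ G fun μ hμ => Finset.mem_insert_of_mem (b := γ)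
      (Finset.mem_image_of_mem _ (Finset.mem_union_right F.support hμ))] at this
    simpa only [smul_sub, Finset.sum_sub_distrib, Finset.sum_mul, Finset.mul_sum, smul_mul_assoc,
      mul_smul_comm] using this
  refine ⟨γ, _, _, weightedHomogeneousComponent_isWeightedHomogeneous γ F,
    weightedHomogeneousComponent_isWeightedHomogeneous γ G, fun h => ?_, hγ, h1⟩
  have := q.sub_mem (q.mul_mem_right G h) h1
  rw [sub_sub_cancel] at this
  exact (hq.mem_or_mem this).elim hF hγ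

theorem exists_rel {σ : Type*} [Fintype σ] {w : σ → ℤ} {d : ℕ}
    {q : PrimeSpectrum (MvPolynomial σ k)} (hq : q.asIdeal.height + 1 = d) (hw : Gr w q.asIdeal)
    {γ : ℤ} {F G : MvPolynomial σ k} (hF : IsWeightedHomogeneous w F γ)
    (hG : IsWeightedHomogeneous w G γ) (hF' : F ∉ q.asIdeal) (hG' : G ∉ q.asIdeal) :
    ∃ z : PrimeSpectrum (MvPolynomial σ k) →₀ ℚ,
      linearCombination ℚ (fun p : PrimeSpectrum (MvPolynomial σ k) =>
        cls d (fun y => (w y : ℚ)) p.asIdeal) z = 0 ∧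
      (∀ p : PrimeSpectrum (MvPolynomial σ k), p.asIdeal.height = d →
        z p = (ordAt p q F : ℚ) - (ordAt p q G : ℚ)) ∧
      ∀ p ∈ z.support, p.asIdeal.height = d ∧ Gr w p.asIdeal := by
  classical
  obtain ⟨xF, hF1, hF2, hF3⟩ := exists_cycle (Int.castAddHom ℚ) (hw.sup_span hF)
    (hq.symm.le.trans (ht_sup hF'))
  obtain ⟨xG, hG1, hG2, hG3⟩ := exists_cycle (Int.castAddHom ℚ) (hw.sup_span hG)
    (hq.symm.le.trans (ht_sup hG'))
  refine ⟨xF - xG, ?_, fun p hp => ?_, fun p hp =>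
    (Finset.mem_union.mp (support_sub hp)).elim (hF2 p) (hG2 p)⟩
  · rw [map_sub, sub_eq_zero]
    refine hF3.symm.trans (Eq.trans ?_ hG3)
    rw [cls, cls, kap_sup_prime (isChar_ex _) hw hF hF', kap_sup_prime (isChar_ex _) hw hG hG']
  · rw [ordAt_eq, ordAt_eq, hF1 p hp, hG1 p hp, Finsupp.sub_apply]

theorem ord_comap {A : Type*} [CommRing A] [IsNoetherianRing A] {d : ℕ} {p q : PrimeSpectrum A}
    (hq : q.asIdeal.height + 1 = d) (hp : p.asIdeal.height = d) {F G : A} (hF : F ∉ q.asIdeal)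
    (hG : G ∉ q.asIdeal) {s : A →+* A} {Γ : Set (A →+* A)} (hs : s ∈ Γ)
    (hE : ∃ E : A ≃+* A, (E : A →+* A) = s ∧ (E.symm : A →+* A) ∈ Γ)
    (hI : ∀ s ∈ Γ, ∀ f ∈ q.asIdeal, s f ∈ q.asIdeal) (h : s F * G - F * s G ∈ q.asIdeal) :
    (PrimeSpectrum.comap s p).asIdeal.height = d ∧ (ordAt (PrimeSpectrum.comap s p) q F : ℚ) -
      ordAt (PrimeSpectrum.comap s p) q G = ordAt p q F - ordAt p q G := by
  obtain ⟨E, rfl, hE⟩ := hE
  have h7 : ∀ f, E f ∈ q.asIdeal ↔ f ∈ q.asIdeal := fun f =>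
    ⟨fun h => by simpa using hI _ hE _ h, fun h => hI _ hs f h⟩
  have h8 : PrimeSpectrum.comap (E : A →+* A) q = q := PrimeSpectrum.ext (Ideal.ext h7)
  have h9 := fun f => ordAt_comap E p q f
  rw [h8] at h9
  refine ⟨(E.height_comap _).trans hp, ?_⟩
  rw [h9, h9, ← ordAt_cross hq hp hF hG (mt (h7 F).mp hF) (mt (h7 G).mp hG) h]

theorem cls_div [Infinite k] {d : ℕ} (a : Fin D → ℤ) {x : Cy k D N d →₀ ℚ}
    (hx : x ∈ Rel k D N d) :
    linearCombination ℚ (fun p : Cy k D N d => cls d (fun y => (wT a y : ℚ)) p.1.asIdeal) x = 0 := by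
  classical
  refine (Submodule.span_le (p := LinearMap.ker (linearCombination ℚ fun p : Cy k D N d =>
    cls d (fun y => (wT a y : ℚ)) p.1.asIdeal))).mpr ?_ hx
  rintro x ⟨e, ⟨q, hq0, hq1, hqI⟩, F, G, he, hF, hG, hinv, hx⟩
  have hq : q.asIdeal.height + 1 = d := by
    rw [hq1, ← he, Nat.cast_add, Nat.cast_one]
  obtain ⟨γ, F', G', hF1, hG1, hF2, hG2, h1⟩ := exists_homog a q.isPrime hF hG hinv
  obtain ⟨z, h3, h4', h5⟩ := exists_rel hq (Inv.gr hqI a) hF1 hG1 hF2 hG2
  have h4 : ∀ p : PrimeSpectrum (MvPolynomial (Var D N) k), p.asIdeal.height = d →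
      z p = (ordAt p q F : ℚ) - (ordAt p q G : ℚ) := fun p hp => by
    rw [ordAt_cross hq hp hF hG hF2 hG2 h1, h4' p hp]
  have h6 : ∀ p ∈ z.support, Inv p.asIdeal := fun p hp => by
    refine inv_of_finite _ (fun p hp => (h5 p hp).1) (fun s hs p hp => ?_) hp
    have h9 := (h5 p hp).1
    have h7 := ord_comap hq h9 hF hG hs (exists_equiv hs) hqI (hinv _ hs)
    rw [Finsupp.mem_support_iff] at hp ⊢
    rw [h4 _ h7.1, h7.2, ← h4 p h9]
    exact hp
  obtain ⟨x0, hx0, hx1, -⟩ := exists_test (k := k) D N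
  have h10 := linearCombination_mapDomain ℚ (v' := fun p : PrimeSpectrum (MvPolynomial (Var D N) k) =>
    cls d (fun y => (wT a y : ℚ)) p.asIdeal) (Subtype.val : Cy k D N d → _) x
  refine h10.symm.trans ?_
  rw [← h3, ← sub_eq_zero, ← map_sub, linearCombination_apply]
  refine Finset.sum_eq_zero fun p hp => ?_
  rw [Finsupp.mem_support_iff, Finsupp.sub_apply] at hp
  by_cases hr : p ∈ Set.range (Subtype.val : Cy k D N d → _)
  · obtain ⟨p, rfl⟩ := hr
    rw [mapDomain_apply Subtype.val_injective, h4 _ p.2.2.1] at hp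
    exact absurd (sub_eq_zero.mpr (hx p)) hp
  rw [mapDomain_notin_range _ _ hr, zero_sub, neg_ne_zero, ← Finsupp.mem_support_iff] at hp
  have h7 : p ∉ Tails k D N := fun h => hr ⟨⟨p, h, (h5 p hp).1, h6 p hp⟩, rfl⟩
  have h8 := mt (mem_tails_of_point hx0) h7
  push Not at h8
  obtain ⟨f, hf, hf'⟩ := h8
  have := kap_vanish (isChar_ex (Int.castAddHom ℚ)) (h5 p hp).2 (hx1 a) hf hf'
  simp only [Int.coe_castAddHom] at this
  simp only [cls, this, map_zero, smul_zero]

end Pool.Agent.MP_52bf41_ag.H1
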