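import Pool.Agent.MP_52bf41_ag.H1.Act

/-! The tail condition is open: it is the nonvanishing of a polynomial in a feedback vector. -/

namespace Pool.Agent.MP_52bf41_ag.H1

open Polynomial Matrix

variable {D N : ℕ}

section Phi

variable {R R' : Type*} [CommRing R] [CommRing R']

def fb (T : Matrix (Fin D) (Fin (D + 1)) R) (c : Fin D → R) : Matrix (Fin D) (Fin D) R :=
  Matrix.of fun i j => T i j.succ + T i 0 * c j

theorem fb_mulVec (T : Matrix (Fin D) (Fin (D + 1)) R) (c v : Fin D → R) :
    fb T c *ᵥ v = T *ᵥ (Fin.cons (c ⬝ᵥ v) v : Fin (D + 1) → R) := by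
  funext i
  simp only [fb, mulVec, dotProduct, of_apply, Fin.sum_univ_succ, Fin.cons_zero, Fin.cons_succ,
    add_mul, Finset.sum_add_distrib, Finset.mul_sum, mul_assoc]
  ring

noncomputable def phi (T : Matrix (Fin D) (Fin (D + 1)) R) (c : Fin D → R) : R :=
  resultant (fb T c).charpoly (derivative (fb T c).charpoly) D D *
    ((fb T c).charpoly.eval 0 * (fb T c).charpoly.eval 1)

theorem phi_map (φ : R →+* R') (T : Matrix (Fin D) (Fin (D + 1)) R) (c : Fin D → R) :
    φ (phi T c) = phi (T.map φ) fun j => φ (c j) := by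
  have h : fb (T.map φ) (fun j => φ (c j)) = (fb T c).map φ := by
    ext i j
    simp [fb]
  rw [phi, phi, h, charpoly_map, derivative_map, resultant_map_map, eval_zero_map, eval_one_map,
    map_mul, map_mul]

end Phi

variable {K : Type*} [Field K]

theorem res_ne_zero_iff {f : K[X]} (hf : f.Monic) (hd : f.natDegree = D) :
    resultant f (derivative f) D D ≠ 0 ↔ f.Separable := by
  have h1 : (derivative f).natDegree ≤ D := hd ▸ (natDegree_derivative_le f).trans (Nat.sub_le _ _)
  obtain ⟨n, hn⟩ := Nat.exists_eq_add_of_le h1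
  have h2 := resultant_add_right_deg f (derivative f) D (derivative f).natDegree n le_rfl
  rw [← hn] at h2
  have h3 : f.coeff D = 1 := hd ▸ hf
  rw [h2, h3, one_pow, one_mul, Separable, ← isUnit_resultant_iff_isCoprime hf, hd,
    isUnit_iff_ne_zero]

/-- `D` points of the curve over distinct parameters with independent projections. -/
def Eig (T : Matrix (Fin D) (Fin (D + 1)) K) : Prop :=
  ∃ (t : Fin D → K) (q : Fin D → Fin (D + 1) → K), Function.Injective t ∧
    (∀ j, t j ≠ 0 ∧ t j ≠ 1) ∧ (∀ j i, t j * q j i.succ = (T *ᵥ q j) i) ∧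
    LinearIndependent K fun j => Fin.tail (q j)

theorem Eig.exists_phi {T : Matrix (Fin D) (Fin (D + 1)) K} (h : Eig T) : ∃ c, phi T c ≠ 0 := by
  obtain ⟨t, q, ht, ht', hq, hli⟩ := h
  let Q : Matrix (Fin D) (Fin D) K := Matrix.of fun i j => q j i.succ
  have hQ : IsUnit Q := linearIndependent_cols_iff_isUnit.mp hli
  have hQd : IsUnit Q.det := (isUnit_iff_isUnit_det Q).mp hQ
  let c : Fin D → K := (fun j => q j 0) ᵥ* Q⁻¹
  have hc : c ᵥ* Q = fun j => q j 0 := by
    rw [vecMul_vecMul, nonsing_inv_mul _ hQd, vecMul_one]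
  have h1 : fb T c * Q = Q * diagonal t := by
    ext i j
    have h2 : (fb T c * Q) i j = (fb T c *ᵥ Fin.tail (q j)) i := rfl
    have h3 : c ⬝ᵥ Fin.tail (q j) = q j 0 := congrFun hc j
    rw [h2, fb_mulVec, h3, Fin.cons_self_tail, ← hq, mul_diagonal, mul_comm]
    rfl
  have h2 : (fb T c).charpoly = ∏ i, (X - C (t i)) := by
    have : fb T c = (Q * diagonal t) * Q⁻¹ := by
      rw [← h1, Matrix.mul_assoc, mul_nonsing_inv _ hQd, Matrix.mul_one]
    rw [this, charpoly_mul_comm, ← Matrix.mul_assoc, nonsing_inv_mul _ hQd, Matrix.one_mul,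
      charpoly_diagonal]
  refine ⟨c, mul_ne_zero ?_ (mul_ne_zero ?_ ?_)⟩
  · rw [res_ne_zero_iff (charpoly_monic _) (by simp), h2]
    exact separable_prod_X_sub_C_iff.mpr ht
  · rw [h2, eval_prod, Finset.prod_ne_zero_iff]
    intro i _
    simpa using (ht' i).1
  · rw [h2, eval_prod, Finset.prod_ne_zero_iff]
    intro i _
    simpa [sub_eq_zero] using (ht' i).2.symm

theorem eig_of_phi [IsAlgClosed K] {T : Matrix (Fin D) (Fin (D + 1)) K} {c : Fin D → K}
    (h : phi T c ≠ 0) : Eig T := by
  classical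
  have hs := (res_ne_zero_iff (charpoly_monic _) (by simp)).mp (left_ne_zero_of_mul h)
  have h0 := left_ne_zero_of_mul (right_ne_zero_of_mul h)
  have h1 := right_ne_zero_of_mul (right_ne_zero_of_mul h)
  have hcard : (fb T c).charpoly.roots.toFinset.card = D := by
    rw [Multiset.toFinset_card_of_nodup (nodup_roots hs), IsAlgClosed.card_roots_eq_natDegree]
    simp
  let e := (Finset.equivFinOfCardEq hcard).symm
  have hr : ∀ j, (fb T c).charpoly.eval (e j : K) = 0 := fun j =>
    isRoot_of_mem_roots (Multiset.mem_toFinset.mp (e j).2)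
  have hv : ∀ j, ∃ v ≠ 0, fb T c *ᵥ v = (e j : K) • v := by
    intro j
    have := hr j
    rw [Matrix.eval_charpoly, ← exists_mulVec_eq_zero_iff] at this
    obtain ⟨v, hv0, hv⟩ := this
    refine ⟨v, hv0, ?_⟩
    rw [sub_mulVec, sub_eq_zero] at hv
    rw [← hv]
    funext i
    simp [mulVec_diagonal]
  choose v hv0 hv using hv
  have hinj : Function.Injective fun j => (e j : K) := Subtype.val_injective.comp e.injective
  refine ⟨fun j => e j, fun j => Fin.cons (c ⬝ᵥ v j) (v j), hinj, fun j => ⟨fun h => h0 ?_,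
    fun h => h1 ?_⟩, fun j i => ?_, ?_⟩
  · exact h ▸ hr j
  · exact h ▸ hr j
  · rw [← fb_mulVec, hv]
    simp
  · simp only [Fin.tail_cons]
    refine Module.End.eigenvectors_linearIndependent' (Matrix.toLin' (fb T c)) _ hinj v fun j =>
      ⟨Module.End.mem_eigenspace_iff.mpr ?_, hv0 j⟩
    rw [Matrix.toLin'_apply, hv]

theorem IsTail.eig [Infinite K] {T : Matrix (Fin D) (Fin (D + 1)) K} (h : IsTail T) : Eig T := by
  classical
  obtain ⟨e, m, a, u, w, rfl, ha, ha', hli, h⟩ := h
  have hinf : ((insert 0 (insert 1 (Set.range a)) : Set K)ᶜ).Infinite :=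
    (((Set.finite_range a).insert 1).insert 0).infinite_compl
  let s : Fin e → K := fun j => hinf.natEmbedding _ j
  have hs : Function.Injective s := fun i j hij =>
    Fin.ext ((hinf.natEmbedding _).injective (Subtype.ext hij))
  have hs' : ∀ j, s j ≠ 0 ∧ s j ≠ 1 ∧ ∀ i, a i ≠ s j := fun j => by
    have : s j ∈ (insert 0 (insert 1 (Set.range a)) : Set K)ᶜ := (hinf.natEmbedding _ j).2
    simpa [not_or] using this
  let ν : K → Fin (e + m + 1) → K := fun t => ∑ l : Fin (e + 1), (t ^ (l : ℕ)) • u l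
  refine ⟨Fin.addCases s a, Fin.addCases (fun j => ν (s j)) w, ?_, ?_, ?_, ?_⟩
  · intro i j
    refine Fin.addCases (fun i => ?_) (fun i => ?_) i <;>
      refine Fin.addCases (fun j => ?_) (fun j => ?_) j <;>
      simp only [Fin.addCases_left, Fin.addCases_right] <;> intro hij
    · rw [hs hij]
    · exact absurd hij.symm ((hs' i).2.2 j)
    · exact absurd hij ((hs' j).2.2 i)
    · rw [ha hij]
  · intro j
    refine Fin.addCases (fun j => ?_) (fun j => ?_) j
    · simpa using ⟨(hs' j).1, (hs' j).2.1⟩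
    · simpa using ha' j
  · intro j i
    refine Fin.addCases (fun j => ?_) (fun j => ?_) j
    · have := (h 1 (s j) (ν (s j)) (Or.inl one_ne_zero)).mpr ⟨1, Or.inl (by simp [ν])⟩ i
      simpa using this
    · have := (h 1 (a j) (w j) (Or.inl one_ne_zero)).mpr ⟨0, Or.inr ⟨j, 1, by simp, by simp⟩⟩ i
      simpa using this
  · rw [Fintype.linearIndependent_iff]
    intro y hy
    let z : Fin (e + m + 1) → K :=
      ∑ j : Fin e, y (Fin.castAdd m j) • ν (s j) + ∑ i : Fin m, y (Fin.natAdd e i) • w i
    have hz : ∀ j : Fin (e + m), (1 : K) * z j.succ = 0 * (T *ᵥ z) j := by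
      intro j
      have := congrFun hy j
      rw [Fin.sum_univ_add] at this
      simpa [z, Fin.tail] using this
    obtain ⟨c, hc | ⟨i, _, hi, _⟩⟩ := (h 0 1 z (Or.inr one_ne_zero)).mp hz
    swap
    · simp at hi
    have h1 := Fintype.linearIndependent_iff.mp hli (Sum.elim
      (fun l => ∑ j : Fin e, y (Fin.castAdd m j) * s j ^ (l : ℕ) - c * 0 ^ (e - l))
      fun i => y (Fin.natAdd e i)) (by
        rw [Fintype.sum_sum_type]
        simp only [Sum.elim_inl, Sum.elim_inr, sub_smul, Finset.sum_sub_distrib, Finset.sum_smul]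
        rw [Finset.sum_comm, sub_add_eq_add_sub, sub_eq_zero]
        simp only [z, ν, Finset.smul_sum, smul_smul, one_pow, mul_one] at hc
        exact hc)
    have h2 : (fun j => y (Fin.castAdd m j)) = 0 :=
      Matrix.eq_zero_of_forall_pow_sum_mul_pow_eq_zero hs fun l => by
        have := h1 (Sum.inl l.castSucc)
        simpa [zero_pow (Nat.sub_ne_zero_of_lt l.2)] using this
    intro j
    refine Fin.addCases (fun j => congrFun h2 j) (fun j => h1 (Sum.inr j)) j

section Comb

variable {T : Matrix (Fin D) (Fin (D + 1)) K} {t : Fin D → K} {q : Fin D → Fin (D + 1) → K}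

def comb (q : Fin D → Fin (D + 1) → K) (y0 : K) (y : Fin D → K) : Fin (D + 1) → K :=
  y0 • (Pi.single 0 1 : Fin (D + 1) → K) + ∑ j, y j • q j

theorem exists_tail (hli : LinearIndependent K fun j => Fin.tail (q j)) (v : Fin D → K) :
    ∃ y : Fin D → K, ∑ j, y j • Fin.tail (q j) = v := by
  classical
  have := (basisOfPiSpaceOfLinearIndependent hli).sum_repr v
  rw [coe_basisOfPiSpaceOfLinearIndependent] at this
  exact ⟨_, this⟩

theorem comb_succ (y0 : K) (y : Fin D → K) (i : Fin D) :
    comb q y0 y i.succ = (∑ j, y j • Fin.tail (q j)) i := by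
  simp [comb, Fin.tail, Pi.single_eq_of_ne (Fin.succ_ne_zero i)]

theorem exists_comb (hli : LinearIndependent K fun j => Fin.tail (q j)) (z : Fin (D + 1) → K) :
    ∃ y0 y, z = comb q y0 y := by
  obtain ⟨y, hy⟩ := exists_tail hli (Fin.tail z)
  refine ⟨z 0 - ∑ j, y j * q j 0, y, funext fun i => Fin.cases ?_ (fun i => ?_) i⟩
  · simp [comb]
  · rw [comb_succ, hy]
    rfl

theorem comb_eqn (hq : ∀ j i, t j * q j i.succ = (T *ᵥ q j) i)
    (hli : LinearIndependent K fun j => Fin.tail (q j)) {β : Fin D → K}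
    (hβ : ∑ j, β j • Fin.tail (q j) = fun i => T i 0) (s τ y0 : K) (y : Fin D → K) :
    (∀ i, τ * comb q y0 y i.succ = s * (T *ᵥ comb q y0 y) i) ↔
      ∀ j, τ * y j = s * (y0 * β j + t j * y j) := by
  have h1 : ∀ i, τ * comb q y0 y i.succ - s * (T *ᵥ comb q y0 y) i =
      (∑ j, (τ * y j - s * (y0 * β j + t j * y j)) • Fin.tail (q j)) i := by
    intro i
    have h2 : T i 0 = ∑ j, β j * q j i.succ := by
      simpa [Fin.tail] using (congrFun hβ i).symm
    rw [comb_succ, comb, mulVec_add, mulVec_smul, mulVec_sum]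
    simp only [mulVec_smul, mulVec_single_one, Pi.add_apply, Pi.smul_apply, Finset.sum_apply,
      smul_eq_mul, ← hq, Fin.tail, col_apply, h2, Finset.mul_sum, mul_add,
      ← Finset.sum_add_distrib, ← Finset.sum_sub_distrib]
    exact Finset.sum_congr rfl fun j _ => by ring
  constructor
  · intro h j
    exact sub_eq_zero.mp (Fintype.linearIndependent_iff.mp hli _
      (funext fun i => (h1 i).symm.trans (sub_eq_zero.mpr (h i))) j)
  · intro h i
    rw [← sub_eq_zero, h1]
    simp [h]

theorem smul_comb (c y0 : K) (y : Fin D → K) :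
    c • comb q y0 y = comb q (c * y0) fun j => c * y j := by
  simp [comb, smul_add, Finset.smul_sum, smul_smul]

theorem comb_add_single (y0 a : K) (y : Fin D → K) (i : Fin D) :
    comb q y0 y + a • q i = comb q y0 fun j => y j + if j = i then a else 0 := by
  simp [comb, add_smul, Finset.sum_add_distrib, add_assoc, ite_smul]

theorem sum_comb {n : ℕ} (r : Fin n → K) (y0 : Fin n → K) (y : Fin n → Fin D → K) :
    ∑ l, r l • comb q (y0 l) (y l) = comb q (∑ l, r l * y0 l) fun j => ∑ l, r l * y l j := by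
  simp only [comb, smul_add, Finset.sum_add_distrib, Finset.smul_sum, smul_smul, Finset.sum_smul]
  rw [Finset.sum_comm]

end Comb

theorem hom_eval {P : K[X]} {e : ℕ} (hP : P.natDegree ≤ e) {s : K} (hs : s ≠ 0) (τ : K) :
    ∑ l : Fin (e + 1), s ^ (e - l) * (τ * s) ^ (l : ℕ) * P.coeff l = s ^ e * P.eval τ := by
  rw [eval_eq_sum_range' (Nat.lt_succ_of_le hP), Finset.sum_range, Finset.mul_sum]
  refine Finset.sum_congr rfl fun l _ => ?_
  have : s ^ e = s ^ (e - l) * s ^ (l : ℕ) := by
    rw [← pow_add, Nat.sub_add_cancel (Nat.lt_succ_iff.mp l.2)]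
  rw [this]
  ring

theorem hom_zero (P : K[X]) (e : ℕ) (τ : K) :
    ∑ l : Fin (e + 1), (0 : K) ^ (e - l) * τ ^ (l : ℕ) * P.coeff l = τ ^ e * P.coeff e := by
  rw [Fin.sum_univ_castSucc, Finset.sum_eq_zero]
  · simp
  · intro l _
    simp [zero_pow (Nat.sub_ne_zero_of_lt l.2)]

theorem Eig.isTail {T : Matrix (Fin D) (Fin (D + 1)) K} (h : Eig T) : IsTail T := by
  classical
  obtain ⟨t, q, ht, ht', hq, hli⟩ := h
  obtain ⟨β, hβ⟩ := exists_tail hli fun i => T i 0
  let E : Finset (Fin D) := Finset.univ.filter fun j => β j ≠ 0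
  have hE : ∀ j, j ∈ E ↔ β j ≠ 0 := by simp [E]
  let P0 : K[X] := ∏ l ∈ E, (X - C (t l))
  let P : Fin D → K[X] := fun j => C (β j) * ∏ l ∈ E.erase j, (X - C (t l))
  have hP0m : P0.Monic := monic_prod_of_monic _ _ fun l _ => monic_X_sub_C _
  have hP0 : P0.natDegree = E.card := natDegree_finsetProd_X_sub_C_eq_card _ _
  have hP : ∀ j, (P j).natDegree ≤ E.card := fun j =>
    (natDegree_C_mul_le _ _).trans (by
      rw [natDegree_finsetProd_X_sub_C_eq_card]
      exact Finset.card_erase_le)
  have hPc : ∀ j, (P j).coeff E.card = 0 := fun j => by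
    by_cases hj : j ∈ E
    · refine coeff_eq_zero_of_natDegree_lt ((natDegree_C_mul_le _ _).trans_lt ?_)
      rw [natDegree_finsetProd_X_sub_C_eq_card]
      exact Finset.card_erase_lt_of_mem hj
    · simp [P, not_not.mp (mt (hE j).mpr hj)]
  have hPe : ∀ j τ, (τ - t j) * (P j).eval τ = β j * P0.eval τ := fun j τ => by
    by_cases hj : j ∈ E
    · simp only [P, P0, ← Finset.mul_prod_erase E _ hj, eval_mul, eval_C, eval_sub, eval_X]
      ring
    · simp [P, not_not.mp (mt (hE j).mpr hj)]
  have hPj : ∀ j ∈ E, (P j).eval (t j) ≠ 0 := fun j hj => by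
    simp only [P, eval_mul, eval_C, eval_prod, eval_sub, eval_X]
    refine mul_ne_zero ((hE j).mp hj) (Finset.prod_ne_zero_iff.mpr fun l hl => ?_)
    exact sub_ne_zero.mpr fun h => Finset.ne_of_mem_erase hl (ht h).symm
  have hP0j : ∀ j ∈ E, P0.eval (t j) = 0 := fun j hj => by
    simp only [P0, eval_prod]
    exact Finset.prod_eq_zero hj (by simp)
  let en := (Eᶜ).equivFin.symm
  let u : Fin (E.card + 1) → Fin (D + 1) → K := fun l =>
    comb q (P0.coeff l) fun j => (P j).coeff l
  have hν : ∀ s τ : K, s ≠ 0 → ∑ l : Fin (E.card + 1), (s ^ (E.card - l) * (τ * s) ^ (l : ℕ)) • u l =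
      comb q (s ^ E.card * P0.eval τ) fun j => s ^ E.card * (P j).eval τ := by
    intro s τ hs
    rw [sum_comb, hom_eval hP0.le hs]
    simp only [hom_eval (hP _) hs]
  have hν0 : ∀ τ : K, ∑ l : Fin (E.card + 1), ((0 : K) ^ (E.card - l) * τ ^ (l : ℕ)) • u l =
      comb q (τ ^ E.card) 0 := by
    intro τ
    have h1 : P0.coeff E.card = 1 := hP0 ▸ hP0m
    rw [sum_comb, hom_zero, h1, mul_one]
    simp only [hom_zero, hPc, mul_zero]
    rfl
  refine ⟨E.card, Eᶜ.card, fun i => t (en i), u, fun i => q (en i), by simp,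
    ht.comp (Subtype.val_injective.comp en.injective), fun i => ht' _, ?_, fun s τ z hst => ?_⟩
  · refine linearIndependent_of_top_le_span_of_card_eq_finrank (fun z _ => ?_) (by
      simp only [Fintype.card_sum, Fintype.card_fin, Module.finrank_fin_fun]
      have := Finset.card_add_card_compl E
      rw [Fintype.card_fin] at this
      omega)
    set W := Submodule.span K (Set.range (Sum.elim u fun i => q (en i)))
    have hu : ∀ r : Fin (E.card + 1) → K, ∑ l, r l • u l ∈ W := fun r =>
      W.sum_mem fun l _ => W.smul_mem _ (Submodule.subset_span ⟨Sum.inl l, rfl⟩)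
    have h0 : (Pi.single 0 1 : Fin (D + 1) → K) ∈ W := by
      have := hu fun l => (0 : K) ^ (E.card - l) * 1 ^ (l : ℕ)
      rw [hν0] at this
      simpa [comb] using this
    have hj : ∀ j, q j ∈ W := fun j => by
      by_cases hj : j ∈ E
      · have := hu fun l => (1 : K) ^ (E.card - l) * (t j * 1) ^ (l : ℕ)
        rw [hν _ _ one_ne_zero, comb, hP0j j hj, Finset.sum_eq_single j] at this
        · simp only [mul_zero, zero_smul, zero_add, one_pow, one_mul] at this
          exact (W.smul_mem_iff (hPj j hj)).mp this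
        · intro l _ hl
          have h1 := hPe l (t j)
          rw [hP0j j hj, mul_zero, mul_eq_zero, sub_eq_zero] at h1
          rw [h1.resolve_left fun h => hl (ht h).symm]
          simp
        · simp
      · exact Submodule.subset_span ⟨Sum.inr (en.symm ⟨j, Finset.mem_compl.mpr hj⟩), by simp⟩
    obtain ⟨y0, y, rfl⟩ := exists_comb hli z
    exact W.add_mem (W.smul_mem _ h0) (W.sum_mem fun j _ => W.smul_mem _ (hj j))
  by_cases hs : s = 0
  · subst hs
    have hτ : τ ≠ 0 := hst.resolve_left (not_not.mpr rfl)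
    rw [hν0]
    constructor
    · intro h
      obtain ⟨y0, y, rfl⟩ := exists_comb hli z
      rw [comb_eqn hq hli hβ] at h
      refine ⟨y0 / τ ^ E.card, Or.inl ?_⟩
      rw [smul_comb, div_mul_cancel₀ _ (pow_ne_zero _ hτ)]
      congr 1
      funext j
      simpa [hτ] using h j
    · rintro ⟨c, rfl | ⟨i, y, hi, _⟩⟩
      · rw [smul_comb, comb_eqn hq hli hβ]
        simp
      · exact absurd (by simpa using hi) hτ
  obtain ⟨τ, rfl⟩ : ∃ τ', τ = τ' * s := ⟨τ / s, (div_mul_cancel₀ τ hs).symm⟩
  rw [hν _ _ hs]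
  have hse := pow_ne_zero E.card hs
  constructor
  · intro h
    obtain ⟨y0, y, rfl⟩ := exists_comb hli z
    rw [comb_eqn hq hli hβ] at h
    have h' : ∀ j, (τ - t j) * y j = β j * y0 := fun j =>
      mul_left_cancel₀ hs (by linear_combination h j)
    obtain ⟨c, hc0, hc⟩ : ∃ c, y0 = c * P0.eval τ ∧ ∀ j ∈ E, y j = c * (P j).eval τ := by
      by_cases hτ : ∃ j ∈ E, τ = t j
      · obtain ⟨j, hj, rfl⟩ := hτ
        have h0 : y0 = 0 := by
          have := h' j
          rw [sub_self, zero_mul] at this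
          exact (mul_eq_zero.mp this.symm).resolve_left ((hE j).mp hj)
        refine ⟨y j / (P j).eval (t j), by rw [hP0j j hj, mul_zero, h0], fun l _ => ?_⟩
        by_cases hl : l = j
        · rw [hl, div_mul_cancel₀ _ (hPj j hj)]
        · have h1 : t j - t l ≠ 0 := sub_ne_zero.mpr fun h => hl (ht h).symm
          refine mul_left_cancel₀ h1 ?_
          rw [h', mul_left_comm, hPe, hP0j j hj, h0]
          simp
      · push Not at hτ
        have h0 : P0.eval τ ≠ 0 := by
          simp only [P0, eval_prod]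
          exact Finset.prod_ne_zero_iff.mpr fun l hl => by simpa [sub_eq_zero] using hτ l hl
        refine ⟨y0 / P0.eval τ, (div_mul_cancel₀ _ h0).symm, fun l hl => ?_⟩
        refine mul_left_cancel₀ (sub_ne_zero.mpr (hτ l hl)) ?_
        rw [h', mul_left_comm, hPe]
        field_simp
    have hz : ∀ j, (j ∈ E ∨ τ ≠ t j) → y j = c * (P j).eval τ := fun j hj => by
      by_cases hj' : j ∈ E
      · exact hc j hj'
      · have hb := not_not.mp (mt (hE j).mpr hj')
        have := h' j
        rw [hb, zero_mul, mul_eq_zero, sub_eq_zero] at this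
        rw [this.resolve_left (hj.resolve_left hj')]
        simp [P, hb]
    have hcs : ∀ x : K, c / s ^ E.card * (s ^ E.card * x) = c * x := fun x => by field_simp
    refine ⟨c / s ^ E.card, ?_⟩
    by_cases hτ : ∃ j ∉ E, τ = t j
    · obtain ⟨j, hj, rfl⟩ := hτ
      refine Or.inr ⟨en.symm ⟨j, Finset.mem_compl.mpr hj⟩, y j - c * (P j).eval (t j), by simp, ?_⟩
      rw [smul_comb, comb_add_single]
      simp only [hcs, Equiv.apply_symm_apply, ← hc0]
      congr 1
      funext l
      split_ifs with hl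
      · rw [hl]
        ring
      · rw [add_zero]
        exact hz l (Or.inr fun h => hl (ht h).symm)
    · push Not at hτ
      refine Or.inl ?_
      rw [smul_comb]
      simp only [hcs, ← hc0]
      congr 1
      funext l
      exact hz l (or_iff_not_imp_left.mpr (hτ l))
  · rintro ⟨c, rfl | ⟨i, y, hi, rfl⟩⟩
    · rw [smul_comb, comb_eqn hq hli hβ]
      intro j
      linear_combination (c * s ^ E.card * s) * hPe j τ
    · rw [smul_comb, comb_add_single, comb_eqn hq hli hβ]
      intro j
      have h1 : τ = t (en i) := mul_right_cancel₀ hs hi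
      split_ifs with hj
      · rw [hj, ← h1]
        linear_combination (c * s ^ E.card * s) * hPe (en i) τ - (c * s ^ E.card * s *
          (P (en i)).eval τ) * h1
      · linear_combination (c * s ^ E.card * s) * hPe j τ

open MvPolynomial in
theorem mem_tails_iff {k : Type*} [Field k] {p : PrimeSpectrum (MvPolynomial (Var D N) k)} :
    p ∈ Tails k D N ↔ phi ((pencil X).map MvPolynomial.C)
      (X : Fin D → MvPolynomial (Fin D) (MvPolynomial (Var D N) k)) ∉
        p.asIdeal.map MvPolynomial.C := by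
  let K := AlgebraicClosure p.asIdeal.ResidueField
  let φ := algebraMap (MvPolynomial (Var D N) k) K
  have hφ : RingHom.ker φ = p.asIdeal := by
    ext F
    rw [RingHom.mem_ker, IsScalarTower.algebraMap_apply _ p.asIdeal.ResidueField K,
      map_eq_zero_iff _ (algebraMap p.asIdeal.ResidueField K).injective,
      Ideal.algebraMap_residueField_eq_zero]
  rw [← hφ, ← MvPolynomial.ker_map, RingHom.mem_ker]
  have h1 : ∀ c : Fin D → K, MvPolynomial.eval c (MvPolynomial.map φ
      (phi ((pencil X).map MvPolynomial.C) X)) = phi (pencil fun y => φ (X y)) c := by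
    intro c
    rw [phi_map, phi_map, Matrix.map_map, Matrix.map_map]
    congr 1
    · ext i j
      simp [pencil]
    · simp
  constructor
  · intro h h0
    obtain ⟨c, hc⟩ := (IsTail.eig h).exists_phi
    exact hc ((h1 c).symm.trans (by rw [h0, map_zero]))
  · intro h
    by_contra h2
    refine h (MvPolynomial.funext fun c => ?_)
    rw [h1, map_zero]
    by_contra h3
    exact h2 (eig_of_phi h3).isTail

theorem tails_of_le {k : Type*} [Field k] {p q : PrimeSpectrum (MvPolynomial (Var D N) k)}
    (h : p.asIdeal ≤ q.asIdeal) (hq : q ∈ Tails k D N) : p ∈ Tails k D N :=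
  mem_tails_iff.mpr fun h' => mem_tails_iff.mp hq (Ideal.map_mono h h')

open MvPolynomial in
theorem mem_tails_of_point {k : Type*} [Field k] {p : PrimeSpectrum (MvPolynomial (Var D N) k)}
    {x : Var D N → k} (hx : Eig (pencil x)) (h : ∀ F ∈ p.asIdeal, aeval x F = 0) :
    p ∈ Tails k D N := by
  rw [mem_tails_iff]
  intro h1
  obtain ⟨c, hc⟩ := hx.exists_phi
  let ψ : MvPolynomial (Fin D) (MvPolynomial (Var D N) k) →+* k :=
    eval₂Hom (aeval x : MvPolynomial (Var D N) k →ₐ[k] k).toRingHom c
  have h2 : p.asIdeal.map MvPolynomial.C ≤ RingHom.ker ψ :=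
    Ideal.map_le_iff_le_comap.mpr fun F hF => by simpa [ψ] using h F hF
  have h3 := h2 h1
  rw [RingHom.mem_ker, phi_map, Matrix.map_map] at h3
  apply hc
  rw [← h3]
  congr 1
  · ext i j
    simp [pencil, ψ]
  · simp [ψ]

end Pool.Agent.MP_52bf41_ag.H1
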