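import Pool.Agent.MP_52bf41_ag.H1.Defs
import Pool.Agent.MP_52bf41_ag.H1.Ht

/-! Lengths of localized quotients and orders of vanishing. -/

namespace Pool.Agent.MP_52bf41_ag.H1

variable {A : Type*} [CommRing A]

/-- The length of `A_p / I A_p`. -/
noncomputable def len (p : PrimeSpectrum A) (I : Ideal A) : ℕ∞ :=
  Order.coheight (I.map (algebraMap A (Localization.AtPrime p.asIdeal)))

theorem ordAt_eq (p q : PrimeSpectrum A) (f : A) :
    ordAt p q f = (len p (q.asIdeal ⊔ Ideal.span {f})).toNat := by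
  rw [ordAt, ordq, loc, len, Ring.ord, Module.length_quotient,
    ← Ideal.coheight_comap_of_surjective _ (Ideal.Quotient.mk_surjective
      (I := q.asIdeal.map (algebraMap A (Localization.AtPrime p.asIdeal))))]
  congr 2
  rw [← Set.image_singleton, ← Ideal.map_span, Ideal.comap_map_of_surjective _
    Ideal.Quotient.mk_surjective, ← RingHom.ker_eq_comap_bot, Ideal.mk_ker, Ideal.map_sup,
    Ideal.map_span, Set.image_singleton, sup_comm]

theorem coheight_add (J : Ideal A) (g : A) :
    Order.coheight J = Order.coheight (J ⊔ Ideal.span {g}) + Order.coheight (J.colon {g}) := by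
  rw [← Module.length_quotient, ← Module.length_quotient, ← Module.length_quotient, add_comm]
  refine Module.length_eq_add_of_exact
    (Submodule.mapQ (J.colon {g}) J (LinearMap.toSpanSingleton A A g) fun x hx => ?_)
    (Submodule.mapQ J (J ⊔ Ideal.span {g}) LinearMap.id fun x hx => Ideal.mem_sup_left hx)
    ?_ ?_ ?_
  · exact Submodule.mem_colon_singleton.mp hx
  · rw [← LinearMap.ker_eq_bot, eq_bot_iff]
    intro x hx
    obtain ⟨x, rfl⟩ := Submodule.Quotient.mk_surjective _ x
    rw [LinearMap.mem_ker, Submodule.mapQ_apply, Submodule.Quotient.mk_eq_zero] at hx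
    rw [Submodule.mem_bot, Submodule.Quotient.mk_eq_zero]
    exact Submodule.mem_colon_singleton.mpr hx
  · intro x
    obtain ⟨x, rfl⟩ := Submodule.Quotient.mk_surjective _ x
    exact ⟨Submodule.Quotient.mk x, rfl⟩
  · intro x
    obtain ⟨x, rfl⟩ := Submodule.Quotient.mk_surjective _ x
    rw [Submodule.mapQ_apply, Submodule.Quotient.mk_eq_zero, LinearMap.id_apply]
    constructor
    · intro hx
      obtain ⟨a, ha, b, hb, rfl⟩ := Submodule.mem_sup.mp hx
      obtain ⟨c, rfl⟩ := Ideal.mem_span_singleton'.mp hb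
      refine ⟨Submodule.Quotient.mk c, ?_⟩
      rw [Submodule.mapQ_apply, Submodule.Quotient.eq]
      simpa using ha
    · rintro ⟨c, hc⟩
      obtain ⟨c, rfl⟩ := Submodule.Quotient.mk_surjective _ c
      rw [Submodule.mapQ_apply, Submodule.Quotient.eq] at hc
      have : x = -((LinearMap.toSpanSingleton A A g) c - x) + c * g := by simp
      rw [this]
      exact Submodule.add_mem_sup (J.neg_mem hc) (Ideal.mem_span_singleton'.mpr ⟨c, rfl⟩)

theorem map_colon (M : Submonoid A) (B : Type*) [CommRing B] [Algebra A B] [IsLocalization M B]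
    (I : Ideal A) (g : A) :
    (I.colon {g}).map (algebraMap A B) = (I.map (algebraMap A B)).colon {algebraMap A B g} := by
  refine le_antisymm (Ideal.map_le_iff_le_comap.mpr fun x hx => ?_) fun z hz => ?_
  · rw [Ideal.mem_comap, Submodule.mem_colon_singleton, smul_eq_mul, ← map_mul]
    exact Ideal.mem_map_of_mem _ (Submodule.mem_colon_singleton.mp hx)
  · obtain ⟨⟨x, s⟩, rfl⟩ := IsLocalization.mk'_surjective M z
    rw [Submodule.mem_colon_singleton, smul_eq_mul, mul_comm, IsLocalization.mul_mk'_eq_mk'_of_mul,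
      IsLocalization.mk'_mem_map_algebraMap_iff M] at hz
    rw [IsLocalization.mk'_mem_map_algebraMap_iff M]
    obtain ⟨t, ht, h⟩ := hz
    refine ⟨t, ht, Submodule.mem_colon_singleton.mpr ?_⟩
    rw [smul_eq_mul, mul_assoc, mul_comm x g]
    exact h

theorem len_add (p : PrimeSpectrum A) (I : Ideal A) (g : A) :
    len p I = len p (I ⊔ Ideal.span {g}) + len p (I.colon {g}) := by
  rw [len, len, len, map_colon p.asIdeal.primeCompl, Ideal.map_sup, Ideal.map_span,
    Set.image_singleton]
  exact coheight_add _ _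

theorem len_eq_zero {p : PrimeSpectrum A} {I : Ideal A} (h : ¬I ≤ p.asIdeal) : len p I = 0 := by
  rw [len, IsLocalization.AtPrime.map_eq_top_of_not_le _ h, Order.coheight_top]

theorem len_ne_zero {p : PrimeSpectrum A} {I : Ideal A} (h : I ≤ p.asIdeal) : len p I ≠ 0 := by
  refine (Order.coheight_pos_of_lt_top (lt_of_le_of_lt (Ideal.map_mono h) ?_)).ne'
  rw [Localization.AtPrime.map_eq_maximalIdeal]
  exact (IsLocalRing.maximalIdeal.isMaximal _).ne_top.lt_top

theorem len_self (p : PrimeSpectrum A) : len p p.asIdeal = 1 := by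
  rw [len, Localization.AtPrime.map_eq_maximalIdeal, ← Module.length_quotient,
    Module.length_eq_one_iff, isSimpleModule_iff_isCoatom]
  exact (IsLocalRing.maximalIdeal.isMaximal _).out

theorem len_ne_top [IsNoetherianRing A] {p : PrimeSpectrum A} {I : Ideal A}
    (h : p.asIdeal.height ≤ I.height) : len p I ≠ ⊤ := by
  by_cases hle : I ≤ p.asIdeal
  · have hm := Ideal.mem_minimalPrimes_of_height_le hle h
    have h1 : IsLocalRing.maximalIdeal (Localization.AtPrime p.asIdeal) ∈
        (I.map (algebraMap A (Localization.AtPrime p.asIdeal))).minimalPrimes := by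
      rw [IsLocalization.minimalPrimes_map p.asIdeal.primeCompl, Set.mem_preimage]
      rw [Localization.AtPrime.under_maximalIdeal]
      exact hm
    have h2 := IsLocalRing.quotient_artinian_of_mem_minimalPrimes_of_isLocalRing _ h1
    have h3 : IsArtinian (Localization.AtPrime p.asIdeal) (Localization.AtPrime p.asIdeal ⧸
        I.map (algebraMap A (Localization.AtPrime p.asIdeal))) :=
      isArtinian_of_surjective_algebraMap (Ideal.Quotient.mk_surjective
        (I := I.map (algebraMap A (Localization.AtPrime p.asIdeal))))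
    rw [len, ← Module.length_quotient]
    exact Module.length_ne_top
  · rw [len_eq_zero hle]
    exact ENat.zero_ne_top

theorem ht_sup [IsNoetherianRing A] {q : Ideal A} [q.IsPrime] {f : A} (hf : f ∉ q) :
    q.height + 1 ≤ (q ⊔ Ideal.span {f}).height :=
  Order.add_one_le_of_lt (Ideal.height_strict_mono_of_isPrime
    (lt_of_le_of_ne le_sup_left fun h => hf
      (h ▸ Ideal.mem_sup_right (Ideal.mem_span_singleton_self f))))

theorem len_comap {A' : Type*} [CommRing A'] (e : A ≃+* A') (p : PrimeSpectrum A')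
    (I : Ideal A') : len (PrimeSpectrum.comap (e : A →+* A') p) (I.comap e) = len p I := by
  have H : Submonoid.map e.toMonoidHom
      (PrimeSpectrum.comap (e : A →+* A') p).asIdeal.primeCompl = p.asIdeal.primeCompl := by
    ext x
    constructor
    · rintro ⟨y, hy, rfl⟩
      exact hy
    · intro hx
      refine ⟨e.symm x, ?_, e.apply_symm_apply x⟩
      change ¬e (e.symm x) ∈ p.asIdeal
      rw [e.apply_symm_apply]
      exact hx
  let E : Localization.AtPrime (PrimeSpectrum.comap (e : A →+* A') p).asIdeal ≃+*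
      Localization.AtPrime p.asIdeal := IsLocalization.ringEquivOfRingEquiv _ _ e H
  rw [len, len, ← Ideal.coheight_comap_of_surjective E.toRingHom E.surjective]
  congr 1
  have h1 : I.map (algebraMap A' (Localization.AtPrime p.asIdeal)) =
      ((I.comap e).map (algebraMap A _)).map E.toRingHom := by
    conv_lhs => rw [← Ideal.map_comap_of_surjective (e : A →+* A') e.surjective I]
    rw [Ideal.map_map, Ideal.map_map]
    congr 1
    refine RingHom.ext fun a => ?_
    exact (IsLocalization.ringEquivOfRingEquiv_eq H a).symm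
  rw [h1, Ideal.comap_map_of_bijective E.toRingHom E.bijective]

theorem ordAt_comap {A' : Type*} [CommRing A'] (e : A ≃+* A') (p q : PrimeSpectrum A') (f : A) :
    ordAt (PrimeSpectrum.comap (e : A →+* A') p) (PrimeSpectrum.comap (e : A →+* A') q) f =
      ordAt p q (e f) := by
  rw [ordAt_eq, ordAt_eq, ← len_comap e]
  congr 2
  rw [← Ideal.map_symm, Ideal.map_sup, Ideal.map_span, Set.image_singleton, e.symm_apply_apply,
    Ideal.map_symm]
  rfl

theorem ordAt_congr {p q : PrimeSpectrum A} {f g : A} (h : f - g ∈ q.asIdeal) :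
    ordAt p q f = ordAt p q g := by
  rw [ordAt, ordAt, ordq, ordq]
  congr 2
  rw [Ideal.Quotient.eq, ← map_sub]
  exact Ideal.mem_map_of_mem _ h

theorem ordAt_eq_zero {p q : PrimeSpectrum A} {f : A} (h : ¬(q.asIdeal ≤ p.asIdeal ∧
    f ∈ p.asIdeal)) : ordAt p q f = 0 := by
  rw [ordAt_eq, len_eq_zero, ENat.toNat_zero]
  rwa [sup_le_iff, Ideal.span_singleton_le_iff_mem]

section Noeth

variable [IsNoetherianRing A] {p q : PrimeSpectrum A} {d : ℕ}

theorem len_sup_ne_top (hq : q.asIdeal.height + 1 = d) (hp : p.asIdeal.height = d) {f : A}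
    (hf : f ∉ q.asIdeal) : len p (q.asIdeal ⊔ Ideal.span {f}) ≠ ⊤ :=
  len_ne_top (hp ▸ hq ▸ ht_sup hf)

theorem ordAt_ne_zero (hq : q.asIdeal.height + 1 = d) (hp : p.asIdeal.height = d) {f : A}
    (hf : f ∉ q.asIdeal) (h : q.asIdeal ≤ p.asIdeal) (hf' : f ∈ p.asIdeal) : ordAt p q f ≠ 0 := by
  rw [ordAt_eq, Ne, ENat.toNat_eq_zero, not_or]
  exact ⟨len_ne_zero (sup_le h ((Ideal.span_singleton_le_iff_mem _).mpr hf')),
    len_sup_ne_top hq hp hf⟩

theorem ordAt_mul (hq : q.asIdeal.height + 1 = d) (hp : p.asIdeal.height = d) {f g : A}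
    (hf : f ∉ q.asIdeal) (hg : g ∉ q.asIdeal) :
    ordAt p q (f * g) = ordAt p q f + ordAt p q g := by
  rw [ordAt_eq, ordAt_eq, ordAt_eq, len_add p _ f,
    ← ENat.toNat_add (len_sup_ne_top hq hp hf) (len_sup_ne_top hq hp hg)]
  congr 3
  · rw [sup_assoc, sup_eq_right.mpr (Ideal.span_singleton_le_span_singleton.mpr (dvd_mul_right f g))]
  · ext x
    rw [Submodule.mem_colon_singleton, smul_eq_mul, sup_comm, sup_comm q.asIdeal,
      Ideal.mem_span_singleton_sup, Ideal.mem_span_singleton_sup]
    constructor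
    · rintro ⟨a, b, hb, h⟩
      refine ⟨a, x - a * g, ?_, by ring⟩
      refine (q.isPrime.mem_or_mem (x := x - a * g) (y := f) ?_).resolve_right hf
      have : (x - a * g) * f = b := by linear_combination -h
      rw [this]
      exact hb
    · rintro ⟨a, b, hb, rfl⟩
      exact ⟨a, b * f, q.asIdeal.mul_mem_right _ hb, by ring⟩

theorem ordAt_cross (hq : q.asIdeal.height + 1 = d) (hp : p.asIdeal.height = d) {f g f' g' : A}
    (hf : f ∉ q.asIdeal) (hg : g ∉ q.asIdeal) (hf' : f' ∉ q.asIdeal) (hg' : g' ∉ q.asIdeal)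
    (h : f' * g - f * g' ∈ q.asIdeal) :
    (ordAt p q f : ℚ) - ordAt p q g = (ordAt p q f' : ℚ) - ordAt p q g' := by
  have h1 := ordAt_congr (p := p) h
  rw [ordAt_mul hq hp hf' hg, ordAt_mul hq hp hf hg'] at h1
  have h2 : (ordAt p q f' : ℚ) + ordAt p q g = ordAt p q f + ordAt p q g' := by exact_mod_cast h1
  linarith

theorem finite_ordAt (hq : q.asIdeal.height + 1 = d) {f : A} (hf : f ∉ q.asIdeal) :
    {p : PrimeSpectrum A | p.asIdeal.height = d ∧ ordAt p q f ≠ 0}.Finite := by
  refine Set.Finite.of_finite_image (f := PrimeSpectrum.asIdeal) ?_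
    (fun _ _ _ _ h => PrimeSpectrum.ext h)
  refine (Ideal.finite_minimalPrimes_of_isNoetherianRing A
    (q.asIdeal ⊔ Ideal.span {f})).subset ?_
  rintro _ ⟨p, ⟨h1, h2⟩, rfl⟩
  refine Ideal.mem_minimalPrimes_of_height_le ?_ (h1 ▸ hq ▸ ht_sup hf)
  by_contra h
  rw [ordAt_eq, len_eq_zero h] at h2
  exact h2 rfl

end Noeth

end Pool.Agent.MP_52bf41_ag.H1
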