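import Pool.Agent.MP_52bf41_ag.H1.Coord
import Pool.Agent.MP_52bf41_ag.H1.Len
import Pool.Agent.MP_52bf41_ag.H1.Good

/-! Cycles in one Schubert piece are equivalent to cycles in smaller pieces. -/

namespace Pool.Agent.MP_52bf41_ag.H1

open MvPolynomial Finsupp

theorem exists_div {A : Type*} [CommRing A] [IsNoetherianRing A] {G : Set (A →+* A)}
    {U : Set (PrimeSpectrum A)} {d : ℕ} {q : PrimeSpectrum A} (hq : q.asIdeal.height + 1 = d)
    {f g : A} (hf : f ∉ q.asIdeal) (hg : g ∉ q.asIdeal) :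
    ∃ x : Cyc G U d →₀ ℚ, ∀ p, x p = (ordAt p.1 q f : ℚ) - (ordAt p.1 q g : ℚ) := by
  refine ⟨ofSupportFinite (fun p => (ordAt p.1 q f : ℚ) - (ordAt p.1 q g : ℚ)) ?_, fun _ => rfl⟩
  refine (((finite_ordAt hq hf).union (finite_ordAt hq hg)).preimage
    (Subtype.val_injective (p := fun p : PrimeSpectrum A => p ∈ U ∧ p.asIdeal.height = d ∧
      ∀ s ∈ G, ∀ f ∈ p.asIdeal, s f ∈ p.asIdeal)).injOn).subset fun p hp => ?_
  by_contra h
  simp only [Set.mem_preimage, Set.mem_union, Set.mem_setOf_eq, p.2.2.1, true_and, not_or,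
    not_not] at h
  exact hp (by simp [h.1, h.2])

theorem div_rule {A : Type*} [CommRing A] [IsNoetherianRing A] {G : Set (A →+* A)}
    {U : Set (PrimeSpectrum A)} {d e : ℕ} {L : Submodule ℚ (Cyc G U d →₀ ℚ)}
    (hL : Submodule.span ℚ {x | IsDiv G U d x} ≤ L) (q : Cyc G U e) (he : e + 1 = d) {f g : A}
    (hf : f ∉ q.1.asIdeal) (hg : g ∉ q.1.asIdeal) (hinv : ∀ s ∈ G, s f * g - f * s g ∈ q.1.asIdeal)
    (p : Cyc G U d) (hp : q.1.asIdeal ≤ p.1.asIdeal) (hfp : f ∈ p.1.asIdeal)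
    (hgp : g ∉ p.1.asIdeal)
    (h : ∀ p' : Cyc G U d, p' ≠ p → q.1.asIdeal ≤ p'.1.asIdeal →
      f ∈ p'.1.asIdeal ∨ g ∈ p'.1.asIdeal → single p' 1 ∈ L) : single p (1 : ℚ) ∈ L := by
  classical
  have hq : q.1.asIdeal.height + 1 = d := by
    rw [q.2.2.1, ← he]
    rfl
  obtain ⟨x, hx⟩ := exists_div (G := G) (U := U) hq hf hg
  have hxL : x ∈ L := hL (Submodule.subset_span ⟨e, q, f, g, he, hf, hg, hinv, hx⟩)
  have hxp : x p ≠ 0 := by
    rw [hx, ordAt_eq_zero (f := g) fun h => hgp h.2, Nat.cast_zero, sub_zero, Nat.cast_ne_zero]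
    exact ordAt_ne_zero hq p.2.2.1 hf hp hfp
  have h1 : x.erase p ∈ L := by
    rw [← sum_single (x.erase p)]
    refine L.sum_mem fun p' hp' => ?_
    rw [support_erase, Finset.mem_erase, Finsupp.mem_support_iff] at hp'
    rw [← smul_single_one]
    refine L.smul_mem _ ?_
    by_contra hn
    have h2 : ¬(q.1.asIdeal ≤ p'.1.asIdeal ∧ f ∈ p'.1.asIdeal) := fun h' =>
      hn (h p' hp'.1 h'.1 (Or.inl h'.2))
    have h3 : ¬(q.1.asIdeal ≤ p'.1.asIdeal ∧ g ∈ p'.1.asIdeal) := fun h' =>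
      hn (h p' hp'.1 h'.1 (Or.inr h'.2))
    exact hp'.2 (by rw [hx, ordAt_eq_zero h2, ordAt_eq_zero h3, sub_self])
  have h3 : x p • single p (1 : ℚ) ∈ L := by
    have : x p • single p (1 : ℚ) = x - x.erase p := by
      rw [smul_single_one, eq_sub_iff_add_eq, single_add_erase]
    rw [this]
    exact L.sub_mem hxL h1
  exact (L.smul_mem_iff hxp).mp h3

variable {D N : ℕ} {σ : Fin (D + 1) → Fin N}

section Point

theorem th_zero_col {R : Type*} [CommRing R] {x : Var D N → R} (hx : IsUnit (del σ x)) (b : Bool)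
    (r : Fin N) : th σ b x (Sum.inr r, 0) = x (Sum.inr r, 0) := by
  by_cases h : Fix σ (Sum.inr r, 0)
  · exact th_fix _ _ h
  · rw [th_not_fix _ _ h]
    exact act_zero_col (inP_mG hx b).symm.2 x r

theorem exists_perm_le {K : Type*} [Field K] {x : Var D N → K} (hx : IsUnit (del σ x))
    (hz : ∀ r a, a ≠ 0 → r < σ a → ¬Fix σ (Sum.inr r, a) → th σ true x (Sum.inr r, a) = 0)
    {σ' : Fin (D + 1) → Fin N} (h0 : σ' 0 = σ 0) (hd : (mM σ' x).det ≠ 0) :
    ∃ τ : Equiv.Perm (Fin (D + 1)), ∀ b, σ b ≤ σ' (τ b) := by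
  have h1 : (mM σ' (act (mG σ true x) (mG σ false x) x)).det ≠ 0 := by
    rw [mM_act, Matrix.det_mul]
    exact mul_ne_zero hd (Matrix.isUnit_det_of_left_inverse (inP_mG hx true).1).ne_zero
  rw [Matrix.det_apply] at h1
  obtain ⟨τ, -, hτ⟩ := Finset.exists_ne_zero_of_sum_ne_zero h1
  have h2 : ∀ b, act (mG σ true x) (mG σ false x) x (Sum.inr (σ' (τ b)), b) ≠ 0 := fun b =>
    Finset.prod_ne_zero_iff.mp (right_ne_zero_of_smul hτ) b (Finset.mem_univ b)
  have h3 : ∀ a b, b ≠ 0 → act (mG σ true x) (mG σ false x) x (Sum.inr (σ a), b) ≠ 0 → a = b := by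
    intro a b hb h
    rw [nf_fix hx, mN, Matrix.updateCol_ne hb] at h
    by_contra hab
    exact h (Matrix.one_apply_ne hab)
  refine ⟨τ, fun b => ?_⟩
  by_cases hb : b = 0
  · have h4 : τ.symm 0 = 0 := by
      by_contra h4
      have := h2 (τ.symm 0)
      rw [Equiv.apply_symm_apply, h0] at this
      exact h4 (h3 _ _ h4 this).symm
    rw [hb, (Equiv.symm_apply_eq τ).mp h4 |>.symm, h0]
  · by_cases hf : Fix σ (Sum.inr (σ' (τ b)), b)
    · obtain ⟨a, ha⟩ := hf
      have ha' : σ' (τ b) = σ a := Sum.inr_injective ha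
      have := h2 b
      rw [ha'] at this ⊢
      rw [h3 a b hb this]
    · by_contra hlt
      have := hz _ b hb (not_le.mp hlt) hf
      rw [th_not_fix _ _ hf] at this
      exact h2 b this

theorem det_update {K : Type*} [Field K] {x : Var D N → K} (hx : IsUnit (del σ x)) {r : Fin N}
    {a : Fin (D + 1)} (ha : a ≠ 0) (hf : ¬Fix σ (Sum.inr r, a)) :
    (mM (Function.update σ a r) x).det = th σ true x (Sum.inr r, a) * (mM σ x).det := by
  have h1 : th σ true x (Sum.inr r, a) = (sections x * (mM σ x)⁻¹) r a := by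
    rw [th_not_fix _ _ hf]
    change (sections x * ((mM σ x)⁻¹ * mN σ x)) r a = _
    rw [← Matrix.mul_assoc, Matrix.mul_apply]
    simp [mN, Matrix.updateCol_ne ha, Matrix.one_apply]
  rw [h1, ← smul_eq_mul, ← Matrix.det_updateRow_sum]
  congr 1
  ext b j
  rw [Matrix.updateRow_apply]
  split_ifs with hb
  · have h2 : (sections x * (mM σ x)⁻¹ * mM σ x) r j = sections x r j := by
      rw [Matrix.mul_assoc, Matrix.nonsing_inv_mul _ (unit_mM hx), Matrix.mul_one]
    rw [Matrix.mul_apply] at h2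
    simp [hb, mM, ← h2]
  · simp [mM, Function.update_of_ne hb]

end Point

variable {k : Type*} [Field k]

noncomputable abbrev vX (k : Type*) [Field k] (D : ℕ) (r : Fin N) : MvPolynomial (Var D N) k :=
  X (Sum.inr r, 0)

noncomputable abbrev mdet (k : Type*) [Field k] (σ : Fin (D + 1) → Fin N) :
    MvPolynomial (Var D N) k := (mM σ X).det

theorem aeval_mdet {R : Type*} [CommRing R] [Algebra k R] (x : Var D N → R) :
    aeval x (mdet k σ) = (mM σ x).det := by
  rw [AlgHom.map_det]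
  congr 1
  ext i j
  simp [mM, sections]

theorem mdet_perm {p : Ideal (MvPolynomial (Var D N) k)} (τ : Equiv.Perm (Fin (D + 1)))
    (h : mdet k σ ∈ p) : mdet k (σ ∘ τ) ∈ p := by
  have : mdet k (σ ∘ τ) = ((mM σ X).submatrix τ id).det := rfl
  rw [this, Matrix.det_permute]
  exact p.mul_mem_left _ h

abbrev Cy (k : Type*) [Field k] (D N d : ℕ) := Cyc (Grp k D N) (Tails k D N) d

noncomputable abbrev Rel (k : Type*) [Field k] (D N d : ℕ) : Submodule ℚ (Cy k D N d →₀ ℚ) :=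
  Submodule.span ℚ {x | IsDiv (Grp k D N) (Tails k D N) d x}

noncomputable abbrev slE (k : Type*) [Field k] (σ : Fin (D + 1) → Fin N) :=
  spl k (Sl σ) (Equiv.refl _)

theorem emb_slE (F : MvPolynomial (Sl σ) k) : emb (slE k σ) F = rename Subtype.val F :=
  spl_symm_C _ F

theorem emb_supported (F : MvPolynomial (Sl σ) k) : emb (slE k σ) F ∈ supported k (Sl σ) := by
  rw [emb_slE, supported_eq_range_rename]
  exact ⟨F, rfl⟩

noncomputable abbrev res (σ : Fin (D + 1) → Fin N) (p : PrimeSpectrum (MvPolynomial (Var D N) k)) :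
    Ideal (MvPolynomial (Sl σ) k) := (tw σ true p.asIdeal).comap (emb (slE k σ))

theorem ext_res [Infinite k] {d : ℕ} (p : Cy k D N d) (h : delX σ k ∉ p.1.asIdeal) :
    ext (slE k σ) (res σ p.1) = tw σ true p.1.asIdeal :=
  (tw_eq_ext _ (fun y hy => ⟨_, spl_X _ ⟨y, hy⟩⟩) p.2.2.2 h).symm

theorem ht_res [Infinite k] {d : ℕ} (p : Cy k D N d) (h : delX σ k ∉ p.1.asIdeal) :
    (res σ p.1).height = d := by
  rw [← ht_ext (slE k σ), ext_res p h, ht_tw h, p.2.2.1]

theorem tw_congr {p q : Ideal (MvPolynomial (Var D N) k)} [p.IsPrime] [q.IsPrime] (h : p = q)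
    (b : Bool) : tw σ b p = tw σ b q := by
  subst h
  rfl

theorem eq_tw_ext [Infinite k] {d : ℕ} (p : Cy k D N d) (h : delX σ k ∉ p.1.asIdeal) :
    p.1.asIdeal = tw σ false (ext (slE k σ) (res σ p.1)) :=
  (tw_tw h true).symm.trans (tw_congr (ext_res p h).symm _)

/-- The coordinates vanishing on the piece. -/
def Zs (σ : Fin (D + 1) → Fin N) : Set (Sl σ) := {y | ∃ r, y.1.1 = Sum.inr r ∧ r < σ y.1.2}

/-- Cycles of higher level. -/
def Low {d : ℕ} (σ : Fin (D + 1) → Fin N) (p : Cy k D N d) : Prop :=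
  (∀ r < σ 0, vX k D r ∈ p.1.asIdeal) ∧ (vX k D (σ 0) ∉ p.1.asIdeal →
    ∀ σ' : Fin (D + 1) → Fin N, σ' 0 = σ 0 → mdet k σ' ∉ p.1.asIdeal →
      ∑ a, (σ a : ℕ) < ∑ a, (σ' a : ℕ))

theorem step [Infinite k] {d e : ℕ} (he : e + 1 = d) {L : Submodule ℚ (Cy k D N d →₀ ℚ)}
    (hL : Rel k D N d ≤ L) (hlow : ∀ p, Low σ p → single p 1 ∈ L)
    {q : Ideal (MvPolynomial (Sl σ) k)} [q.IsPrime] (hq : q.height = e)
    {f : MvPolynomial (Sl σ) k} (hf : f ∉ q) {F : MvPolynomial (Var D N) k} {m : ℕ}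
    (hF : aeval (th σ true (xL σ k)) (emb (slE k σ) f) * algebraMap _ _ (delX σ k) ^ m =
      algebraMap _ _ F)
    (hz : ∀ y ∈ Zs σ, X y ∈ q ∨ (y.1.2 = 0 ∧ m = 0 ∧ F = X y.1))
    (p : Cy k D N d) (hp : delX σ k ∉ p.1.asIdeal) (hqp : q ≤ res σ p.1) (hfp : f ∈ res σ p.1)
    (h : ∀ p' : Cy k D N d, delX σ k ∉ p'.1.asIdeal → q ≤ res σ p'.1 → f ∈ res σ p'.1 →
      res σ p'.1 ≠ res σ p.1 → single p' 1 ∈ L) : single p (1 : ℚ) ∈ L := by
  have hle : ext (slE k σ) q ≤ tw σ true p.1.asIdeal := by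
    rw [ext_eq_map]
    exact Ideal.map_le_iff_le_comap.mpr hqp
  have hΔ : delX σ k ∉ ext (slE k σ) q := fun h => del_notMem_tw hp true (hle h)
  have hΔ' := del_notMem_tw hΔ false
  have hle' : tw σ false (ext (slE k σ) q) ≤ p.1.asIdeal :=
    (tw_mono hle (del_notMem_tw hp true) false).trans (tw_tw hp true).le
  have htw : tw σ true (tw σ false (ext (slE k σ) q)) = ext (slE k σ) q := tw_tw hΔ false
  let qC : Cy k D N e := ⟨⟨tw σ false (ext (slE k σ) q), inferInstance⟩, tails_of_le hle' p.2.1,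
    by rw [ht_tw hΔ, ht_ext, hq], inv_tw_ext _ emb_supported q hΔ⟩
  have hx := unit_gen hΔ'
  have hmem : ∀ (p' : Ideal (MvPolynomial (Var D N) k)) [p'.IsPrime], delX σ k ∉ p' →
      (F ∈ p' ↔ emb (slE k σ) f ∈ tw σ true p') := by
    intro p' _ h'
    rw [← aeval_gen, num_spec hF (unit_gen h'), ((unit_gen h').pow m).mul_left_eq_zero, mem_tw]
  refine div_rule hL qC he (f := F) (g := delX σ k ^ m) ?_ (fun h => hΔ' (Ideal.IsPrime.mem_of_pow_mem
    inferInstance m h)) ?_ p hle' ((hmem _ hp).mpr hfp)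
    (fun h => hp (p.1.isPrime.mem_of_pow_mem m h)) fun p' hne hle2 hor => ?_
  · change F ∉ tw σ false (ext (slE k σ) q)
    rw [hmem _ hΔ', htw, ← Ideal.mem_comap, comap_ext]
    exact hf
  · rintro s ⟨g, g', h1, h2, rfl⟩
    have hg := (show InP g g' from ⟨h1, h2⟩).map
      (algebraMap k (tw σ false (ext (slE k σ) q)).ResidueField)
    change _ ∈ tw σ false (ext (slE k σ) q)
    rw [← aeval_gen]
    simp only [RingHom.coe_coe, map_sub, map_mul, aeval_pull]
    rw [num_spec hF hx, num_spec hF (unit_act hg hx), map_pow, map_pow, aeval_delX, aeval_delX,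
      aeval_congr_supported (fun y hy => th_act hg hx hy) (emb_supported f)]
    ring
  by_cases hp' : delX σ k ∈ p'.1.asIdeal
  · refine hlow p' ⟨fun r hr => ?_, fun hv σ' h0 hd => ?_⟩
    · rcases hz ⟨(Sum.inr r, 0), Or.inr rfl⟩ ⟨r, rfl, hr⟩ with h1 | ⟨-, rfl, rfl⟩
      · refine hle2 ?_
        change _ ∈ tw σ false (ext (slE k σ) q)
        rw [mem_tw, aeval_X, th_zero_col (unit_gen hΔ), ← aeval_X (R := k) (gen _), aeval_gen]
        rw [← comap_ext (slE k σ) q, Ideal.mem_comap, emb_slE, rename_X] at h1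
        exact h1
      · exact hor.resolve_right fun h => p'.1.isPrime.ne_top ((Ideal.eq_top_iff_one _).mpr
          (by simpa using h))
    · obtain ⟨τ, hτ⟩ := exists_perm_le hx (fun r a ha hr hfx => by
        have h1 := (hz ⟨(Sum.inr r, a), Or.inl hfx⟩ ⟨r, rfl, hr⟩).resolve_right fun h => ha h.1
        rw [← comap_ext (slE k σ) q, Ideal.mem_comap, emb_slE, rename_X, ← htw, mem_tw,
          aeval_X] at h1
        exact h1) h0 (by
          rw [← aeval_mdet (k := k), Ne, aeval_gen]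
          exact fun h => hd (hle2 h))
      rw [← Equiv.sum_comp τ fun a => (σ' a : ℕ)]
      refine Finset.sum_lt_sum (fun b _ => hτ b) ?_
      by_contra hcon
      push Not at hcon
      have h1 : σ' = σ ∘ (τ⁻¹ : Equiv.Perm _) := by
        funext b
        have := le_antisymm (hτ (τ⁻¹ b)) (hcon _ (Finset.mem_univ _))
        simpa using this.symm
      refine hd (h1 ▸ mdet_perm _ ?_)
      exact (p'.1.isPrime.mem_or_mem hp').resolve_left hv
  · refine h p' hp' ?_ ((hmem _ hp').mp (hor.resolve_right fun h =>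
      hp' (p'.1.isPrime.mem_of_pow_mem m h))) fun h => hne ?_
    · rw [← Ideal.map_le_iff_le_comap, ← ext_eq_map, ← htw]
      exact tw_mono hle2 hp' true
    · refine Subtype.ext (PrimeSpectrum.ext ?_)
      rw [eq_tw_ext p' hp', eq_tw_ext p hp]
      exact tw_congr (by rw [h]) _

theorem piece [Infinite k] {d : ℕ} {L : Submodule ℚ (Cy k D N d →₀ ℚ)}
    (hL : Rel k D N d ≤ L) (hlow : ∀ p, Low σ p → single p 1 ∈ L)
    (hgen : (∀ r, ¬r < σ 0) → (cs k (Zs σ)).height = d → ∀ p : Cy k D N d,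
      p.1.asIdeal = tw σ false (ext (slE k σ) (cs k (Zs σ))) → single p 1 ∈ L)
    (p : Cy k D N d) (h1 : ∀ r < σ 0, vX k D r ∈ p.1.asIdeal) (h2 : delX σ k ∉ p.1.asIdeal)
    (h3 : ∀ σ' : Fin (D + 1) → Fin N, σ' 0 = σ 0 → mdet k σ' ∉ p.1.asIdeal →
      ∑ a, (σ a : ℕ) ≤ ∑ a, (σ' a : ℕ)) : single p (1 : ℚ) ∈ L := by
  classical
  refine cell_mv (Z := Zs σ) (d := d) (P := fun r => ∀ p : Cy k D N d,
    delX σ k ∉ p.1.asIdeal → res σ p.1 = r → single p (1 : ℚ) ∈ L) ?_ ?_ (res σ p.1)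
    inferInstance (cs_le ?_) (ht_res p h2) p h2 rfl
  · rintro q _ hq - hc hqd - hle f hfq hfr hP p hp rfl
    obtain ⟨m, F, hF⟩ := exists_num σ true (emb (slE k σ) f)
    obtain ⟨e, he⟩ := ENat.ne_top_iff_exists.mp (Ideal.height_ne_top_of_isPrime (I := q))
    exact step (e := e) (by rw [← he] at hqd; exact_mod_cast hqd) hL hlow he.symm hfq hF
      (fun y hy => Or.inl (hc (X_mem_cs.mpr hy))) p hp hle hfr fun p' hp' h1 h2 h3 =>
        hP _ inferInstance (ht_res p' hp') h1 h2 h3 p' hp' rfl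
  · intro hd p hp hr
    by_cases h0 : ∀ r, ¬r < σ 0
    · exact hgen h0 hd p ((eq_tw_ext p hp).trans (tw_congr (by rw [hr]) _))
    push Not at h0
    obtain ⟨r, hr0⟩ := h0
    let y : Sl σ := ⟨(Sum.inr r, 0), Or.inr rfl⟩
    have hy : y ∈ (Zs σ).toFinset := Set.mem_toFinset.mpr ⟨r, rfl, hr0⟩
    have hd' := ht_cs (k := k) (Zs σ).toFinset
    rw [Set.coe_toFinset, hd] at hd'
    refine step (e := ((Zs σ).toFinset.erase y).card) (m := 0) (F := X y.1) (f := X y) ?_ hL hlow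
      (ht_cs _) ?_ ?_ (fun z hz => ?_) p hp ?_ ?_ fun p' hp' h1 h2 h3 => absurd ?_ h3
    · rw [Finset.card_erase_add_one hy]
      exact_mod_cast hd'.symm
    · simp [X_mem_cs]
    · rw [emb_slE, rename_X, aeval_X, pow_zero, mul_one]
      exact th_zero_col unit_xL true r
    · by_cases hzy : z = y
      · exact Or.inr ⟨by rw [hzy], rfl, by rw [hzy]⟩
      · exact Or.inl (X_mem_cs.mpr (by simp [hzy, hz]))
    · rw [hr]
      exact cs_mono (by simp)
    · rw [hr]
      exact X_mem_cs.mpr (Set.mem_toFinset.mp hy)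
    · rw [hr]
      refine (eq_of_ht (cs_le fun z hz => ?_) hd (ht_res p' hp')).symm
      by_cases hzy : z = y
      · exact hzy ▸ h2
      · exact h1 (X_mem_cs.mpr (by simp [hzy, hz]))
  · rintro ⟨⟨_, a⟩, hy⟩ ⟨r, rfl, hr⟩
    rw [Ideal.mem_comap, emb_slE, rename_X, mem_tw, aeval_X]
    by_cases ha : a = 0
    · subst ha
      rw [th_zero_col (unit_gen h2), ← aeval_X (R := k) (gen _), aeval_gen]
      exact h1 r hr
    · have hf : ¬Fix σ (Sum.inr r, a) := hy.resolve_right ha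
      by_contra hne
      have h4 := h3 (Function.update σ a r) (Function.update_of_ne (Ne.symm ha) _ _) (by
        rw [← aeval_gen, aeval_mdet, det_update (unit_gen h2) ha hf]
        exact mul_ne_zero hne (unit_mM (unit_gen h2)).ne_zero)
      refine absurd h4 (not_le.mpr (Finset.sum_lt_sum (fun b _ => ?_) ⟨a, Finset.mem_univ a, ?_⟩))
      · by_cases hb : b = a
        · rw [hb, Function.update_self]
          exact le_of_lt hr
        · rw [Function.update_of_ne hb]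
      · rw [Function.update_self]
        exact hr

end Pool.Agent.MP_52bf41_ag.H1
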