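import Pool.Agent.MP_52bf41_ag.H1.Kap2
import Pool.Agent.MP_52bf41_ag.H1.Piece

/-! Equivariant multiplicities give linear functionals on the Chow group. -/

namespace Pool.Agent.MP_52bf41_ag.H1

open MvPolynomial Finsupp

section Cls

variable {B : Type*} [CommRing B] [Algebra ℚ B]

noncomputable def ex (a : B) : PowerSeries B := PowerSeries.rescale a (PowerSeries.exp B)

theorem isChar_ex {Γ : Type*} [AddCommGroup Γ] (l : Γ →+ B) : IsChar fun γ => ex (l γ) :=
  ⟨by simp [ex], fun a b => by
    simp only [ex, map_add, PowerSeries.exp_mul_exp_eq_exp_add]⟩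

theorem constantCoeff_ex (a : B) : PowerSeries.constantCoeff (ex a) = 1 := by
  rw [← PowerSeries.coeff_zero_eq_constantCoeff_apply, ex, PowerSeries.coeff_rescale]
  simp

theorem map_ex {B' : Type*} [CommRing B'] [Algebra ℚ B'] (φ : B →+* B') (a : B) :
    PowerSeries.map φ (ex a) = ex (φ a) := by
  ext n
  simp [ex, PowerSeries.coeff_rescale]

variable {σ k : Type*} [Field k] [Fintype σ]

/-- The degree `d` part of the equivariant class. -/
noncomputable def cls (d : ℕ) (l : σ → B) (I : Ideal (MvPolynomial σ k)) : B :=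
  PowerSeries.coeff d (kap (fun y => ex (l y)) Finset.univ I)

theorem X_pow_dvd_kap (l : ℤ →+ B) {w : σ → ℤ} {I : Ideal (MvPolynomial σ k)} (hI : Gr w I)
    {n : ℕ} (h : (n : ℕ∞) ≤ I.height) :
    PowerSeries.X ^ n ∣ kap (fun y => ex (l (w y))) Finset.univ I := by
  have := kap_mem_pow_ht (isChar_ex l) (a := Ideal.span {PowerSeries.X}) (fun y => by
    rw [Ideal.mem_span_singleton, PowerSeries.X_dvd_iff, map_sub, constantCoeff_ex]
    simp) hI h
  rwa [Ideal.span_singleton_pow, Ideal.mem_span_singleton] at this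

theorem exists_cycle (l : ℤ →+ B) {w : σ → ℤ} {d : ℕ} {I : Ideal (MvPolynomial σ k)}
    (hI : Gr w I) : (d : ℕ∞) ≤ I.height → ∃ x : PrimeSpectrum (MvPolynomial σ k) →₀ ℚ,
      (∀ p : PrimeSpectrum (MvPolynomial σ k), p.asIdeal.height = d →
        ((len p I).toNat : ℚ) = x p) ∧
      (∀ p ∈ x.support, p.asIdeal.height = d ∧ Gr w p.asIdeal) ∧
      cls d (fun y => l (w y)) I =
        linearCombination ℚ (fun p => cls d (fun y => l (w y)) p.asIdeal) x := by
  classical
  refine pfi w (Q := fun I => (d : ℕ∞) ≤ I.height → ∃ x : PrimeSpectrum (MvPolynomial σ k) →₀ ℚ,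
      (∀ p : PrimeSpectrum (MvPolynomial σ k), p.asIdeal.height = d →
        ((len p I).toNat : ℚ) = x p) ∧
      (∀ p ∈ x.support, p.asIdeal.height = d ∧ Gr w p.asIdeal) ∧
      cls d (fun y => l (w y)) I =
        linearCombination ℚ (fun p => cls d (fun y => l (w y)) p.asIdeal) x) (fun _ => ?_) ?_ I hI
  · refine ⟨0, fun p _ => ?_, by simp, by simp [cls, kap_top]⟩
    rw [len_eq_zero fun h => p.isPrime.ne_top (top_le_iff.mp h)]
    simp
  intro I g γ hI hg hgI hp hQ hd
  have hle : I ≤ I.colon {g} := fun f hf =>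
    Submodule.mem_colon_singleton.mpr (I.mul_mem_right _ hf)
  have hd1 := hd.trans (Ideal.height_mono (le_sup_left (b := Ideal.span {g})))
  have hd2 := hd.trans (Ideal.height_mono hle)
  obtain ⟨x, h1, h2, h3⟩ := hQ hd1
  have h4 : cls d (fun y => l (w y)) I = cls d (fun y => l (w y)) (I ⊔ Ideal.span {g}) +
      cls d (fun y => l (w y)) (I.colon {g}) := by
    rw [cls, kap_add (isChar_ex l) hI (fun y hy => absurd (Finset.mem_univ y) hy) hg
      fun h => hgI (h ▸ I.zero_mem), map_add, cls, cls]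
    obtain ⟨c, hc⟩ := X_pow_dvd_kap l (hI.colon hg) hd2
    rw [hc, mul_left_comm]
    simp only [PowerSeries.coeff_X_pow_mul', le_refl, if_true, Nat.sub_self,
      PowerSeries.coeff_zero_eq_constantCoeff, map_mul, constantCoeff_ex, one_mul]
  have h5 : ∀ p : PrimeSpectrum (MvPolynomial σ k), p.asIdeal.height = d →
      ((len p I).toNat : ℚ) = x p + (len p (I.colon {g})).toNat := by
    intro p hpd
    rw [len_add p I g, ENat.toNat_add (len_ne_top (hpd ▸ hd1)) (len_ne_top (hpd ▸ hd2)),
      Nat.cast_add, h1 p hpd]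
  by_cases hpd : (I.colon {g}).height = d
  · refine ⟨x + single ⟨_, hp⟩ 1, fun p hp' => ?_, fun p hp' => ?_, ?_⟩
    · rw [h5 p hp', Finsupp.add_apply, single_apply]
      split_ifs with h
      · rw [← h, len_self ⟨_, hp⟩]
        simp
      · rw [len_eq_zero fun h' => h (PrimeSpectrum.ext (eq_of_ht h' hpd hp'))]
        simp
    · rcases Finset.mem_union.mp (support_add hp') with h | h
      · exact h2 p h
      · rw [Finset.mem_singleton.mp (support_single_subset h)]
        exact ⟨hpd, hI.colon hg⟩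
    · rw [h4, h3, map_add, linearCombination_single, one_smul]
  · refine ⟨x, fun p hp' => ?_, h2, ?_⟩
    · rw [h5 p hp', len_eq_zero fun h' => hpd (le_antisymm (hp' ▸ Ideal.height_mono h') hd2)]
      simp
    · have h6 : ((d + 1 : ℕ) : ℕ∞) ≤ (I.colon {g}).height :=
        Order.add_one_le_of_lt (lt_of_le_of_ne hd2 (Ne.symm hpd))
      rw [h4, h3, cls, PowerSeries.X_pow_dvd_iff.mp (X_pow_dvd_kap l (hI.colon hg) h6) d
        (Nat.lt_succ_self d), add_zero]

theorem kap_sup_prime {Λ Γ : Type*} [CommRing Λ] [AddCommGroup Γ] {e : Γ → Λ} (he : IsChar e)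
    {w : σ → Γ} {q : Ideal (MvPolynomial σ k)} [hq : q.IsPrime] (hI : Gr w q)
    {g : MvPolynomial σ k} {γ : Γ} (hg : IsWeightedHomogeneous w g γ) (hgq : g ∉ q) :
    kap (fun y => e (w y)) Finset.univ (q ⊔ Ideal.span {g}) =
      (1 - e γ) * kap (fun y => e (w y)) Finset.univ q := by
  have h1 := kap_add he hI (fun y hy => absurd (Finset.mem_univ y) hy) hg
    fun h => hgq (h ▸ q.zero_mem)
  have h4 : q.colon {g} = q := by
    ext f
    rw [Submodule.mem_colon_singleton, smul_eq_mul]
    exact ⟨fun h => (hq.mem_or_mem h).resolve_right hgq, fun h => q.mul_mem_right _ h⟩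
  rw [h4] at h1
  linear_combination -h1

end Cls

section Torus

variable {σ k : Type*} [Field k]

theorem eq_of_zpow [Infinite k] {m n : ℤ} (h : ∀ t : kˣ, t ^ m = t ^ n) : m = n := by
  by_contra hne
  have h1 : (m - n).natAbs ≠ 0 := by omega
  refine Polynomial.X_pow_sub_C_ne_zero (Nat.pos_of_ne_zero h1) (1 : k)
    (Polynomial.eq_zero_of_infinite_isRoot _ ((Set.finite_singleton (0 : k)).infinite_compl.mono
      fun t ht => ?_))
  have h2 : Units.mk0 t ht ^ (m - n).natAbs = 1 := by
    rw [pow_natAbs_eq_one, zpow_sub, h, mul_inv_cancel]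
  have := congrArg Units.val h2
  simpa [sub_eq_zero] using this

theorem mem_of_forall_unit [Infinite k] {A : Type*} [CommRing A] [Algebra k A] {I : Ideal A}
    {S : Finset ℤ} {a : ℤ → A} (h : ∀ t : kˣ, ∑ γ ∈ S, ((t ^ γ : kˣ) : k) • a γ ∈ I) :
    ∀ γ ∈ S, a γ ∈ I := by
  intro γ hγ
  rw [← Ideal.Quotient.eq_zero_iff_mem, ← Module.forall_dual_apply_eq_zero_iff k]
  intro φ
  have hli := (linearIndependent_monoidHom kˣ k).comp
    (fun γ : ℤ => (Units.coeHom k).comp (zpowGroupHom γ)) fun m n hmn =>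
      eq_of_zpow fun t => Units.ext (DFunLike.congr_fun hmn t)
  refine linearIndependent_iff'.mp hli S (fun γ => φ (Ideal.Quotient.mk I (a γ))) ?_ γ hγ
  funext t
  have := congrArg φ (Ideal.Quotient.eq_zero_iff_mem.mpr (h t))
  rw [← Ideal.Quotient.mkₐ_eq_mk k, map_sum, map_sum, map_zero] at this
  simpa [mul_comm] using this

theorem scale_eq [Fintype σ] (w : σ → ℤ) (t : kˣ) (F : MvPolynomial σ k) {S : Finset ℤ}
    (hS : ∀ μ ∈ F.support, weight w μ ∈ S) :
    aeval (fun y => (C ((t ^ w y : kˣ) : k) * X y : MvPolynomial σ k)) F =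
      ∑ γ ∈ S, ((t ^ γ : kˣ) : k) • weightedHomogeneousComponent w γ F := by
  classical
  have h1 : ∀ μ c, aeval (fun y => (C ((t ^ w y : kˣ) : k) * X y : MvPolynomial σ k))
      (monomial μ c) = ((t ^ weight w μ : kˣ) : k) • monomial μ c := by
    intro μ c
    have he : IsChar fun γ : ℤ => ((t ^ γ : kˣ) : k) := ⟨by simp, fun a b => by simp [zpow_add]⟩
    rw [aeval_monomial, monomial_eq, ← he.weight, Finsupp.prod_fintype _ _ (by simp),
      Finsupp.prod_fintype _ _ (by simp), smul_eq_C_mul]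
    simp only [mul_pow, Finset.prod_mul_distrib, map_prod, map_pow, algebraMap_eq]
    ring
  conv_lhs => rw [F.as_sum]
  conv_rhs => enter [2, γ]; rw [F.as_sum]
  simp only [map_sum, h1, Finset.smul_sum]
  rw [Finset.sum_comm]
  refine Finset.sum_congr rfl fun μ hμ => ?_
  simp only [weightedHomogeneousComponent_of_mem (isWeightedHomogeneous_monomial w μ _ rfl),
    smul_ite, smul_zero, Finset.sum_ite_eq', hS μ hμ, if_true]

variable {D N : ℕ}

/-- Weights of a one-parameter subgroup of the diagonal torus. -/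
def wT (a : Fin D → ℤ) : Var D N → ℤ := fun y =>
  y.1.elim a (fun _ => 0) - (Fin.cons 0 a : Fin (D + 1) → ℤ) y.2

theorem scale_mem (a : Fin D → ℤ) (t : kˣ) :
    ((aeval fun y => (C ((t ^ wT a y : kˣ) : k) * X y : MvPolynomial (Var D N) k) :
      MvPolynomial (Var D N) k →ₐ[k] MvPolynomial (Var D N) k) :
        MvPolynomial (Var D N) k →+* MvPolynomial (Var D N) k) ∈ Grp k D N := by
  refine ⟨Matrix.diagonal fun j => ((t ^ (Fin.cons 0 a : Fin (D + 1) → ℤ) j : kˣ) : k),
    Matrix.diagonal fun j => ((t ^ (-(Fin.cons 0 a : Fin (D + 1) → ℤ) j) : kˣ) : k), ?_,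
    fun i => ?_, ?_⟩
  · rw [Matrix.diagonal_mul_diagonal, ← Matrix.diagonal_one]
    congr 1
    funext j
    rw [← Units.val_mul, ← zpow_add, add_neg_cancel, zpow_zero, Units.val_one]
  · rw [Matrix.diagonal_apply, Matrix.one_apply]
    split_ifs with h <;> simp [h]
  · congr 2
    rw [Matrix.diagonal_map C_0, Matrix.diagonal_map C_0]
    funext ⟨r, j⟩
    rcases r with i | r
    · simp only [act, wT, Sum.elim_inl, Matrix.submatrix_diagonal _ _ (Fin.succ_injective D),
        Matrix.mul_diagonal, Matrix.diagonal_mul, pencil, Matrix.of_apply, Function.comp_apply,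
        Fin.cons_succ, sub_eq_add_neg, zpow_add, Units.val_mul, map_mul]
      ring
    · simp only [act, wT, Sum.elim_inr, Matrix.mul_diagonal, sections, Matrix.of_apply, zero_sub]
      ring

theorem Inv.gr [Infinite k] {I : Ideal (MvPolynomial (Var D N) k)} (hI : Inv I) (a : Fin D → ℤ) :
    Gr (wT a) I := by
  classical
  intro γ F hF
  refine mem_of_forall_unit (k := k) (S := insert γ (F.support.image (weight (wT a))))
    (a := fun γ => weightedHomogeneousComponent (wT a) γ F) (fun t => ?_) γ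
    (Finset.mem_insert_self _ _)
  rw [← scale_eq _ _ _ fun μ hμ => Finset.mem_insert_of_mem (Finset.mem_image_of_mem _ hμ)]
  exact hI _ (scale_mem a t) F hF

theorem exists_equiv {s} (hs : s ∈ Grp k D N) :
    ∃ E : MvPolynomial (Var D N) k ≃+* MvPolynomial (Var D N) k,
      (E : MvPolynomial (Var D N) k →+* MvPolynomial (Var D N) k) = s ∧
      (E.symm : MvPolynomial (Var D N) k →+* MvPolynomial (Var D N) k) ∈ Grp k D N := by
  obtain ⟨g, g', h1, h2, rfl⟩ := hs
  have h : InP g g' := ⟨h1, h2⟩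
  have key : ∀ g g' : Sq D k, InP g g' → ∀ F : MvPolynomial (Var D N) k,
      (aeval (act (g.map C) (g'.map C) X)
        (aeval (act (g'.map C) (g.map C) X) F : MvPolynomial (Var D N) k) :
          MvPolynomial (Var D N) k) = F := fun g g' h F => by
    rw [aeval_pull, algebraMap_eq, (h.map C).act_act, aeval_X_left_apply]
  exact ⟨RingEquiv.ofRingHom
    ((aeval (act (g.map C) (g'.map C) X) :
      MvPolynomial (Var D N) k →ₐ[k] MvPolynomial (Var D N) k) :
        MvPolynomial (Var D N) k →+* MvPolynomial (Var D N) k)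
    ((aeval (act (g'.map C) (g.map C) X) :
      MvPolynomial (Var D N) k →ₐ[k] MvPolynomial (Var D N) k) :
        MvPolynomial (Var D N) k →+* MvPolynomial (Var D N) k) (RingHom.ext (key g g' h))
    (RingHom.ext (key g' g h.symm)), rfl, g', g, h.symm.1, h.symm.2, rfl⟩

theorem exists_test [Infinite k] (D N : ℕ) : ∃ x : Var D N → k, Eig (pencil x) ∧
    (∀ a y, x y = 0 ∨ wT a y = 0) ∧ ∀ r j, x (Sum.inr r, j) = 0 := by
  have hinf : (({0, 1} : Set k)ᶜ).Infinite := (Set.toFinite _).infinite_compl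
  let c : Fin D → k := fun j => hinf.natEmbedding _ j
  refine ⟨fun y => y.1.elim (fun i => if y.2 = i.succ then c i else 0) fun _ => 0,
    ⟨c, fun j => Pi.single j.succ 1, fun i j hij =>
      Fin.ext ((hinf.natEmbedding _).injective (Subtype.ext hij)), fun j => ?_, fun j i => ?_, ?_⟩,
    ?_, fun _ _ => rfl⟩
  · have : c j ∈ ({0, 1} : Set k)ᶜ := (hinf.natEmbedding _ j).2
    simpa [not_or] using this
  · by_cases h : i = j
    · simp [pencil, h]
    · simp [pencil, h, Ne.symm h]
  · convert Pi.linearIndependent_single_one (Fin D) k using 1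
    funext j i
    simp [Fin.tail, Pi.single_apply]
  · rintro a ⟨i | r, j⟩
    · by_cases h : j = i.succ
      · exact Or.inr (by simp [wT, h])
      · exact Or.inl (if_neg h)
    · exact Or.inl rfl

end Torus

end Pool.Agent.MP_52bf41_ag.H1
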