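import Pool.Agent.MP_52bf41_ag.H1.Ser

/-! K-polynomials at `t = 1` of homogenized ideals. -/

namespace Pool.Agent.MP_52bf41_ag.H1

open MvPolynomial Finsupp

section Val

variable {Λ : Type*} [CommRing Λ]

/-- The power series is a polynomial with value `a` at `1`. -/
def HasVal (f : PowerSeries Λ) (a : Λ) : Prop :=
  ∃ P : Polynomial Λ, (P : PowerSeries Λ) = f ∧ P.eval 1 = a

open Classical in
noncomputable def val (f : PowerSeries Λ) : Λ := if h : ∃ a, HasVal f a then h.choose else 0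

theorem HasVal.unique {f : PowerSeries Λ} {a b : Λ} (ha : HasVal f a) (hb : HasVal f b) :
    a = b := by
  obtain ⟨P, rfl, rfl⟩ := ha
  obtain ⟨Q, h, rfl⟩ := hb
  rw [Polynomial.coe_injective Λ h]

theorem HasVal.val_eq {f : PowerSeries Λ} {a : Λ} (ha : HasVal f a) : val f = a := by
  have h : ∃ a, HasVal f a := ⟨a, ha⟩
  rw [val, dif_pos h]
  exact h.choose_spec.unique ha

theorem HasVal.add {f g : PowerSeries Λ} {a b : Λ} (ha : HasVal f a) (hb : HasVal g b) :
    HasVal (f + g) (a + b) := by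
  obtain ⟨P, rfl, rfl⟩ := ha
  obtain ⟨Q, rfl, rfl⟩ := hb
  exact ⟨P + Q, by simp, by simp⟩

theorem HasVal.sub {f g : PowerSeries Λ} {a b : Λ} (ha : HasVal f a) (hb : HasVal g b) :
    HasVal (f - g) (a - b) := by
  obtain ⟨P, rfl, rfl⟩ := ha
  obtain ⟨Q, rfl, rfl⟩ := hb
  exact ⟨P - Q, by simp, by simp⟩

theorem HasVal.mul {f g : PowerSeries Λ} {a b : Λ} (ha : HasVal f a) (hb : HasVal g b) :
    HasVal (f * g) (a * b) := by
  obtain ⟨P, rfl, rfl⟩ := ha
  obtain ⟨Q, rfl, rfl⟩ := hb
  exact ⟨P * Q, by simp, by simp⟩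

theorem hasVal_X_pow (n : ℕ) : HasVal (PowerSeries.X ^ n : PowerSeries Λ) 1 :=
  ⟨Polynomial.X ^ n, by simp, by simp⟩

theorem hasVal_C (a : Λ) : HasVal (PowerSeries.C a) a := ⟨Polynomial.C a, by simp, by simp⟩

theorem hasVal_one_sub (a : Λ) : HasVal (1 - PowerSeries.C a * PowerSeries.X) (1 - a) :=
  ⟨1 - Polynomial.C a * Polynomial.X, by simp, by simp⟩

theorem HasVal.map {Λ' : Type*} [CommRing Λ'] (φ : Λ →+* Λ') {f : PowerSeries Λ} {a : Λ}
    (ha : HasVal f a) : HasVal (PowerSeries.map φ f) (φ a) := by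
  obtain ⟨P, rfl, rfl⟩ := ha
  exact ⟨P.map φ, by ext; simp, by simp⟩

end Val

variable {σ k : Type*} [Field k] [Fintype σ] {Λ : Type*} [CommRing Λ]
  {Γ : Type*} [AddCommGroup Γ]

def oc {α : Type*} (a : α) (χ : σ → α) : Option σ → α := fun o => o.elim a χ

theorem oc_char {e : Γ → Λ} (he : IsChar e) (w : σ → Γ) :
    oc 1 (fun y => e (w y)) = fun o => e (oc 0 w o) := by
  funext o
  cases o
  · exact he.zero.symm
  · rfl

noncomputable def kser (χ : σ → Λ) (T : Finset σ) (I J : Ideal (MvPolynomial (Option σ) k)) :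
    PowerSeries Λ :=
  (1 - PowerSeries.X) * (∏ y ∈ T, (1 - PowerSeries.C (χ y) * PowerSeries.X)) *
    (ser (oc 1 χ) I - ser (oc 1 χ) J)

noncomputable def ell (p : σ → k) (y : σ) : MvPolynomial (Option σ) k :=
  X (Option.some y) - C (p y) * X none

theorem ell_homog {w : σ → Γ} {p : σ → k} (hp : ∀ y, p y = 0 ∨ w y = 0) (y : σ) :
    IsWeightedHomogeneous (dw (oc 0 w)) (ell p y) (((1 : ℕ) : ℤ), w y) := by
  refine (isWeightedHomogeneous_X k (dw (oc 0 w)) (Option.some y)).sub ?_
  rcases hp y with h | h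
  · rw [h, C_0, zero_mul]
    exact isWeightedHomogeneous_zero _ _ _
  · change IsWeightedHomogeneous _ _ (1, w y)
    rw [h]
    exact (isWeightedHomogeneous_X k (dw (oc 0 w)) none).C_mul _

theorem ell_ne_zero (p : σ → k) (y : σ) : ell p y ≠ 0 := by
  intro h
  have := congrArg (eval (oc 0 fun _ => (1 : k))) h
  simp [ell, oc] at this

theorem reduce_monomial {p : σ → k} {I J : Ideal (MvPolynomial (Option σ) k)}
    (h : ∀ y, ∀ f ∈ I, ell p y * f ∈ J) (μ : Option σ →₀ ℕ) (c : k) {f} (hf : f ∈ I) :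
    (monomial μ c - C (eval (oc 1 p) (monomial μ c)) * X none ^ (∑ i, μ i)) * f ∈ J := by
  let ev : MvPolynomial (Option σ) k →ₐ[k] MvPolynomial (Option σ) k :=
    aeval fun o => C (oc 1 p o) * X none
  have h1 : ∀ a : MvPolynomial (Option σ) k, ∀ f ∈ I, (a - ev a) * f ∈ J := by
    intro a
    induction a using MvPolynomial.induction_on with
    | C a => intro f _; simp [ev]
    | add a b ha hb =>
      intro f hf
      have := J.add_mem (ha f hf) (hb f hf)
      rwa [← add_mul, sub_add_sub_comm, ← map_add] at this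
    | mul_X a o ha =>
      intro f hf
      have h2 : (X o - ev (X o)) * f ∈ J := by
        cases o
        · simp [ev, oc]
        · simpa [ev, oc, ell] using h _ f hf
      have := J.add_mem (J.mul_mem_left (X o) (ha f hf)) (J.mul_mem_left (ev a) h2)
      convert this using 1
      rw [map_mul]
      ring
  have h2 : ev (monomial μ c) = C (eval (oc 1 p) (monomial μ c)) * X none ^ (∑ i, μ i) := by
    rw [aeval_monomial, eval_monomial, Finsupp.prod_fintype _ _ (by simp),
      Finsupp.prod_fintype _ _ (by simp)]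
    simp only [mul_pow, Finset.prod_mul_distrib, Finset.prod_pow_eq_pow_sum, map_mul, map_prod,
      map_pow, algebraMap_eq, mul_assoc]
  rw [← h2]
  exact h1 _ f hf

theorem base_poly {w : σ → Γ} (χ : Option σ → Λ) {p : σ → k}
    {I J : Ideal (MvPolynomial (Option σ) k)} (hI : Gr (dw (oc 0 w)) I) (hle : J ≤ I)
    (h : ∀ y, ∀ f ∈ I, ell p y * f ∈ J) {n : ℕ} (hn : ∀ f ∈ I, X none ^ n * f ∈ J) :
    ∃ a, HasVal (ser χ I - ser χ J) a := by
  obtain ⟨P, hP⟩ := exists_poly χ hI hle (n := n) fun μ hμ f hf => by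
    obtain ⟨m, hm⟩ := Nat.exists_eq_add_of_le hμ
    have := J.add_mem (reduce_monomial h μ 1 hf)
      (J.mul_mem_left (C (eval (oc 1 p) (monomial μ 1)) * X none ^ m) (hn f hf))
    convert this using 1
    rw [hm]
    ring
  exact ⟨_, P, hP, rfl⟩

theorem ser_one_sub {e : Γ → Λ} (he : IsChar e) {w : Option σ → Γ}
    {I J : Ideal (MvPolynomial (Option σ) k)} (hJ : Gr (dw w) J) (hI : Gr (dw w) I)
    {g : MvPolynomial (Option σ) k} {δ : Γ}
    (hg : IsWeightedHomogeneous (dw w) g (((1 : ℕ) : ℤ), δ)) (hg0 : g ≠ 0) :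
    (1 - PowerSeries.C (e δ) * PowerSeries.X) *
      (ser (fun i => e (w i)) I - ser (fun i => e (w i)) J) =
    (ser (fun i => e (w i)) I - ser (fun i => e (w i)) (J ⊔ Ideal.span {g} * I)) -
      PowerSeries.X ^ 1 * (PowerSeries.C (e δ) *
        (ser (fun i => e (w i)) (I ⊓ J.colon {g}) - ser (fun i => e (w i)) J)) := by
  linear_combination ser_add he hJ hI hg hg0

theorem main_lemma {e : Γ → Λ} (he : IsChar e) {w : σ → Γ} {p : σ → k}
    (hp : ∀ y, p y = 0 ∨ w y = 0) (T : Finset σ) :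
    ∀ I J : Ideal (MvPolynomial (Option σ) k), Gr (dw (oc 0 w)) I → Gr (dw (oc 0 w)) J → J ≤ I →
      (∀ y ∉ T, ∀ f ∈ I, ell p y * f ∈ J) →
      ∃ a, HasVal (kser (fun y => e (w y)) T I J) a ∧ ∀ (F : MvPolynomial (Option σ) k) (n : ℕ),
        (∀ μ ∈ F.support, ∑ i, μ i = n) → eval (oc 1 p) F ≠ 0 → (∀ f ∈ I, F * f ∈ J) → a = 0 := by
  classical
  have hsub : ∀ {I J : Ideal (MvPolynomial (Option σ) k)} (g : MvPolynomial (Option σ) k),
      J ≤ I → J ⊔ Ideal.span {g} * I ≤ I ∧ J ≤ I ⊓ J.colon {g} := fun g hle =>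
    ⟨sup_le hle Ideal.mul_le_right, le_inf hle fun f hf =>
      Submodule.mem_colon_singleton.mpr (Ideal.mul_mem_right _ _ hf)⟩
  have hmul : ∀ {I J : Ideal (MvPolynomial (Option σ) k)} (g : MvPolynomial (Option σ) k),
      (∀ f ∈ I, g * f ∈ J ⊔ Ideal.span {g} * I) ∧ ∀ f ∈ I ⊓ J.colon {g}, g * f ∈ J := fun g =>
    ⟨fun f hf => mem_sup_mul.mpr ⟨0, Ideal.zero_mem _, f, hf, zero_add _⟩, fun f hf => by
      rw [mul_comm]
      exact Submodule.mem_colon_singleton.mp hf.2⟩
  induction T using Finset.induction_on with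
  | empty =>
    intro I J hI hJ hle h
    have hu : IsWeightedHomogeneous (dw (oc 0 w)) (X none : MvPolynomial (Option σ) k)
        (((1 : ℕ) : ℤ), 0) := isWeightedHomogeneous_X k (dw (oc 0 w)) none
    have h1 := ser_one_sub he hJ hI hu (X_ne_zero _)
    rw [he.zero, map_one, one_mul, ← oc_char he] at h1
    have h' := fun y => h y (Finset.notMem_empty y)
    obtain ⟨a, ha⟩ := base_poly (oc 1 fun y => e (w y)) hI (hsub (X none) hle).1
      (fun y f hf => Ideal.mem_sup_left (h' y f hf)) (n := 1) (by simpa using (hmul _).1)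
    obtain ⟨b, hb⟩ := base_poly (oc 1 fun y => e (w y)) (hI.inf (hJ.colon hu)) (hsub (X none) hle).2
      (fun y f hf => h' y f hf.1) (n := 1) (by simpa only [pow_one] using (hmul _).2)
    have h2 := ha.sub ((hasVal_X_pow 1).mul hb)
    rw [← one_mul (_ - ser _ J), ← h1] at h2
    refine ⟨_, by simpa only [kser, Finset.prod_empty, mul_one] using h2, fun F n h3 h4 h5 => ?_⟩
    obtain ⟨c, hc⟩ := base_poly (oc 1 fun y => e (w y)) hI hle h' (n := n) fun f hf => by
      have h6 : (F - C (eval (oc 1 p) F) * X none ^ n) * f ∈ J := by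
        conv => enter [2, 1]; rw [F.as_sum]
        rw [map_sum, map_sum, Finset.sum_mul, ← Finset.sum_sub_distrib, Finset.sum_mul]
        exact J.sum_mem fun μ hμ => h3 μ hμ ▸ reduce_monomial h' μ _ hf
      have h7 := J.mul_mem_left (C (eval (oc 1 p) F)⁻¹) (J.sub_mem (h5 f hf) h6)
      convert h7 using 1
      have : C (eval (oc 1 p) F)⁻¹ * C (eval (oc 1 p) F) = (1 : MvPolynomial (Option σ) k) := by
        rw [← map_mul, inv_mul_cancel₀ h4, map_one]
      linear_combination (-(X none ^ n * f)) * this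
    have h8 := (hasVal_one_sub 1).mul hc
    rw [map_one, one_mul, sub_self, zero_mul] at h8
    exact h2.unique h8
  | insert y T hy ih =>
    intro I J hI hJ hle h
    have hl := ell_homog hp y
    have h1 := ser_one_sub he hJ hI hl (ell_ne_zero p y)
    rw [← oc_char he] at h1
    have h' : ∀ z ∉ T, z = y ∨ ∀ f ∈ I, ell p z * f ∈ J := fun z hz =>
      or_iff_not_imp_left.mpr fun hzy => h z (by simp [hz, hzy])
    obtain ⟨a, ha, ha'⟩ := ih I _ hI (hJ.sup_mul hI hl) (hsub _ hle).1 fun z hz f hf => by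
      rcases h' z hz with rfl | h2
      · exact (hmul _).1 f hf
      · exact Ideal.mem_sup_left (h2 f hf)
    obtain ⟨b, hb, hb'⟩ := ih _ J (hI.inf (hJ.colon hl)) hJ (hsub _ hle).2 fun z hz f hf => by
      rcases h' z hz with rfl | h2
      · exact (hmul _).2 f hf
      · exact h2 f hf.1
    refine ⟨a - 1 * (e (w y) * b), ?_, fun F n h3 h4 h5 => ?_⟩
    · convert ha.sub ((hasVal_X_pow 1).mul ((hasVal_C _).mul hb)) using 1
      simp only [kser, Finset.prod_insert hy]
      linear_combination ((1 - PowerSeries.X) *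
        ∏ y ∈ T, (1 - PowerSeries.C (e (w y)) * PowerSeries.X)) * h1
    · rw [ha' F n h3 h4 fun f hf => Ideal.mem_sup_left (h5 f hf),
        hb' F n h3 h4 fun f hf => h5 f hf.1]
      simp

/-- Dehomogenization. -/
noncomputable def eps : MvPolynomial (Option σ) k →ₐ[k] MvPolynomial σ k := aeval (oc 1 X)

/-- Homogenization in degree `n`. -/
noncomputable def hom (n : ℕ) : MvPolynomial σ k →ₗ[k] MvPolynomial (Option σ) k :=
  (basisMonomials σ k).constr k fun μ => monomial (μ.optionElim (n - ∑ i, μ i)) 1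

theorem eps_monomial (ν : Option σ →₀ ℕ) (c : k) : eps (monomial ν c) = monomial ν.some c := by
  rw [eps, aeval_monomial, Finsupp.prod_fintype _ _ (by simp), monomial_eq,
    Finsupp.prod_fintype _ _ (by simp), Fintype.prod_option]
  simp [oc]

theorem hom_monomial (n : ℕ) (μ : σ →₀ ℕ) (c : k) :
    hom n (monomial μ c) = monomial (μ.optionElim (n - ∑ i, μ i)) c := by
  have := (basisMonomials σ k).constr_basis k
    (fun μ => (monomial (μ.optionElim (n - ∑ i, μ i)) 1 : MvPolynomial (Option σ) k)) μ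
  rw [coe_basisMonomials] at this
  rw [← mul_one c, ← smul_eq_mul, ← smul_monomial, ← smul_monomial, map_smul]
  exact congrArg _ this

theorem eps_hom (n : ℕ) (g : MvPolynomial σ k) : eps (hom n g) = g := by
  induction g using MvPolynomial.induction_on' with
  | monomial μ c => rw [hom_monomial, eps_monomial, some_optionElim]
  | add p q hp hq => rw [map_add, map_add, hp, hq]

theorem hom_eps {n : ℕ} {F : MvPolynomial (Option σ) k} (h : ∀ μ ∈ F.support, ∑ i, μ i = n) :
    hom n (eps F) = F := by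
  conv_lhs => rw [F.as_sum]
  conv_rhs => rw [F.as_sum]
  rw [map_sum, map_sum]
  refine Finset.sum_congr rfl fun μ hμ => ?_
  rw [eps_monomial, hom_monomial, ← h μ hμ, Fintype.sum_option]
  simp

theorem weight_oc (w : σ → Γ) (ν : Option σ →₀ ℕ) : weight (oc 0 w) ν = weight w ν.some := by
  rw [weight_eq_sum, weight_eq_sum, Fintype.sum_option]
  simp [oc]

theorem hom_homog {w : σ → Γ} {g : MvPolynomial σ k} {γ : Γ} (hg : IsWeightedHomogeneous w g γ)
    {n : ℕ} (hn : g.totalDegree ≤ n) : IsWeightedHomogeneous (dw (oc 0 w)) (hom n g) (n, γ) := by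
  rw [g.as_sum, map_sum]
  refine IsWeightedHomogeneous.sum _ _ _ fun μ hμ => ?_
  rw [hom_monomial]
  refine isWeightedHomogeneous_monomial _ _ _ ?_
  have h1 := (le_totalDegree hμ).trans hn
  rw [Finsupp.sum_fintype _ _ fun _ => rfl] at h1
  rw [weight_dw, weight_oc, some_optionElim, hg (MvPolynomial.mem_support_iff.mp hμ),
    Fintype.sum_option]
  simp [Nat.sub_add_cancel h1]

theorem weight_one {τ : Type*} [Fintype τ] (μ : τ →₀ ℕ) :
    weight (fun _ => (1 : ℤ)) μ = ((∑ i, μ i : ℕ) : ℤ) := by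
  rw [weight_eq_sum]
  simp

theorem homog_fst {τ : Type*} [Fintype τ] {w : τ → Γ} {F : MvPolynomial τ k} {γ : ℤ × Γ}
    (h : IsWeightedHomogeneous (dw w) F γ) : IsWeightedHomogeneous (fun _ => (1 : ℤ)) F γ.1 :=
  fun μ hμ => by rw [← h hμ, weight_dw, weight_one]

theorem deg_of_homog {τ : Type*} [Fintype τ] {F : MvPolynomial τ k} {n : ℕ}
    (h : IsWeightedHomogeneous (fun _ => (1 : ℤ)) F n) : ∀ μ ∈ F.support, ∑ i, μ i = n :=
  fun μ hμ => by
    have := h (MvPolynomial.mem_support_iff.mp hμ)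
    rw [weight_one] at this
    exact_mod_cast this

theorem hom_homog_one (g : MvPolynomial σ k) {n : ℕ} (hn : g.totalDegree ≤ n) :
    IsWeightedHomogeneous (fun _ => (1 : ℤ)) (hom n g) n :=
  homog_fst (hom_homog (w := fun _ => (0 : ℤ)) (γ := 0) (fun μ _ => by simp [weight_eq_sum]) hn)

theorem eps_comp (w : σ → Γ) (γ : ℤ × Γ) (F : MvPolynomial (Option σ) k) :
    eps (weightedHomogeneousComponent (dw (oc 0 w)) γ F) = weightedHomogeneousComponent w γ.2
      (eps (weightedHomogeneousComponent (fun _ => (1 : ℤ)) γ.1 F)) := by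
  classical
  induction F using MvPolynomial.induction_on' with
  | monomial μ c =>
    rw [weightedHomogeneousComponent_of_mem (isWeightedHomogeneous_monomial _ μ c rfl),
      weightedHomogeneousComponent_of_mem (isWeightedHomogeneous_monomial _ μ c rfl), weight_dw,
      weight_one, weight_oc]
    by_cases h1 : γ.1 = ((∑ i, μ i : ℕ) : ℤ)
    · rw [if_pos h1, eps_monomial,
        weightedHomogeneousComponent_of_mem (isWeightedHomogeneous_monomial _ _ c rfl)]
      simp only [Prod.ext_iff, h1, true_and]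
      split_ifs
      · exact eps_monomial _ _
      · exact map_zero _
    · rw [if_neg h1, if_neg fun h => h1 (by rw [h]), map_zero, map_zero]
  | add p q hp hq => simp only [map_add, hp, hq]

/-- The homogenization of an ideal. -/
noncomputable def hid (I : Ideal (MvPolynomial σ k)) : Ideal (MvPolynomial (Option σ) k) where
  carrier := {F | ∀ n, eps (weightedHomogeneousComponent (fun _ => (1 : ℤ)) n F) ∈ I}
  add_mem' ha hb n := by
    rw [map_add, map_add]
    exact I.add_mem (ha n) (hb n)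
  zero_mem' n := by simp
  smul_mem' a F hF n := by
    rw [smul_eq_mul]
    induction a using MvPolynomial.induction_on' with
    | monomial μ c =>
      rw [comp_mul (isWeightedHomogeneous_monomial _ μ c rfl), map_mul]
      exact I.mul_mem_left _ (hF _)
    | add p q hp hq =>
      rw [add_mul, map_add, map_add]
      exact I.add_mem hp hq

theorem mem_hid {I : Ideal (MvPolynomial σ k)} {F : MvPolynomial (Option σ) k} {n : ℤ}
    (h : IsWeightedHomogeneous (fun _ => (1 : ℤ)) F n) : F ∈ hid I ↔ eps F ∈ I := by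
  refine ⟨fun h' => h.weightedHomogeneousComponent_same ▸ h' n, fun h' m => ?_⟩
  rw [weightedHomogeneousComponent_of_mem h]
  split_ifs
  · exact h'
  · simp

theorem Gr.hid {w : σ → Γ} {I : Ideal (MvPolynomial σ k)} (hI : Gr w I) :
    Gr (dw (oc 0 w)) (hid I) := fun γ F hF => by
  rw [mem_hid (homog_fst (weightedHomogeneousComponent_isWeightedHomogeneous γ F)), eps_comp]
  exact hI _ _ (hF _)

theorem hid_mono {I J : Ideal (MvPolynomial σ k)} (h : I ≤ J) : hid I ≤ hid J :=
  fun _ hF n => h (hF n)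

theorem X_mem_hid {I : Ideal (MvPolynomial σ k)} {y : σ} (h : X y ∈ I) :
    X (Option.some y) ∈ hid I :=
  (mem_hid (isWeightedHomogeneous_X k (fun _ => (1 : ℤ)) _)).mpr (by simpa [eps, oc] using h)

theorem hid_colon {I : Ideal (MvPolynomial σ k)} {G : MvPolynomial (Option σ) k} {n : ℤ}
    (h : IsWeightedHomogeneous (fun _ => (1 : ℤ)) G n) :
    ⊤ ⊓ (hid I).colon {G} = hid (I.colon {eps G}) := by
  ext F
  rw [top_inf_eq, Submodule.mem_colon_singleton, smul_eq_mul, mul_comm]
  refine ⟨fun h' m => ?_, fun h' m => ?_⟩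
  · have := h' (m + n)
    rw [comp_mul h, add_sub_cancel_right, map_mul, mul_comm] at this
    exact Submodule.mem_colon_singleton.mpr this
  · rw [comp_mul h, map_mul, mul_comm]
    exact Submodule.mem_colon_singleton.mp (h' _)

theorem hid_sat {I : Ideal (MvPolynomial σ k)} {G : MvPolynomial (Option σ) k} {n : ℕ}
    (h : IsWeightedHomogeneous (fun _ => (1 : ℤ)) G n) :
    ∃ m, ∀ F ∈ hid (I ⊔ Ideal.span {eps G}), X none ^ m * F ∈ hid I ⊔ Ideal.span {G} * ⊤ := by
  classical
  set J := hid I ⊔ Ideal.span {G} * ⊤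
  have hadd : ∀ {F F' : MvPolynomial (Option σ) k} {m m' : ℕ}, X none ^ m * F ∈ J →
      X none ^ m' * F' ∈ J → X none ^ (m + m') * (F + F') ∈ J := by
    intro F F' m m' h1 h2
    convert J.add_mem (J.mul_mem_left (X none ^ m') h1) (J.mul_mem_left (X none ^ m) h2) using 1
    ring
  have h1 : ∀ F ∈ hid (I ⊔ Ideal.span {eps G}), ∃ m, X none ^ m * F ∈ J := by
    intro F hF
    rw [← sum_weightedHomogeneousComponent (fun _ => (1 : ℤ)) F, finsum_eq_sum _
      (weightedHomogeneousComponent_finsupp F)]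
    refine Finset.sum_induction _ (fun F => ∃ m, X none ^ m * F ∈ J)
      (fun _ _ ⟨_, h1⟩ ⟨_, h2⟩ => ⟨_, hadd h1 h2⟩) ⟨0, by simp⟩ fun j hj => ?_
    have hc := weightedHomogeneousComponent_isWeightedHomogeneous (w := fun _ => (1 : ℤ)) j F
    obtain ⟨j, rfl⟩ : ∃ j' : ℕ, j = j' := by
      obtain ⟨μ, hμ⟩ := support_nonempty.mpr ((Set.Finite.mem_toFinset _).mp hj)
      exact ⟨_, (hc (MvPolynomial.mem_support_iff.mp hμ)).symm.trans (weight_one μ)⟩
    have h2 := hF j
    rw [sup_comm, Ideal.mem_span_singleton_sup] at h2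
    obtain ⟨b, a, ha, hab⟩ := h2
    let m := a.totalDegree + b.totalDegree + n
    have hu := (isWeightedHomogeneous_X k (fun _ => (1 : ℤ)) (none : Option σ)).pow m
    have h3 := hom_homog_one a (n := m + j) (by omega)
    have h4 := h.mul (hom_homog_one b (n := m + j - n) (by omega))
    have h5 : ((n : ℤ) + (m + j - n : ℕ)) = (m + j : ℕ) := by omega
    rw [h5] at h4
    have h6 := hu.mul hc
    have h7 : m • (1 : ℤ) + j = (m + j : ℕ) := by simp
    rw [h7] at h6
    refine ⟨m, ?_⟩
    rw [← hom_eps (deg_of_homog h6), map_mul, ← hab]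
    have h8 : eps (X none ^ m : MvPolynomial (Option σ) k) * (b * eps G + a) =
        eps (hom (m + j) a + G * hom (m + j - n) b) := by
      have : eps (X none : MvPolynomial (Option σ) k) = 1 := by simp [eps, oc]
      rw [map_add, map_mul, eps_hom, eps_hom, map_pow, this]
      ring
    rw [h8, hom_eps (deg_of_homog (h3.add h4))]
    exact mem_sup_mul.mpr ⟨_, (mem_hid h3).mpr (by rwa [eps_hom]), _, trivial, rfl⟩
  obtain ⟨s, hs⟩ := (isNoetherianRing_iff_ideal_fg _).mp inferInstance
    (hid (I ⊔ Ideal.span {eps G}))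
  choose! m hm using h1
  refine ⟨s.sup m, fun F hF => ?_⟩
  rw [← hs] at hF
  induction hF using Submodule.span_induction with
  | mem g hg =>
    obtain ⟨c, hc⟩ := Nat.exists_eq_add_of_le (Finset.le_sup (f := m) hg)
    rw [hc, add_comm, pow_add, mul_assoc]
    exact J.mul_mem_left _ (hm g (hs ▸ Ideal.subset_span hg))
  | zero => simp
  | add x y _ _ hx hy =>
    rw [mul_add]
    exact J.add_mem hx hy
  | smul a x _ hx =>
    rw [smul_eq_mul, mul_left_comm]
    exact J.mul_mem_left _ hx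

end Pool.Agent.MP_52bf41_ag.H1
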