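import Pool.Agent.MP_52bf41_ag.H1.Kap
import Pool.Agent.MP_52bf41_ag.H1.Len

/-! The equivariant K-class of an ideal: additivity, vanishing, order, symmetry. -/

namespace Pool.Agent.MP_52bf41_ag.H1

open MvPolynomial Finsupp

variable {σ k : Type*} [Field k] [Fintype σ] {Λ : Type*} [CommRing Λ]
  {Γ : Type*} [AddCommGroup Γ]

noncomputable def kap (χ : σ → Λ) (T : Finset σ) (I : Ideal (MvPolynomial σ k)) : Λ :=
  val (kser χ T ⊤ (hid I))

theorem Gr.sup_span {w : σ → Γ} {I : Ideal (MvPolynomial σ k)} (hI : Gr w I)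
    {g : MvPolynomial σ k} {γ : Γ} (hg : IsWeightedHomogeneous w g γ) :
    Gr w (I ⊔ Ideal.span {g}) := by
  simpa using hI.sup_mul (Gr.top w) hg

variable {e : Γ → Λ} (he : IsChar e) {w : σ → Γ}
include he

theorem main_zero {T : Finset σ} {I J : Ideal (MvPolynomial (Option σ) k)}
    (hI : Gr (dw (oc 0 w)) I) (hJ : Gr (dw (oc 0 w)) J) (hle : J ≤ I)
    (h : ∀ y ∉ T, X (Option.some y) ∈ J) :
    ∃ a, HasVal (kser (fun y => e (w y)) T I J) a ∧
      ∀ n, (∀ f ∈ I, X none ^ n * f ∈ J) → a = 0 := by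
  obtain ⟨a, ha, ha'⟩ := main_lemma he (p := fun _ => (0 : k)) (fun _ => Or.inl rfl) T I J hI hJ
    hle fun y hy f _ => by simpa [ell] using J.mul_mem_right f (h y hy)
  refine ⟨a, ha, fun n hn => ha' _ n (deg_of_homog ?_) (by simp [oc]) hn⟩
  simpa using (isWeightedHomogeneous_X k (fun _ => (1 : ℤ)) (none : Option σ)).pow n

theorem kap_spec {T : Finset σ} {I : Ideal (MvPolynomial σ k)} (hI : Gr w I)
    (h : ∀ y ∉ T, X y ∈ I) :
    HasVal (kser (fun y => e (w y)) T ⊤ (hid I)) (kap (fun y => e (w y)) T I) := by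
  obtain ⟨a, ha, -⟩ := main_zero he (Gr.top _) hI.hid le_top fun y hy => X_mem_hid (h y hy)
  rw [kap, ha.val_eq]
  exact ha

theorem kap_sat {T : Finset σ} {I : Ideal (MvPolynomial σ k)} (hI : Gr w I)
    {G : MvPolynomial (Option σ) k} {n : ℕ} {γ : Γ}
    (hG : IsWeightedHomogeneous (dw (oc 0 w)) G (n, γ)) (hg : IsWeightedHomogeneous w (eps G) γ)
    (h : ∀ y ∉ T, X y ∈ I ∨ G = X (Option.some y)) :
    HasVal (kser (fun y => e (w y)) T ⊤ (hid I ⊔ Ideal.span {G} * ⊤))
      (kap (fun y => e (w y)) T (I ⊔ Ideal.span {eps G})) := by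
  have hG' : G ∈ hid I ⊔ Ideal.span {G} * ⊤ :=
    mem_sup_mul.mpr ⟨0, Ideal.zero_mem _, 1, trivial, by simp⟩
  obtain ⟨a, ha, ha'⟩ := main_zero he (T := T) (hI.sup_span hg).hid
    (hI.hid.sup_mul (Gr.top _) hG) (sup_le (hid_mono le_sup_left) (by
      rw [Ideal.mul_top, Ideal.span_singleton_le_iff_mem, mem_hid (homog_fst hG)]
      exact Ideal.mem_sup_right (Ideal.mem_span_singleton_self _))) fun y hy => by
    rcases h y hy with h | h
    · exact Ideal.mem_sup_left (X_mem_hid h)
    · exact h ▸ hG'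
  obtain ⟨m, hm⟩ := hid_sat (I := I) (homog_fst hG)
  rw [ha' m hm] at ha
  have h1 := (kap_spec he (T := T) (hI.sup_span hg) fun y hy => by
    rcases h y hy with h | h
    · exact Ideal.mem_sup_left h
    · refine Ideal.mem_sup_right ?_
      rw [h]
      simp [eps, oc]).add ha
  rw [add_zero] at h1
  convert h1 using 1
  simp only [kser]
  ring

theorem kap_add {T : Finset σ} {I : Ideal (MvPolynomial σ k)} (hI : Gr w I)
    (h : ∀ y ∉ T, X y ∈ I) {g : MvPolynomial σ k} {γ : Γ} (hg : IsWeightedHomogeneous w g γ)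
    (hg0 : g ≠ 0) : kap (fun y => e (w y)) T I = kap (fun y => e (w y)) T (I ⊔ Ideal.span {g}) +
      e γ * kap (fun y => e (w y)) T (I.colon {g}) := by
  have hG := hom_homog hg le_rfl
  have h1 := kap_sat he (T := T) hI hG (by rwa [eps_hom]) fun y hy => Or.inl (h y hy)
  have h2 := kap_spec he (T := T) (hI.colon hg) fun y hy =>
    Submodule.mem_colon_singleton.mpr (I.mul_mem_right _ (h y hy))
  have h3 := ser_add he hI.hid (Gr.top _) hG fun h => hg0 (by rw [← eps_hom _ g, h, map_zero])
  rw [hid_colon (homog_fst hG), ← oc_char he] at h3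
  rw [eps_hom] at h1 h3
  have h4 := h1.add ((hasVal_X_pow g.totalDegree).mul ((hasVal_C (e γ)).mul h2))
  rw [one_mul] at h4
  refine (kap_spec he hI h).unique ?_
  convert h4 using 1
  simp only [kser]
  linear_combination ((1 - PowerSeries.X) *
    ∏ y ∈ T, (1 - PowerSeries.C (e (w y)) * PowerSeries.X)) * h3

theorem kap_insert_mem [DecidableEq σ] {T : Finset σ} {y : σ} (hy : y ∉ T)
    {I : Ideal (MvPolynomial σ k)} (hI : Gr w I) (h : ∀ y ∉ T, X y ∈ I) :
    kap (fun y => e (w y)) (insert y T) I = (1 - e (w y)) * kap (fun y => e (w y)) T I := by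
  refine HasVal.val_eq ?_
  convert (hasVal_one_sub (e (w y))).mul (kap_spec he hI h) using 1
  simp only [kser, Finset.prod_insert hy]
  ring

theorem kap_insert_notMem [DecidableEq σ] {T : Finset σ} {y : σ} (hy : y ∉ T)
    {I : Ideal (MvPolynomial σ k)} [hp : I.IsPrime] (hI : Gr w I) (h : ∀ z ∉ insert y T, X z ∈ I)
    (hyI : X y ∉ I) : kap (fun y => e (w y)) (insert y T) I =
      kap (fun y => e (w y)) T (I ⊔ Ideal.span {X y}) := by
  have hG : IsWeightedHomogeneous (dw (oc 0 w)) (X (Option.some y) : MvPolynomial (Option σ) k)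
      (((1 : ℕ) : ℤ), w y) := isWeightedHomogeneous_X k (dw (oc 0 w)) (Option.some y)
  have h0 : eps (X (Option.some y) : MvPolynomial (Option σ) k) = X y := by simp [eps, oc]
  have h1 := kap_sat he (T := T) hI hG (h0 ▸ isWeightedHomogeneous_X k w y) fun z hz => by
    by_cases hzy : z = y
    · exact Or.inr (by rw [hzy])
    · exact Or.inl (h z (by simp [hz, hzy]))
  have h3 := ser_add he hI.hid (Gr.top _) hG (X_ne_zero _)
  have h4 : I.colon {X y} = I := by
    ext f
    rw [Submodule.mem_colon_singleton, smul_eq_mul]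
    exact ⟨fun h => (hp.mem_or_mem h).resolve_right hyI, fun h => I.mul_mem_right _ h⟩
  rw [hid_colon (homog_fst hG), ← oc_char he, h0, h4] at h3
  rw [h0] at h1
  refine HasVal.val_eq ?_
  convert h1 using 1
  simp only [kser, Finset.prod_insert hy]
  linear_combination ((1 - PowerSeries.X) *
    ∏ y ∈ T, (1 - PowerSeries.C (e (w y)) * PowerSeries.X)) * h3

omit he in
theorem kap_top (χ : σ → Λ) (T : Finset σ) : kap χ T (⊤ : Ideal (MvPolynomial σ k)) = 0 := by
  have : hid (⊤ : Ideal (MvPolynomial σ k)) = ⊤ := eq_top_iff.mpr fun _ _ _ => trivial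
  refine HasVal.val_eq ?_
  rw [this, kser, sub_self, mul_zero]
  exact ⟨0, by simp, by simp⟩

theorem kap_vanish {I : Ideal (MvPolynomial σ k)} (hI : Gr w I) {p : σ → k}
    (hp : ∀ y, p y = 0 ∨ w y = 0) {F : MvPolynomial σ k} (hF : F ∈ I) (h : aeval p F ≠ 0) :
    kap (fun y => e (w y)) Finset.univ I = 0 := by
  obtain ⟨a, ha, ha'⟩ := main_lemma he hp Finset.univ ⊤ (hid I) (Gr.top _) hI.hid le_top
    fun y hy => absurd (Finset.mem_univ y) hy
  rw [kap, ha.val_eq]
  have h1 := hom_homog_one F le_rfl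
  refine ha' _ _ (deg_of_homog h1) ?_ fun f _ =>
    Ideal.mul_mem_right _ _ ((mem_hid h1).mpr (by rwa [eps_hom]))
  have h2 : (aeval (oc 1 p) : MvPolynomial (Option σ) k →ₐ[k] k) = (aeval p).comp eps := by
    ext o
    cases o <;> simp [eps, oc]
  rw [← coe_aeval_eq_eval, RingHom.coe_coe, h2, AlgHom.comp_apply, eps_hom]
  exact h

theorem kap_map {Λ' : Type*} [CommRing Λ'] (φ : Λ →+* Λ') {I : Ideal (MvPolynomial σ k)}
    (hI : Gr w I) : φ (kap (fun y => e (w y)) Finset.univ I) =
      kap (fun y => φ (e (w y))) Finset.univ I := by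
  refine (HasVal.val_eq ?_).symm
  convert (kap_spec he hI fun y hy => absurd (Finset.mem_univ y) hy).map φ using 1
  have : (fun i => φ (oc 1 (fun y => e (w y)) i)) = oc 1 fun y => φ (e (w y)) := by
    funext o
    cases o <;> simp [oc]
  simp [kser, ser_map, this]

omit he in
theorem comp_rename {τ : Type*} [Fintype τ] (π : τ ≃ τ) (W : τ → Γ) (γ : Γ)
    (F : MvPolynomial τ k) : weightedHomogeneousComponent W γ (rename π F) =
      rename π (weightedHomogeneousComponent (W ∘ π) γ F) := by
  classical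
  induction F using MvPolynomial.induction_on' with
  | monomial μ c =>
    have : weight W (mapDomain π μ) = weight (W ∘ π) μ := by
      rw [weight_eq_sum, weight_eq_sum, ← Equiv.sum_comp π]
      simp [mapDomain_apply π.injective]
    rw [rename_monomial,
      weightedHomogeneousComponent_of_mem (isWeightedHomogeneous_monomial _ _ c rfl),
      weightedHomogeneousComponent_of_mem (isWeightedHomogeneous_monomial _ _ c rfl), this]
    split_ifs
    · exact (rename_monomial _ _ _).symm
    · exact (map_zero _).symm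
  | add p q hp hq => simp only [map_add, hp, hq]

theorem ser_rename {τ : Type*} [Fintype τ] (π : τ ≃ τ) {w : τ → Γ} {J : Ideal (MvPolynomial τ k)}
    (hJ : Gr (dw w) J) (h : ∀ F, rename π F ∈ J ↔ F ∈ J) :
    ser (fun i => e (w (π i))) J = ser (fun i => e (w i)) J := by
  classical
  have hJ' : Gr (dw (w ∘ π)) J := fun γ F hF => by
    rw [← h]
    exact (comp_rename π (dw w) γ F) ▸ hJ γ _ ((h F).mpr hF)
  ext m
  let S := (mons τ m).image (weight w) ∪ (mons τ m).image (weight (w ∘ π))
  rw [coeff_ser he hJ m (S := S) fun μ hμ =>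
    Finset.mem_union_left _ (Finset.mem_image_of_mem _ hμ)]
  refine (coeff_ser he hJ' m (S := S) fun μ hμ =>
    Finset.mem_union_right _ (Finset.mem_image_of_mem _ hμ)).trans ?_
  refine Finset.sum_congr rfl fun γ _ => ?_
  rw [← LinearEquiv.finrank_map_eq (renameEquiv k π).toLinearEquiv (part (dw (w ∘ π)) J (m, γ))]
  suffices h1 : Submodule.map ((renameEquiv k π).toLinearEquiv : _ →ₗ[k] _)
      (part (dw (w ∘ π)) J (m, γ)) = part (dw w) J (m, γ) by rw [h1]
  refine le_antisymm ?_ fun F hF => ?_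
  · rintro _ ⟨F, hF, rfl⟩
    refine ⟨(h F).mpr hF.1, ?_⟩
    have := weightedHomogeneousComponent_mem (dw w) (rename π F) ((m : ℤ), γ)
    rwa [comp_rename, show dw w ∘ π = dw (w ∘ π) from rfl,
      weightedHomogeneousComponent_eq_self hF.2] at this
  · obtain ⟨F, rfl⟩ := (renameEquiv k π).surjective F
    refine ⟨F, ⟨(h F).mp hF.1, ?_⟩, rfl⟩
    have := comp_rename π (dw w) ((m : ℤ), γ) F
    rw [weightedHomogeneousComponent_eq_self (p := rename π F) hF.2] at this
    rw [rename_injective _ π.injective this]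
    exact weightedHomogeneousComponent_mem _ _ _

theorem kap_rename (π : σ ≃ σ) {I : Ideal (MvPolynomial σ k)} (hI : Gr w I)
    (h : ∀ F, rename π F ∈ I ↔ F ∈ I) :
    kap (fun y => e (w (π y))) Finset.univ I = kap (fun y => e (w y)) Finset.univ I := by
  have h1 : ∀ F : MvPolynomial (Option σ) k, eps (rename π.optionCongr F) = rename π (eps F) := by
    intro F
    have : (eps (k := k)).comp (rename π.optionCongr) = (rename π).comp eps := by
      ext o
      cases o <;> simp [eps, oc]
    exact DFunLike.congr_fun this F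
  have h2 : ∀ J : Ideal (MvPolynomial (Option σ) k), Gr (dw (oc 0 w)) J →
      (∀ F, rename π.optionCongr F ∈ J ↔ F ∈ J) →
      ser (oc 1 fun y => e (w (π y))) J = ser (oc 1 fun y => e (w y)) J := by
    intro J hJ h
    rw [oc_char he w, ← ser_rename he π.optionCongr hJ h]
    congr 1
    funext o
    cases o
    · exact he.zero.symm
    · rfl
  rw [kap, kap, kser, kser, h2 _ (Gr.top _) fun _ => Iff.rfl, h2 _ hI.hid fun F => ?_,
    Equiv.prod_comp π fun y => 1 - PowerSeries.C (e (w y)) * PowerSeries.X]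
  refine forall_congr' fun n => ?_
  rw [comp_rename, h1, h]
  rfl

section Ordered

variable [LinearOrder Γ] [IsOrderedCancelAddMonoid Γ]

omit he in
theorem pfi (w : σ → Γ) {Q : Ideal (MvPolynomial σ k) → Prop} (htop : Q ⊤)
    (hstep : ∀ I g γ, Gr w I → IsWeightedHomogeneous w g γ → g ∉ I → (I.colon {g}).IsPrime →
      Q (I ⊔ Ideal.span {g}) → Q I) (I : Ideal (MvPolynomial σ k)) : Gr w I → Q I := by
  induction I using IsNoetherian.induction with
  | hgt I ih =>
    intro hI
    by_cases ht : I = ⊤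
    · exact ht ▸ htop
    obtain ⟨_, ⟨g, γ, hg, hgI, rfl⟩, hmax⟩ := set_has_maximal_iff_noetherian.mpr
      (inferInstance : IsNoetherian (MvPolynomial σ k) (MvPolynomial σ k))
      {J | ∃ g γ, IsWeightedHomogeneous w g γ ∧ g ∉ I ∧ J = I.colon {g}}
      ⟨_, 1, 0, isWeightedHomogeneous_one k w, (Ideal.ne_top_iff_one I).mp ht, rfl⟩
    refine hstep I g γ hI hg hgI ?_ (ih _ (lt_of_le_of_ne le_sup_left fun h => hgI
      (h ▸ Ideal.mem_sup_right (Ideal.mem_span_singleton_self g))) (hI.sup_span hg))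
    letI := weightedGradedAlgebra k w
    refine Ideal.IsHomogeneous.isPrime_of_homogeneous_mem_or_mem
      (𝒜 := weightedHomogeneousSubmodule k w) (fun i r hr => ?_) (fun h => hgI ?_) ?_
    · have := hI.colon hg i r hr
      rwa [← weightedDecomposition.decompose'_apply] at this
    · simpa using Submodule.mem_colon_singleton.mp ((Ideal.eq_top_iff_one _).mp h)
    · rintro x y - ⟨δ, hy⟩ hxy
      rw [or_iff_not_imp_right]
      intro hy'
      rw [Submodule.mem_colon_singleton, smul_eq_mul] at hy' hxy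
      by_contra hx
      refine hmax (I.colon {y * g}) ⟨_, _, IsWeightedHomogeneous.mul hy hg, hy', rfl⟩
        (lt_of_le_of_ne (fun z hz => ?_) fun h => hx ?_)
      · rw [Submodule.mem_colon_singleton, smul_eq_mul] at hz ⊢
        rw [mul_left_comm]
        exact Ideal.mul_mem_left _ _ hz
      · rw [h, Submodule.mem_colon_singleton, smul_eq_mul, ← mul_assoc]
        exact hxy

theorem kap_mem_pow {a : Ideal Λ} (ha : ∀ y, 1 - e (w y) ∈ a) (T : Finset σ) :
    ∀ (n : ℕ) (I : Ideal (MvPolynomial σ k)), Gr w I → (∀ y ∉ T, X y ∈ I) →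
      ((n + Fintype.card σ : ℕ) : ℕ∞) ≤ I.height + T.card →
      kap (fun y => e (w y)) T I ∈ a ^ n := by
  classical
  induction T using Finset.induction_on with
  | empty =>
    intro n I _ _ h
    by_cases ht : I = ⊤
    · rw [ht, kap_top]
      exact Ideal.zero_mem _
    have h1 := Ideal.height_le_ringKrullDim_of_ne_top ht
    rw [MvPolynomial.ringKrullDim_of_isNoetherianRing, ringKrullDim_eq_zero_of_field, zero_add,
      Nat.card_eq_fintype_card] at h1
    have h2 : I.height ≤ Fintype.card σ := by exact_mod_cast h1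
    rw [Finset.card_empty, Nat.cast_zero, add_zero] at h
    have h3 : n + Fintype.card σ ≤ Fintype.card σ := by exact_mod_cast h.trans h2
    obtain rfl : n = 0 := by omega
    simp
  | insert y T hy ih =>
    intro n I hI
    refine pfi w (Q := fun I => (∀ z ∉ insert y T, X z ∈ I) →
      ((n + Fintype.card σ : ℕ) : ℕ∞) ≤ I.height + (insert y T).card →
      kap (fun y => e (w y)) (insert y T) I ∈ a ^ n) (fun _ _ => ?_) ?_ I hI
    · rw [kap_top]
      exact Ideal.zero_mem _
    intro I g γ hI hg hgI hp hQ h1 h2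
    have hle : I ≤ I.colon {g} := fun f hf =>
      Submodule.mem_colon_singleton.mpr (I.mul_mem_right _ hf)
    rw [kap_add he hI h1 hg fun h => hgI (h ▸ I.zero_mem)]
    refine Ideal.add_mem _ (hQ (fun z hz => Ideal.mem_sup_left (h1 z hz))
      (h2.trans (by gcongr; exact le_sup_left))) (Ideal.mul_mem_left _ _ ?_)
    have h3 : ((n + Fintype.card σ : ℕ) : ℕ∞) ≤ (I.colon {g}).height + 1 + T.card := by
      rw [Finset.card_insert_of_notMem hy] at h2
      refine h2.trans ?_
      push_cast
      rw [add_comm (T.card : ℕ∞), ← add_assoc]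
      gcongr
    have h4 : ∀ z ∉ T, z = y ∨ X z ∈ I.colon {g} := fun z hz =>
      or_iff_not_imp_left.mpr fun hzy => hle (h1 z (by simp [hz, hzy]))
    by_cases hX : X y ∈ I.colon {g}
    · have h5 : ∀ z ∉ T, X z ∈ I.colon {g} := fun z hz => (h4 z hz).elim (fun h => h ▸ hX) id
      rw [kap_insert_mem he hy (hI.colon hg) h5]
      cases n with
      | zero => simp
      | succ n =>
        rw [pow_succ']
        refine Ideal.mul_mem_mul (ha y) (ih n _ (hI.colon hg) h5 ?_)
        rw [add_right_comm, Nat.cast_add, Nat.cast_one, add_right_comm _ 1] at h3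
        exact (ENat.add_le_add_iff_right ENat.one_ne_top).mp h3
    · rw [kap_insert_notMem he hy (hI.colon hg) (fun z hz => hle (h1 z hz)) hX]
      refine ih n _ ((hI.colon hg).sup_span (isWeightedHomogeneous_X k w y)) (fun z hz => ?_)
        (h3.trans (by gcongr; exact ht_sup hX))
      rcases h4 z hz with rfl | h
      · exact Ideal.mem_sup_right (Ideal.mem_span_singleton_self _)
      · exact Ideal.mem_sup_left h

theorem kap_mem_pow_ht {a : Ideal Λ} (ha : ∀ y, 1 - e (w y) ∈ a) {n : ℕ}
    {I : Ideal (MvPolynomial σ k)} (hI : Gr w I) (h : (n : ℕ∞) ≤ I.height) :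
    kap (fun y => e (w y)) Finset.univ I ∈ a ^ n :=
  kap_mem_pow he ha _ n I hI (fun y hy => absurd (Finset.mem_univ y) hy) (by
    push_cast
    rw [Finset.card_univ]
    gcongr)

end Ordered

end Pool.Agent.MP_52bf41_ag.H1
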