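import Pool.Agent.MP_52bf41_ag.H1.Piece

/-! The upper bound: the Chow group is spanned by Schubert classes. -/

namespace Pool.Agent.MP_52bf41_ag.H1

open MvPolynomial Finsupp

variable {D N : ℕ} {k : Type*} [Field k]

theorem det_mem_subalgebra {A n : Type*} [CommRing A] [Algebra k A] [Fintype n] [DecidableEq n]
    (S : Subalgebra k A) (M : Matrix n n A) (h : ∀ i j, M i j ∈ S) : M.det ∈ S := by
  rw [Matrix.det_apply']
  exact S.sum_mem fun τ _ => S.mul_mem (intCast_mem S _) (S.prod_mem fun i _ => h _ _)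

theorem ht_of_minors {d : ℕ} (hN : (d + 1) * D + 1 ≤ N) (p : Ideal (MvPolynomial (Var D N) k))
    [p.IsPrime] (i : Fin N) (hv : vX k D i ∉ p)
    (h : ∀ σ : Fin (D + 1) → Fin N, σ 0 = i → mdet k σ ∈ p) : ((d + 1 : ℕ) : ℕ∞) ≤ p.height := by
  classical
  obtain ⟨β⟩ : Nonempty (Fin (d + 1) × Fin D ↪ {r : Fin N // r ≠ i}) :=
    Function.Embedding.nonempty_of_card_le (by
      simp only [Fintype.card_prod, Fintype.card_fin, Fintype.card_subtype_compl,
        Fintype.card_unique]
      omega)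
  let σ : Fin (d + 1) → Fin (D + 1) → Fin N := fun l => Fin.cons i fun j => β (l, j)
  refine le_ht_of_blocks p (d + 1)
    (fun l => {y | ¬∃ (l' : Fin (d + 1)) (j : Fin D), l ≤ (l' : ℕ) ∧ y.1 = Sum.inr (β (l', j)).1})
    (fun l y hy ⟨l', j, h1, h2⟩ => hy ⟨l', j, by omega, h2⟩)
    (fun l => if hl : l < d + 1 then mdet k (σ ⟨l, hl⟩) else 0) (fun l hl => ?_) fun l hl => ?_
  · rw [dif_pos hl]
    refine ⟨h _ rfl, det_mem_subalgebra _ _ fun a b => X_mem_supported.mpr ?_⟩
    rintro ⟨l', j, h1, h2⟩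
    have h3 : σ ⟨l, hl⟩ a = β (l', j) := Sum.inr_injective h2
    refine Fin.cases (fun h3 => ?_) (fun a h3 => ?_) a h3
    · exact (β (l', j)).2 h3.symm
    · have := congrArg (fun z => (z.1 : ℕ)) (β.injective (Subtype.ext h3))
      simp only at this
      omega
  · refine ⟨fun y => if ∃ j, y.1 = Sum.inr (β (⟨l, hl⟩, j)).1 then
      (if ∃ j, y = (Sum.inr (β (⟨l, hl⟩, j)).1, j.succ) then 1 else 0)
      else Ideal.Quotient.mk p (X y), fun y hy => if_neg fun ⟨j, hj⟩ => hy ⟨_, j, le_rfl, hj⟩, ?_⟩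
    rw [dif_pos hl, aeval_mdet]
    have h1 : mM (σ ⟨l, hl⟩) (fun y => if ∃ j, y.1 = Sum.inr (β (⟨l, hl⟩, j)).1 then
        (if ∃ j, y = (Sum.inr (β (⟨l, hl⟩, j)).1, j.succ) then 1 else 0)
        else Ideal.Quotient.mk p (X y)) = (1 : Sq D _).updateRow 0
          (∑ b, Ideal.Quotient.mk p (X (Sum.inr i, b)) • (1 : Sq D _) b) := by
      ext a b
      refine Fin.cases ?_ (fun a => ?_) a
      · have : ¬∃ j, i = (β (⟨l, hl⟩, j)).1 := fun ⟨j, hj⟩ => (β _).2 hj.symm
        simp [mM, sections, σ, this, Matrix.one_apply]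
      · rw [Matrix.updateRow_ne (Fin.succ_ne_zero a), Matrix.one_apply]
        simp only [mM, sections, σ, Matrix.submatrix_apply, Matrix.of_apply, Fin.cons_succ, id]
        rw [if_pos ⟨a, rfl⟩]
        congr 1
        refine propext ⟨fun ⟨j, hj⟩ => ?_, fun hj => ⟨a, by rw [hj]⟩⟩
        obtain ⟨h1, h2⟩ := Prod.ext_iff.mp hj
        have := β.injective (Subtype.ext (Sum.inr_injective h1))
        obtain rfl : a = j := (Prod.ext_iff.mp this).2
        exact h2.symm
    rw [h1, Matrix.det_updateRow_sum, Matrix.det_one, smul_eq_mul, mul_one, Ne,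
      Ideal.Quotient.eq_zero_iff_mem]
    exact hv

theorem ht_of_col (p : Ideal (MvPolynomial (Var D N) k)) (h : ∀ r, vX k D r ∈ p) :
    (N : ℕ∞) ≤ p.height := by
  classical
  have h1 := ht_cs (k := k) ((Finset.univ : Finset (Fin N)).map
    ⟨fun r => ((Sum.inr r, 0) : Var D N), fun _ _ h => Sum.inr_injective (Prod.ext_iff.mp h).1⟩)
  rw [Finset.card_map, Finset.card_univ, Fintype.card_fin] at h1
  rw [← h1]
  refine Ideal.height_mono (cs_le fun y hy => ?_)
  obtain ⟨r, -, rfl⟩ := Finset.mem_map.mp hy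
  exact h r

theorem injective_of_mdet {σ : Fin (D + 1) → Fin N} {p : Ideal (MvPolynomial (Var D N) k)}
    (h : mdet k σ ∉ p) : Function.Injective σ := by
  intro a b hab
  by_contra hne
  apply h
  rw [mdet, Matrix.det_zero_of_row_eq hne (by funext j; simp [mM, hab])]
  exact p.zero_mem

theorem all_null [Infinite k] {d : ℕ} (hN : (d + 1) * (D + 1) ≤ N)
    {L : Submodule ℚ (Cy k D N d →₀ ℚ)} (hL : Rel k D N d ≤ L)
    (hgen : ∀ σ : Fin (D + 1) → Fin N, StrictMono σ → (σ 0 : ℕ) = 0 → (cs k (Zs σ)).height = d →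
      ∀ p : Cy k D N d, p.1.asIdeal = tw σ false (ext (slE k σ) (cs k (Zs σ))) → single p 1 ∈ L)
    (p : Cy k D N d) : single p (1 : ℚ) ∈ L := by
  have hd : ∀ p : Cy k D N d, ¬((d + 1 : ℕ) : ℕ∞) ≤ p.1.asIdeal.height := fun p h => by
    rw [p.2.2.1] at h
    exact absurd (by exact_mod_cast h : d + 1 ≤ d) (by omega)
  have hN1 : (d + 1) * D + (d + 1) ≤ N := hN
  have key : ∀ i ≤ N, ∀ p : Cy k D N d, (∀ r : Fin N, (r : ℕ) < i → vX k D r ∈ p.1.asIdeal) →
      single p (1 : ℚ) ∈ L := by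
    intro i hi
    induction hi using Nat.decreasingInduction with
    | self =>
      intro p hp
      exact absurd (le_trans (by exact_mod_cast (by omega : d + 1 ≤ N))
        (ht_of_col _ fun r => hp r r.2)) (hd p)
    | of_succ i hi ih =>
      have hA : ∀ p : Cy k D N d, (∀ r : Fin N, (r : ℕ) < i → vX k D r ∈ p.1.asIdeal) →
          vX k D ⟨i, hi⟩ ∈ p.1.asIdeal → single p (1 : ℚ) ∈ L := fun p h1 h2 =>
        ih p fun r hr => by
          rcases Nat.lt_succ_iff_lt_or_eq.mp hr with h | h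
          · exact h1 r h
          · exact (Fin.ext h : r = ⟨i, hi⟩) ▸ h2
      have hB : ∀ s ≤ (D + 1) * N + 1, ∀ p : Cy k D N d,
          (∀ r : Fin N, (r : ℕ) < i → vX k D r ∈ p.1.asIdeal) → vX k D ⟨i, hi⟩ ∉ p.1.asIdeal →
          (∀ σ : Fin (D + 1) → Fin N, σ 0 = ⟨i, hi⟩ → mdet k σ ∉ p.1.asIdeal →
            s ≤ ∑ a, (σ a : ℕ)) → single p (1 : ℚ) ∈ L := by
        intro s hs
        induction hs using Nat.decreasingInduction with
        | self =>
          intro p _ h2 h3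
          refine absurd (ht_of_minors (by omega) _ _ h2 fun σ h0 => ?_) (hd p)
          by_contra hσ
          have h4 := h3 σ h0 hσ
          have h5 : ∑ a, (σ a : ℕ) ≤ (D + 1) * N := by
            simpa using Finset.sum_le_card_nsmul Finset.univ (fun a => (σ a : ℕ)) N
              fun a _ => (σ a).2.le
          omega
        | of_succ s hs ihs =>
          intro p h1 h2 h3
          by_cases h4 : ∀ σ : Fin (D + 1) → Fin N, σ 0 = ⟨i, hi⟩ → mdet k σ ∉ p.1.asIdeal →
            s + 1 ≤ ∑ a, (σ a : ℕ)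
          · exact ihs p h1 h2 h4
          push Not at h4
          obtain ⟨σ, h0, hσ, hs', hm⟩ : ∃ σ : Fin (D + 1) → Fin N, σ 0 = ⟨i, hi⟩ ∧
              mdet k σ ∉ p.1.asIdeal ∧ ∑ a, (σ a : ℕ) = s ∧ (i = 0 → StrictMono σ) := by
            obtain ⟨σ, h0, hσ, hs'⟩ := h4
            have h5 := h3 σ h0 hσ
            by_cases hi0 : i = 0
            · have h6 : StrictMono (σ ∘ Tuple.sort σ) := (Tuple.monotone_sort σ).strictMono_of_injective
                ((injective_of_mdet hσ).comp (Tuple.sort σ).injective)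
              refine ⟨σ ∘ Tuple.sort σ, ?_, fun h => hσ ?_, ?_, fun _ => h6⟩
              · have h7 := h6.monotone (Fin.zero_le ((Tuple.sort σ).symm 0))
                simp only [Function.comp_apply, Equiv.apply_symm_apply, h0] at h7
                exact le_antisymm h7 (by simp [Fin.le_def, hi0])
              · have := mdet_perm (Tuple.sort σ)⁻¹ h
                rwa [Function.comp_assoc, ← Equiv.Perm.coe_mul, mul_inv_cancel,
                  Equiv.Perm.coe_one, Function.comp_id] at this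
              · exact (Equiv.sum_comp (Tuple.sort σ) fun a => (σ a : ℕ)).trans (by omega)
            · exact ⟨σ, h0, hσ, by omega, fun h => absurd h hi0⟩
          refine piece (σ := σ) hL (fun p' hp' => ?_) (fun h5 => ?_) p (by rw [h0]; exact h1)
            (fun h => ?_) (by rw [h0, hs']; exact h3)
          · rw [Low, h0, hs'] at hp'
            by_cases h5 : vX k D ⟨i, hi⟩ ∈ p'.1.asIdeal
            · exact hA p' hp'.1 h5
            · exact ihs p' hp'.1 h5 (hp'.2 h5)
          · have hi0 : i = 0 := by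
              by_contra hi0
              exact h5 ⟨0, by omega⟩ (by rw [h0, Fin.lt_def]; exact Nat.pos_of_ne_zero hi0)
            exact hgen σ (hm hi0) (by rw [h0]; exact hi0)
          · rcases p.1.isPrime.mem_or_mem h with h | h
            · exact h2 (h0 ▸ h)
            · exact hσ h
      intro p hp
      by_cases h : vX k D ⟨i, hi⟩ ∈ p.1.asIdeal
      · exact hA p hp h
      · exact hB 0 (Nat.zero_le _) p hp h fun _ _ _ => Nat.zero_le _
  exact key 0 (Nat.zero_le _) p fun _ h => absurd h (Nat.not_lt_zero _)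

theorem card_Zs {σ : Fin (D + 1) → Fin N} (hσ : StrictMono σ) (h0 : (σ 0 : ℕ) = 0) :
    (cs k (Zs σ)).height = (∑ a, ((σ a : ℕ) - a) : ℕ) := by
  classical
  have h1 := ht_cs (k := k) (Zs σ).toFinset
  rw [Set.coe_toFinset] at h1
  rw [h1, Finset.card_eq_sum_card_fiberwise (f := fun y : Sl σ => y.1.2) (t := Finset.univ)
    fun _ _ => Finset.mem_univ _]
  congr 2
  funext a
  have h2 : (Finset.Iio a).image σ ⊆ Finset.Iio (σ a) := fun r hr => by
    obtain ⟨b, hb, rfl⟩ := Finset.mem_image.mp hr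
    exact Finset.mem_Iio.mpr (hσ (Finset.mem_Iio.mp hb))
  have h3 : (σ a : ℕ) - a = (Finset.Iio (σ a) \ (Finset.Iio a).image σ).card := by
    rw [Finset.card_sdiff_of_subset h2, Finset.card_image_of_injective _ hσ.injective,
      Fin.card_Iio, Fin.card_Iio]
  rw [h3]
  symm
  have h4 : ∀ r ∈ Finset.Iio (σ a) \ (Finset.Iio a).image σ, ¬Fix σ (Sum.inr r, a) := by
    rintro r hr ⟨b, hb⟩
    obtain rfl : r = σ b := Sum.inr_injective hb
    rw [Finset.mem_sdiff, Finset.mem_Iio, hσ.lt_iff_lt] at hr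
    exact hr.2 (Finset.mem_image_of_mem _ (Finset.mem_Iio.mpr hr.1))
  refine Finset.card_bij (fun r hr => ⟨(Sum.inr r, a), Or.inl (h4 r hr)⟩) (fun r hr => ?_)
    (fun r _ r' _ h => Sum.inr_injective (Prod.ext_iff.mp (Subtype.ext_iff.mp h)).1) ?_
  · exact Finset.mem_filter.mpr ⟨Set.mem_toFinset.mpr
      ⟨r, rfl, Finset.mem_Iio.mp (Finset.mem_sdiff.mp hr).1⟩, rfl⟩
  · rintro ⟨⟨_, b⟩, hy⟩ h
    obtain ⟨h5, rfl⟩ := Finset.mem_filter.mp h
    obtain ⟨r, rfl, hr⟩ := Set.mem_toFinset.mp h5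
    refine ⟨r, Finset.mem_sdiff.mpr ⟨Finset.mem_Iio.mpr hr, fun h6 => ?_⟩, rfl⟩
    obtain ⟨c, -, rfl⟩ := Finset.mem_image.mp h6
    rcases hy with hy | hy
    · exact hy ⟨c, rfl⟩
    · have hb : b = 0 := hy
      have hr' : σ c < σ b := hr
      rw [hb, Fin.lt_def, h0] at hr'
      exact Nat.not_lt_zero _ hr'

theorem le_of_strictMono {σ : Fin (D + 1) → Fin N} (hσ : StrictMono σ) {a b : Fin (D + 1)}
    (h : a ≤ b) : (σ a : ℕ) + (b - a) ≤ σ b := by
  have h1 : (Finset.Ico a b).card ≤ (Finset.Ico (σ a) (σ b)).card :=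
    Finset.card_le_card_of_injOn σ (fun c hc => by
      simpa [hσ.le_iff_le, hσ.lt_iff_lt] using hc) hσ.injective.injOn
  rw [Fin.card_Ico, Fin.card_Ico] at h1
  have h2 : (σ a : ℕ) ≤ σ b := hσ.monotone h
  omega

theorem card_shapes (d : ℕ) : Fintype.card {σ : Fin (D + 1) → Fin N //
    StrictMono σ ∧ ∑ a, ((σ a : ℕ) - a) = d} ≤ Fintype.card (Nat.Partition d) := by
  refine Fintype.card_le_of_injective (fun σ => Nat.Partition.ofSums d
    (Finset.univ.val.map fun a => (σ.1 a : ℕ) - a) σ.2.2) fun σ τ h => ?_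
  have h1 := congrArg Nat.Partition.parts h
  simp only [Nat.Partition.ofSums_parts] at h1
  have h2 : (Finset.univ.val.map fun a => (σ.1 a : ℕ) - a) =
      Finset.univ.val.map fun a => (τ.1 a : ℕ) - a := by
    have h3 : ∀ m : Multiset ℕ, m = m.filter (· ≠ 0) +
        Multiset.replicate (m.card - (m.filter (· ≠ 0)).card) 0 := by
      intro m
      conv_lhs => rw [← Multiset.filter_add_not (· ≠ 0) m]
      congr 1
      rw [Multiset.eq_replicate]
      refine ⟨?_, fun b hb => by simpa using (Multiset.mem_filter.mp hb).2⟩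
      have := congrArg Multiset.card (Multiset.filter_add_not (· ≠ 0) m)
      rw [Multiset.card_add] at this
      omega
    rw [h3 (Finset.univ.val.map fun a => (σ.1 a : ℕ) - a),
      h3 (Finset.univ.val.map fun a => (τ.1 a : ℕ) - a), h1, Multiset.card_map, Multiset.card_map]
  have hm : ∀ σ : Fin (D + 1) → Fin N, StrictMono σ → Monotone fun a => (σ a : ℕ) - a := by
    intro σ hσ a b hab
    have := le_of_strictMono hσ hab
    have h4 : (a : ℕ) ≤ b := hab
    simp only
    omega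
  rw [Fin.univ_val_map, Fin.univ_val_map, Multiset.coe_eq_coe] at h2
  have h5 := List.ofFn_injective (h2.eq_of_sortedLE (List.sortedLE_ofFn_iff.mpr (hm _ σ.2.1))
    (List.sortedLE_ofFn_iff.mpr (hm _ τ.2.1)))
  refine Subtype.ext (funext fun a => Fin.ext ?_)
  have h6 := congrFun h5 a
  have h7 := le_of_strictMono σ.2.1 (Fin.zero_le a)
  have h8 := le_of_strictMono τ.2.1 (Fin.zero_le a)
  simp only [Fin.val_zero] at h6 h7 h8
  omega

theorem upper [Infinite k] {d : ℕ} (hN : (d + 1) * (D + 1) ≤ N) :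
    Module.Finite ℚ (Chow (Grp k D N) (Tails k D N) d) ∧
      Module.finrank ℚ (Chow (Grp k D N) (Tails k D N) d) ≤ Fintype.card (Nat.Partition d) := by
  classical
  let g : {σ : Fin (D + 1) → Fin N // StrictMono σ ∧ ∑ a, ((σ a : ℕ) - a) = d} →
      (Cy k D N d →₀ ℚ) := fun σ =>
    if h : ∃ p : Cy k D N d, p.1.asIdeal = tw σ.1 false (ext (slE k σ.1) (cs k (Zs σ.1))) then
      single h.choose 1 else 0
  have h1 : ∀ p, single p (1 : ℚ) ∈ Rel k D N d ⊔ Submodule.span ℚ (Set.range g) := by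
    refine all_null hN le_sup_left fun σ hσ h0 hd p hp => Submodule.mem_sup_right
      (Submodule.subset_span ⟨⟨σ, hσ, ?_⟩, ?_⟩)
    · rw [card_Zs hσ h0] at hd
      exact_mod_cast hd
    · have h : ∃ p : Cy k D N d, p.1.asIdeal = tw σ false (ext (slE k σ) (cs k (Zs σ))) := ⟨p, hp⟩
      simp only [g, dif_pos h]
      congr 1
      exact Subtype.ext (PrimeSpectrum.ext (h.choose_spec.trans hp.symm))
  have h2 : Rel k D N d ⊔ Submodule.span ℚ (Set.range g) = ⊤ := by
    rw [eq_top_iff]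
    intro x _
    rw [← sum_single x]
    refine Submodule.sum_mem _ fun p _ => ?_
    rw [← smul_single_one]
    exact Submodule.smul_mem _ _ (h1 p)
  have h3 : Submodule.span ℚ (Set.range ((Rel k D N d).mkQ ∘ g)) = ⊤ := by
    rw [Set.range_comp, ← Submodule.map_span, Submodule.map_mkQ_eq_top, h2]
  exact ⟨⟨Submodule.fg_def.mpr ⟨_, Set.finite_range _, h3⟩⟩,
    (finrank_le_of_span_eq_top h3).trans (card_shapes d)⟩

end Pool.Agent.MP_52bf41_ag.H1
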