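import Pool.Agent.MP_52bf41_ag.H1.Sym
import Pool.Agent.MP_52bf41_ag.H1.Div
import Pool.Agent.MP_52bf41_ag.H1.Upper

/-! The dimension of the Chow group is the number of partitions. -/

namespace Pool.Agent.MP_52bf41_ag.H1

open MvPolynomial Finsupp

theorem esymm_zero_cons {R : Type*} [CommRing R] (s : Multiset R) (n : ℕ) :
    (0 ::ₘ s).esymm n = s.esymm n := by
  cases n with
  | zero => simp [Multiset.esymm]
  | succ n => simp [Multiset.esymm, Multiset.powersetCard_cons]

theorem li_esymmPart {d D : ℕ} (h : d ≤ D) :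
    LinearIndependent ℚ fun μ : d.Partition => esymmPart (Fin D) ℚ μ := by
  classical
  let m : d.Partition → Fin D →₀ ℕ := fun μ =>
    equivFunOnFinite.symm fun i => μ.parts.count ((i : ℕ) + 1)
  have h0 : ∀ μ : d.Partition, ∀ n ∈ μ.parts, ∃ i : Fin D, (i : ℕ) + 1 = n := fun μ n hn => by
    have h1 := μ.parts_pos hn
    have h2 := μ.parts_sum ▸ Multiset.single_le_sum (fun _ _ => Nat.zero_le _) n hn
    exact ⟨⟨n - 1, by omega⟩, Nat.sub_add_cancel h1⟩
  have h1 : Function.Injective m := fun μ ν e => by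
    refine Nat.Partition.ext (Multiset.ext.mpr fun n => ?_)
    by_cases hn : ∃ i : Fin D, (i : ℕ) + 1 = n
    · obtain ⟨i, rfl⟩ := hn
      exact DFunLike.congr_fun e i
    · rw [Multiset.count_eq_zero.mpr fun h => hn (h0 μ n h),
        Multiset.count_eq_zero.mpr fun h => hn (h0 ν n h)]
  have h2 := ((basisMonomials (Fin D) ℚ).linearIndependent.comp m h1).map'
    ((symmetricSubalgebra (Fin D) ℚ).val.comp (esymmAlgHom (Fin D) ℚ D)).toLinearMap
    (LinearMap.ker_eq_bot.mpr (Subtype.val_injective.comp (esymmAlgHom_injective ℚ (by simp))))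
  refine (congrArg (fun v : d.Partition → MvPolynomial (Fin D) ℚ => LinearIndependent ℚ v)
    (_root_.funext fun μ => ?_)).mpr h2
  change _ = (esymmAlgHom (Fin D) ℚ D (monomial (m μ) 1)).val
  rw [esymmAlgHom_apply, aeval_monomial, map_one, one_mul, Finsupp.prod_fintype _ _ (by simp),
    esymmPart, Finset.prod_multiset_map_count, Finset.prod_subset
      (s₂ := Finset.univ.image fun i : Fin D => (i : ℕ) + 1) (fun n hn => by
        simpa using h0 μ n (Multiset.mem_toFinset.mp hn)) fun n _ hn => by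
          rw [Multiset.count_eq_zero.mpr fun h => hn (Multiset.mem_toFinset.mpr h), pow_zero],
    Finset.prod_image fun _ _ _ _ h => Fin.ext (Nat.succ_injective h)]
  rfl

variable {k : Type*} [Field k] [Infinite k] {d D N : ℕ}

theorem exists_cyc (hd : d ≤ D) (hN : (d + 1) * (D + 1) ≤ N) (μ : d.Partition) :
    ∃ (p : Cy k D N d) (c : ℚ), c ≠ 0 ∧ ∀ a : Fin D → ℤ,
      cls d (fun y => (wT (-a) y : ℚ)) p.1.asIdeal =
        c * aeval (fun i => (a i : ℚ)) (esymmPart (Fin D) ℚ μ) := by
  classical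
  have h1 : ∑ B : μ.parts, (B : ℕ) = d := by
    rw [← Multiset.sum_eq_sum_coe, μ.parts_sum]
  have h2 : Fintype.card μ.parts ≤ d := by
    rw [← Finset.card_univ, Finset.card_eq_sum_ones]
    exact (Finset.sum_le_sum fun B _ => μ.parts_pos (Multiset.coe_mem (x := B))).trans h1.le
  obtain ⟨ρ⟩ : Nonempty (μ.parts × Fin (D + 1) ↪ Fin N) :=
    Function.Embedding.nonempty_of_card_le (by
      rw [Fintype.card_prod, Fintype.card_fin, Fintype.card_fin]
      exact (Nat.mul_le_mul_right _ (h2.trans (Nat.le_succ d))).trans hN)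
  have h3 : ∀ B : μ.parts, (B : ℕ) ≤ D + 1 := fun B => by
    have := h1 ▸ Finset.single_le_sum (f := fun B : μ.parts => (B : ℕ)) (fun _ _ => Nat.zero_le _)
      (Finset.mem_univ B)
    omega
  obtain ⟨c, hc, h4⟩ := cls_tp (ρ := ρ) (k := k) h3
  have h5 := (tp_spec (ρ := ρ) (k := k) h3).1
  rw [h1] at h4 h5
  refine ⟨⟨⟨_, inferInstance⟩, tp_tails, h5, tp_inv⟩, c, hc, fun a => ?_⟩
  refine (h4 _ fun _ _ _ => rfl).trans ?_
  rw [esymmPart, map_multiset_prod, Multiset.map_map, ← Multiset.map_univ, ← Finset.prod]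
  congr 1
  refine Finset.prod_congr rfl fun B _ => ?_
  rw [Function.comp_apply, aeval_esymm_eq_multiset_esymm, ← esymm_zero_cons,
    ← Finset.esymm_map_val]
  congr 1
  simp [Fin.univ_succ, sp, wT, Function.comp_def]

theorem finrank_chow (hd : d ≤ D) (hN : (d + 1) * (D + 1) ≤ N) :
    Module.finrank ℚ (Chow (Grp k D N) (Tails k D N) d) = Fintype.card d.Partition := by
  obtain ⟨h1, h2⟩ := upper (k := k) hN
  refine le_antisymm h2 ?_
  choose p c hc hp using exists_cyc (k := k) hd hN
  refine LinearIndependent.fintype_card_le_finrank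
    (b := fun μ => (Rel k D N d).mkQ (single (p μ) 1)) (Fintype.linearIndependent_iff.mpr
      fun t ht μ => ?_)
  refine (mul_eq_zero.mp (Fintype.linearIndependent_iff.mp (li_esymmPart hd)
    (fun μ => t μ * c μ) ?_ μ)).resolve_right (hc μ)
  refine MvPolynomial.funext_set (fun _ => Set.range (Int.cast : ℤ → ℚ))
    (fun _ => Set.infinite_range_of_injective Int.cast_injective) fun x hx => ?_
  choose a ha using fun i => hx i (Set.mem_univ i)
  have h3 : ∑ μ, t μ • single (p μ) (1 : ℚ) ∈ Rel k D N d := by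
    rw [← Submodule.Quotient.mk_eq_zero, ← Submodule.mkQ_apply, map_sum]
    simpa only [map_smul] using ht
  have h4 := cls_div (-a) h3
  simp only [map_sum, map_smul, linearCombination_single, one_smul, hp, ha, smul_eq_mul] at h4
  simpa [mul_assoc, smul_eval] using h4

end Pool.Agent.MP_52bf41_ag.H1
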