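import Pool.Agent.MP_52bf41_ag.H1.Fun

/-! Positivity of multiplicities. -/

namespace Pool.Agent.MP_52bf41_ag.H1

open MvPolynomial Finsupp

variable {σ k : Type*} [Field k]

/-- There is a chain of primes of length `r` between `I` and the origin. -/
def Up (I : Ideal (MvPolynomial σ k)) (r : ℕ) : Prop :=
  ∃ c : LTSeries (PrimeSpectrum (MvPolynomial σ k)), I ≤ c.head.asIdeal ∧
    (∀ y, X y ∈ c.last.asIdeal) ∧ r ≤ c.length

theorem Up.mono {I J : Ideal (MvPolynomial σ k)} {r s : ℕ} (h : Up I r) (h1 : J ≤ I)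
    (h2 : s ≤ r) : Up J s :=
  let ⟨c, a, b, e⟩ := h
  ⟨c, h1.trans a, b, h2.trans e⟩

theorem Up.step {p q : Ideal (MvPolynomial σ k)} [hp : p.IsPrime] {r : ℕ} (h : Up q r)
    (hlt : p < q) : Up p (r + 1) := by
  obtain ⟨c, h1, h2, h3⟩ := h
  refine ⟨c.cons ⟨p, hp⟩ (hlt.trans_le h1), le_rfl, by simpa using h2, ?_⟩
  rw [RelSeries.cons_length]
  omega

theorem Up.cut [Finite σ] {I : Ideal (MvPolynomial σ k)} {r : ℕ} (h : Up I r) (y : σ) :
    Up (I ⊔ Ideal.span {X y}) (r - 1) := by
  obtain ⟨c, h1, h2, h3⟩ := h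
  obtain ⟨q, h4, h5, h6, h7⟩ := PrimeSpectrum.exist_ltSeries_mem_one_of_mem_last c (h2 y)
  refine ⟨q.drop 1, ?_, by rwa [RelSeries.last_drop, ← h7], ?_⟩
  · rw [RelSeries.head_drop, sup_le_iff, Ideal.span_singleton_le_iff_mem]
    exact ⟨h1.trans (h6 ▸ q.head_le 1), h4⟩
  · have : ((1 : Fin (q.length + 1)) : ℕ) ≤ 1 := by
      rw [Fin.val_one']
      exact Nat.mod_le _ _
    change _ ≤ q.length - _
    omega

theorem Up.split {I : Ideal (MvPolynomial σ k)} {r : ℕ} (h : Up I r) (g : MvPolynomial σ k) :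
    Up (I ⊔ Ideal.span {g}) r ∨ Up (I.colon {g}) r := by
  obtain ⟨c, h1, h2, h3⟩ := h
  by_cases hg : g ∈ c.head.asIdeal
  · exact Or.inl ⟨c, sup_le h1 ((Ideal.span_singleton_le_iff_mem _).mpr hg), h2, h3⟩
  · exact Or.inr ⟨c, fun f hf => (c.head.isPrime.mem_or_mem
      (h1 (Submodule.mem_colon_singleton.mp hf))).resolve_right hg, h2, h3⟩

theorem Up.ne_top {I : Ideal (MvPolynomial σ k)} {r : ℕ} (h : Up I r) : I ≠ ⊤ := by
  rintro rfl
  obtain ⟨c, h1, -⟩ := h
  exact c.head.isPrime.ne_top (top_le_iff.mp h1)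

theorem up_cs (Z : Finset σ) : Up (cs k (Z : Set σ)ᶜ) Z.card := by
  classical
  induction Z using Finset.induction_on with
  | empty =>
    exact ⟨RelSeries.singleton _ ⟨cs k ((∅ : Finset σ) : Set σ)ᶜ, inferInstance⟩, le_rfl,
      fun y => X_mem_cs.mpr (by simp), le_rfl⟩
  | insert y Z hy ih =>
    rw [Finset.card_insert_of_notMem hy]
    refine ih.step (lt_of_le_of_ne (cs_mono (by simp)) fun h => ?_)
    have : X y ∈ cs k (Z : Set σ)ᶜ := X_mem_cs.mpr hy
    rw [← h, X_mem_cs] at this
    simp at this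

variable [Fintype σ]

theorem Up.ht {I : Ideal (MvPolynomial σ k)} {r : ℕ} (h : Up I r) :
    I.height + r ≤ Fintype.card σ := by
  obtain ⟨c, h1, -, h3⟩ := h
  have h4 := Order.krullDim_eq_iSup_height_add_coheight_of_nonempty
    (α := PrimeSpectrum (MvPolynomial σ k))
  change ringKrullDim _ = _ at h4
  rw [MvPolynomial.ringKrullDim_of_isNoetherianRing, ringKrullDim_eq_zero_of_field, zero_add,
    Nat.card_eq_fintype_card] at h4
  have h5 : (Fintype.card σ : ℕ∞) = ⨆ a : PrimeSpectrum (MvPolynomial σ k),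
    Order.height a + Order.coheight a := by exact_mod_cast h4
  rw [h5]
  refine le_trans (add_le_add ((Ideal.height_mono h1).trans c.head.height_eq_orderHeight.le)
    (le_trans (by exact_mod_cast h3) Order.length_le_coheight_head)) (le_iSup (fun a :
      PrimeSpectrum (MvPolynomial σ k) => Order.height a + Order.coheight a) c.head)

theorem kap_empty {Λ : Type*} [CommRing Λ] (χ : σ → Λ) {I : Ideal (MvPolynomial σ k)}
    (h : ∀ y, X y ∈ I) (ht : I ≠ ⊤) : kap χ ∅ I = 1 := by
  classical
  have h1 : ∀ μ : Option σ →₀ ℕ, μ ∈ lead (⊤ : Ideal (MvPolynomial (Option σ) k)) := fun μ =>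
    ⟨monomial μ 1, trivial, by simp [support_monomial], by simp [support_monomial]⟩
  have h2 : ∀ μ : Option σ →₀ ℕ, μ ∈ lead (hid I) ↔ μ.some ≠ 0 := by
    intro μ
    constructor
    · rintro ⟨f, hf, h3, -⟩ h0
      have h4 := hf (weight (fun _ => (1 : ℤ)) μ)
      set g := weightedHomogeneousComponent (fun _ => (1 : ℤ)) (weight (fun _ => (1 : ℤ)) μ) f
      have h5 : eps g - C (constantCoeff (eps g)) ∈ I := by
        refine cs_le (Z := Set.univ) (fun y _ => h y) ?_
        rw [cs, RingHom.mem_ker]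
        simp only [Set.mem_univ, if_true, map_sub, aeval_zero', aeval_C, algebraMap_eq, sub_self]
      have h6 : constantCoeff (eps g) = coeff μ g := by
        have hg : IsWeightedHomogeneous (fun _ => (1 : ℤ)) g (∑ i, μ i : ℕ) :=
          weight_one μ ▸ weightedHomogeneousComponent_isWeightedHomogeneous _ f
        conv_lhs => rw [g.as_sum]
        rw [map_sum, map_sum, Finset.sum_eq_single μ]
        · rw [eps_monomial, h0, constantCoeff_monomial, if_pos rfl]
        · intro ν hν hne
          rw [eps_monomial, constantCoeff_monomial, if_neg fun h7 => hne ?_]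
          have h8 := deg_of_homog hg ν hν
          have h9 : ∀ y, ν (Option.some y) = μ (Option.some y) := fun y =>
            (DFunLike.congr_fun h7 y).trans (DFunLike.congr_fun h0 y).symm
          rw [Fintype.sum_option, Fintype.sum_option] at h8
          simp only [h9, add_left_inj] at h8
          ext o
          cases o
          · exact h8
          · exact h9 _
        · intro h7
          rw [MvPolynomial.notMem_support_iff.mp h7, map_zero, map_zero, map_zero]
      have h7 : coeff μ g ≠ 0 := by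
        rw [coeff_weightedHomogeneousComponent, if_pos rfl]
        exact MvPolynomial.mem_support_iff.mp h3
      refine ht (Ideal.eq_top_of_isUnit_mem _ ?_ ((Ne.isUnit h7).map C))
      simpa [h6] using I.sub_mem h4 h5
    · intro h0
      refine ⟨monomial μ 1, ?_, by simp [support_monomial], by simp [support_monomial]⟩
      rw [mem_hid (isWeightedHomogeneous_monomial _ μ 1 rfl), eps_monomial]
      obtain ⟨y, hy⟩ := Finsupp.ne_iff.mp h0
      have : (monomial μ.some 1 : MvPolynomial σ k) = monomial (μ.some - single y 1) 1 * X y := by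
        rw [X, monomial_mul, mul_one, tsub_add_cancel_of_le]
        exact single_le_iff.mpr (Nat.pos_of_ne_zero hy)
      rw [this]
      exact I.mul_mem_left _ (h y)
  have h3 : ser (oc 1 χ) (⊤ : Ideal (MvPolynomial (Option σ) k)) - ser (oc 1 χ) (hid I) =
      PowerSeries.mk 1 := by
    ext m
    rw [map_sub, ser, ser, PowerSeries.coeff_mk, PowerSeries.coeff_mk, PowerSeries.coeff_mk,
      Finset.filter_true_of_mem fun μ _ => h1 μ, sub_eq_iff_eq_add',
      ← Finset.sum_filter_add_sum_filter_not (mons (Option σ) m) (· ∈ lead (hid I))]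
    congr 1
    rw [Finset.sum_eq_single_of_mem (single none m)]
    · simp [Fintype.prod_option, oc]
    · simp [mem_mons, h2, Fintype.sum_option]
    · intro ν hν hne
      simp only [Finset.mem_filter, mem_mons, h2, not_not, Fintype.sum_option] at hν
      have h9 : ∀ y, ν (Option.some y) = 0 := fun y => DFunLike.congr_fun hν.2 y
      refine absurd ?_ hne
      ext o
      cases o
      · simpa [h9] using hν.1
      · simp [h9]
  refine HasVal.val_eq ⟨1, ?_, by simp⟩
  rw [kser, h3, Finset.prod_empty, mul_one, mul_comm, PowerSeries.mk_one_mul_one_sub_eq_one,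
    Polynomial.coe_one]

theorem coeff_mul_of_dvd {B : Type*} [CommRing B] {m n : ℕ} {f g : PowerSeries B}
    (hf : PowerSeries.X ^ m ∣ f) (hg : PowerSeries.X ^ n ∣ g) :
    PowerSeries.coeff (m + n) (f * g) = PowerSeries.coeff m f * PowerSeries.coeff n g := by
  obtain ⟨f, rfl⟩ := hf
  obtain ⟨g, rfl⟩ := hg
  rw [mul_mul_mul_comm, ← pow_add]
  simp [PowerSeries.coeff_X_pow_mul']

theorem kap_pos (l : ℤ →+ ℚ) {w : σ → ℤ} (hw : ∀ y, l (w y) < 0) (T : Finset σ) :
    ∀ (n : ℕ) (I : Ideal (MvPolynomial σ k)), Gr w I → (∀ y ∉ T, X y ∈ I) →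
      ((n + Fintype.card σ : ℕ) : ℕ∞) ≤ I.height + T.card →
      0 ≤ PowerSeries.coeff n (kap (fun y => ex (l (w y))) T I) ∧
      ∀ r, Up I r → T.card ≤ n + r → 0 < PowerSeries.coeff n (kap (fun y => ex (l (w y))) T I) := by
  classical
  have he := isChar_ex l
  have hx : ∀ y, PowerSeries.X ^ 1 ∣ 1 - ex (l (w y)) := fun y => by
    rw [pow_one, PowerSeries.X_dvd_iff, map_sub, constantCoeff_ex]
    simp
  have hdvd : ∀ (T : Finset σ) (n : ℕ) (I : Ideal (MvPolynomial σ k)), Gr w I →
      (∀ y ∉ T, X y ∈ I) → ((n + Fintype.card σ : ℕ) : ℕ∞) ≤ I.height + T.card →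
      PowerSeries.X ^ n ∣ kap (fun y => ex (l (w y))) T I := fun T n I h1 h2 h3 => by
    have := kap_mem_pow he (a := Ideal.span {PowerSeries.X})
      (fun y => Ideal.mem_span_singleton.mpr (by simpa only [pow_one] using hx y)) T n I h1 h2 h3
    rwa [Ideal.span_singleton_pow, Ideal.mem_span_singleton] at this
  induction T using Finset.induction_on with
  | empty =>
    intro n I _ h0 h
    by_cases ht : I = ⊤
    · exact ⟨by simp [ht, kap_top], fun r hr => absurd ht hr.ne_top⟩
    have h1 := Ideal.height_le_ringKrullDim_of_ne_top ht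
    rw [MvPolynomial.ringKrullDim_of_isNoetherianRing, ringKrullDim_eq_zero_of_field, zero_add,
      Nat.card_eq_fintype_card] at h1
    have h2 : I.height ≤ Fintype.card σ := by exact_mod_cast h1
    rw [Finset.card_empty, Nat.cast_zero, add_zero] at h
    have h3 : n + Fintype.card σ ≤ Fintype.card σ := by exact_mod_cast h.trans h2
    obtain rfl : n = 0 := by omega
    rw [kap_empty _ (fun y => h0 y (Finset.notMem_empty y)) ht]
    simp
  | insert y T hy ih =>
    intro n I hI
    refine pfi w (Q := fun I => (∀ z ∉ insert y T, X z ∈ I) →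
      ((n + Fintype.card σ : ℕ) : ℕ∞) ≤ I.height + (insert y T).card →
      0 ≤ PowerSeries.coeff n (kap (fun y => ex (l (w y))) (insert y T) I) ∧
      ∀ r, Up I r → (insert y T).card ≤ n + r →
        0 < PowerSeries.coeff n (kap (fun y => ex (l (w y))) (insert y T) I))
      (fun _ _ => ⟨by simp [kap_top], fun r hr => absurd rfl hr.ne_top⟩) ?_ I hI
    intro I g γ hI hg hgI hp hQ h1 h2
    have hle : I ≤ I.colon {g} := fun f hf =>
      Submodule.mem_colon_singleton.mpr (I.mul_mem_right _ hf)
    have h2' : ((n + Fintype.card σ : ℕ) : ℕ∞) ≤ (I.colon {g}).height + (insert y T).card :=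
      h2.trans (by gcongr)
    have h1' : ∀ z ∉ insert y T, X z ∈ I.colon {g} := fun z hz => hle (h1 z hz)
    have h0 := coeff_mul_of_dvd (m := 0) (f := ex (l γ)) (by simp)
      (hdvd _ _ _ (hI.colon hg) h1' h2')
    rw [zero_add, PowerSeries.coeff_zero_eq_constantCoeff, constantCoeff_ex, one_mul] at h0
    rw [kap_add he hI h1 hg fun h => hgI (h ▸ I.zero_mem), map_add, h0]
    obtain ⟨hQ1, hQ2⟩ := hQ (fun z hz => Ideal.mem_sup_left (h1 z hz))
      (h2.trans (by gcongr; exact le_sup_left))
    suffices H : 0 ≤ PowerSeries.coeff n (kap (fun y => ex (l (w y))) (insert y T) (I.colon {g})) ∧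
        ∀ r, Up (I.colon {g}) r → (insert y T).card ≤ n + r → 0 < PowerSeries.coeff n
          (kap (fun y => ex (l (w y))) (insert y T) (I.colon {g})) from
      ⟨add_nonneg hQ1 H.1, fun r hr hc => (hr.split g).elim
        (fun h => add_pos_of_pos_of_nonneg (hQ2 r h hc) H.1)
        fun h => add_pos_of_nonneg_of_pos hQ1 (H.2 r h hc)⟩
    rw [Finset.card_insert_of_notMem hy] at h2' ⊢
    have h4 : ∀ z ∉ T, z = y ∨ X z ∈ I.colon {g} := fun z hz =>
      or_iff_not_imp_left.mpr fun hzy => h1' z (by simp [hz, hzy])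
    by_cases hX : X y ∈ I.colon {g}
    · have h5 : ∀ z ∉ T, X z ∈ I.colon {g} := fun z hz => (h4 z hz).elim (fun h => h ▸ hX) id
      rw [kap_insert_mem he hy (hI.colon hg) h5]
      cases n with
      | zero =>
        refine ⟨by simp [constantCoeff_ex], fun r hr hc => ?_⟩
        have h6 := hr.ht
        have h7 := (ht_cs (k := k) Tᶜ).symm.le.trans (Ideal.height_mono (cs_le (I := I.colon {g})
          fun z hz => h5 z (by simpa using hz)))
        have h8 : Tᶜ.card + r ≤ Fintype.card σ := by
          exact_mod_cast (add_le_add_left h7 (r : ℕ∞)).trans h6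
        have := T.card_add_card_compl
        omega
      | succ n =>
        have h3 : ((n + Fintype.card σ : ℕ) : ℕ∞) ≤ (I.colon {g}).height + T.card := by
          rw [add_right_comm, Nat.cast_add, Nat.cast_one, Nat.cast_add T.card, Nat.cast_one,
            ← add_assoc] at h2'
          exact (ENat.add_le_add_iff_right ENat.one_ne_top).mp h2'
        have h6 : 0 < PowerSeries.coeff 1 (1 - ex (l (w y))) := by
          simpa [ex, PowerSeries.coeff_rescale, PowerSeries.coeff_one] using hw y
        obtain ⟨h7, h8⟩ := ih n _ (hI.colon hg) h5 h3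
        rw [add_comm n 1, coeff_mul_of_dvd (hx y) (hdvd _ _ _ (hI.colon hg) h5 h3)]
        exact ⟨mul_nonneg h6.le h7, fun r hr hc => mul_pos h6 (h8 r hr (by omega))⟩
    · rw [kap_insert_notMem he hy (hI.colon hg) h1' hX]
      obtain ⟨h7, h8⟩ := ih n _ ((hI.colon hg).sup_span (isWeightedHomogeneous_X k w y))
        (fun z hz => by
          rcases h4 z hz with rfl | h
          · exact Ideal.mem_sup_right (Ideal.mem_span_singleton_self _)
          · exact Ideal.mem_sup_left h) (h2'.trans (by
            rw [Nat.cast_add, Nat.cast_one, add_comm (T.card : ℕ∞), ← add_assoc]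
            gcongr
            exact ht_sup hX))
      exact ⟨h7, fun r hr hc => h8 _ (hr.cut y) (by omega)⟩

theorem cls_pos {d r : ℕ} {I : Ideal (MvPolynomial σ k)} (hI : Gr (fun _ => (-1 : ℤ)) I)
    (hd : (d : ℕ∞) ≤ I.height) (hr : Up I r) (h : Fintype.card σ ≤ d + r) :
    0 < cls d (fun _ => (-1 : ℚ)) I := by
  have := (kap_pos (Int.castAddHom ℚ) (fun _ => by simp) Finset.univ d I hI
    (fun y hy => absurd (Finset.mem_univ y) hy) (by
      rw [Finset.card_univ, Nat.cast_add]
      gcongr)).2 r hr h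
  simpa [cls] using this

end Pool.Agent.MP_52bf41_ag.H1
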