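import Mathlib

/-! Multigraded Hilbert series of ideals in polynomial rings, through leading monomials. -/

namespace Pool.Agent.MP_52bf41_ag.H1

open MvPolynomial Finsupp

variable {τ k : Type*} [Field k]

section Grading

variable {Γ : Type*} [AddCommGroup Γ]

/-- Ideals containing the homogeneous components of their elements. -/
def Gr (W : τ → Γ) (I : Ideal (MvPolynomial τ k)) : Prop :=
  ∀ γ, ∀ f ∈ I, weightedHomogeneousComponent W γ f ∈ I

theorem comp_mul {W : τ → Γ} {g : MvPolynomial τ k} {δ : Γ} (hg : IsWeightedHomogeneous W g δ)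
    (γ : Γ) (f : MvPolynomial τ k) :
    weightedHomogeneousComponent W γ (g * f) = g * weightedHomogeneousComponent W (γ - δ) f := by
  classical
  induction f using MvPolynomial.induction_on' with
  | monomial μ c =>
    have h1 := isWeightedHomogeneous_monomial W μ c rfl
    rw [weightedHomogeneousComponent_of_mem (hg.mul h1), weightedHomogeneousComponent_of_mem h1]
    simp only [sub_eq_iff_eq_add', mul_ite, mul_zero]
  | add p q hp hq => simp only [mul_add, map_add, hp, hq]

theorem Gr.top (W : τ → Γ) : Gr W (⊤ : Ideal (MvPolynomial τ k)) := fun _ _ _ => trivial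

theorem Gr.inf {W : τ → Γ} {I J : Ideal (MvPolynomial τ k)} (hI : Gr W I) (hJ : Gr W J) :
    Gr W (I ⊓ J) := fun γ f hf => ⟨hI γ f hf.1, hJ γ f hf.2⟩

theorem Gr.colon {W : τ → Γ} {J : Ideal (MvPolynomial τ k)} (hJ : Gr W J) {g : MvPolynomial τ k}
    {δ : Γ} (hg : IsWeightedHomogeneous W g δ) : Gr W (J.colon {g}) := by
  intro γ f hf
  rw [Submodule.mem_colon_singleton, smul_eq_mul, mul_comm] at hf ⊢
  have := hJ (γ + δ) _ hf
  rwa [comp_mul hg, add_sub_cancel_right] at this

theorem mem_sup_mul {I J : Ideal (MvPolynomial τ k)} {g f : MvPolynomial τ k} :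
    f ∈ J ⊔ Ideal.span {g} * I ↔ ∃ a ∈ J, ∃ b ∈ I, a + g * b = f := by
  rw [Submodule.mem_sup]
  constructor
  · rintro ⟨a, ha, c, hc, rfl⟩
    obtain ⟨b, hb, rfl⟩ := Ideal.mem_span_singleton_mul.mp hc
    exact ⟨a, ha, b, hb, rfl⟩
  · rintro ⟨a, ha, b, hb, rfl⟩
    exact ⟨a, ha, _, Ideal.mem_span_singleton_mul.mpr ⟨b, hb, rfl⟩, rfl⟩

theorem Gr.sup_mul {W : τ → Γ} {I J : Ideal (MvPolynomial τ k)} (hJ : Gr W J) (hI : Gr W I)
    {g : MvPolynomial τ k} {δ : Γ} (hg : IsWeightedHomogeneous W g δ) :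
    Gr W (J ⊔ Ideal.span {g} * I) := by
  intro γ f hf
  obtain ⟨a, ha, b, hb, rfl⟩ := mem_sup_mul.mp hf
  rw [map_add, comp_mul hg]
  exact mem_sup_mul.mpr ⟨_, hJ _ _ ha, _, hI _ _ hb, rfl⟩

/-- The homogeneous part of an ideal. -/
noncomputable def part (W : τ → Γ) (I : Ideal (MvPolynomial τ k)) (γ : Γ) :
    Submodule k (MvPolynomial τ k) := I.restrictScalars k ⊓ weightedHomogeneousSubmodule k W γ

theorem mem_part {W : τ → Γ} {I : Ideal (MvPolynomial τ k)} {γ : Γ} {f : MvPolynomial τ k} :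
    f ∈ part W I γ ↔ f ∈ I ∧ IsWeightedHomogeneous W f γ := Iff.rfl

theorem finrank_part_add {W : τ → Γ} {I J : Ideal (MvPolynomial τ k)} (hJ : Gr W J) (hI : Gr W I)
    {g : MvPolynomial τ k} {δ : Γ} (hg : IsWeightedHomogeneous W g δ) (hg0 : g ≠ 0) (γ : Γ)
    [Module.Finite k (part W J (γ + δ))] [Module.Finite k (part W I γ)] :
    Module.finrank k (part W (J ⊔ Ideal.span {g} * I) (γ + δ)) +
      Module.finrank k (part W (I ⊓ J.colon {g}) γ) =
    Module.finrank k (part W J (γ + δ)) + Module.finrank k (part W I γ) := by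
  have hinj : Function.Injective (LinearMap.mulLeft k g) := mul_right_injective₀ hg0
  have h1 : part W (J ⊔ Ideal.span {g} * I) (γ + δ) =
      part W J (γ + δ) ⊔ (part W I γ).map (LinearMap.mulLeft k g) := by
    refine le_antisymm (fun f hf => ?_) (sup_le (fun f hf => ⟨Ideal.mem_sup_left hf.1, hf.2⟩) ?_)
    · obtain ⟨a, ha, b, hb, rfl⟩ := mem_sup_mul.mp hf.1
      rw [← weightedHomogeneousComponent_eq_self hf.2, map_add, comp_mul hg, add_sub_cancel_right]
      exact Submodule.add_mem_sup ⟨hJ _ _ ha, weightedHomogeneousComponent_mem _ _ _⟩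
        ⟨_, ⟨hI _ _ hb, weightedHomogeneousComponent_mem _ _ _⟩, rfl⟩
    · rintro _ ⟨b, hb, rfl⟩
      exact ⟨mem_sup_mul.mpr ⟨0, J.zero_mem, b, hb.1, zero_add _⟩, add_comm δ γ ▸ hg.mul hb.2⟩
  have h2 : part W J (γ + δ) ⊓ (part W I γ).map (LinearMap.mulLeft k g) =
      (part W (I ⊓ J.colon {g}) γ).map (LinearMap.mulLeft k g) := by
    refine le_antisymm ?_ ?_
    · rintro _ ⟨h, b, hb, rfl⟩
      exact ⟨b, ⟨⟨hb.1, Submodule.mem_colon_singleton.mpr (by
        rw [smul_eq_mul, mul_comm]; exact h.1)⟩, hb.2⟩, rfl⟩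
    · rintro _ ⟨b, hb, rfl⟩
      have := Submodule.mem_colon_singleton.mp hb.1.2
      rw [smul_eq_mul, mul_comm] at this
      exact ⟨⟨this, add_comm δ γ ▸ hg.mul hb.2⟩, b, ⟨hb.1.1, hb.2⟩, rfl⟩
  rw [h1, (Submodule.equivMapOfInjective _ hinj (part W (I ⊓ J.colon {g}) γ)).finrank_eq,
    (Submodule.equivMapOfInjective _ hinj (part W I γ)).finrank_eq, ← h2,
    Submodule.finrank_sup_add_finrank_inf_eq]

end Grading

variable [Fintype τ]

noncomputable def rk (τ : Type*) [Fintype τ] : (τ →₀ ℕ) → ℕ :=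
  (exists_injective_nat (τ →₀ ℕ)).choose

theorem rk_injective : Function.Injective (rk τ) := (exists_injective_nat (τ →₀ ℕ)).choose_spec

/-- Leading monomials of the elements of an ideal. -/
def lead (I : Ideal (MvPolynomial τ k)) : Set (τ →₀ ℕ) :=
  {μ | ∃ f ∈ I, μ ∈ f.support ∧ ∀ ν ∈ f.support, rk τ ν ≤ rk τ μ}

theorem lead_mono {I J : Ideal (MvPolynomial τ k)} (h : J ≤ I) : lead J ⊆ lead I :=
  fun _ ⟨f, hf, h'⟩ => ⟨f, h hf, h'⟩

theorem mem_lead_of_comp {Γ : Type*} [AddCommGroup Γ] {W : τ → Γ} {J : Ideal (MvPolynomial τ k)}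
    {μ : τ →₀ ℕ} {f : MvPolynomial τ k} (h1 : μ ∈ f.support)
    (h2 : ∀ ν ∈ f.support, rk τ ν ≤ rk τ μ) :
    μ ∈ (weightedHomogeneousComponent W (weight W μ) f).support ∧
      ∀ ν ∈ (weightedHomogeneousComponent W (weight W μ) f).support, rk τ ν ≤ rk τ μ := by
  classical
  rw [support_weightedHomogeneousComponent]
  exact ⟨Finset.mem_filter.mpr ⟨h1, rfl⟩, fun ν hν => h2 ν (Finset.mem_filter.mp hν).1⟩

open Classical in
theorem card_lead {Γ : Type*} [AddCommGroup Γ] {W : τ → Γ} {I : Ideal (MvPolynomial τ k)}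
    (hI : Gr W I) {γ : Γ} {T : Finset (τ →₀ ℕ)} (hT : ∀ μ, μ ∈ T ↔ weight W μ = γ) :
    Module.Finite k (part W I γ) ∧
      (T.filter (· ∈ lead I)).card = Module.finrank k (part W I γ) := by
  let π : part W I γ →ₗ[k] (T.filter (· ∈ lead I) → k) :=
    LinearMap.pi fun μ => (lcoeff k μ.1).comp (part W I γ).subtype
  have hπ : Function.Injective π := by
    rw [injective_iff_map_eq_zero]
    intro f hf
    by_contra h0
    have h1 : f.1.support.Nonempty := support_nonempty.mpr fun h => h0 (Subtype.ext h)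
    obtain ⟨μ, hμ, hmax⟩ := Finset.exists_max_image _ (rk τ) h1
    exact MvPolynomial.mem_support_iff.mp hμ (congrFun hf ⟨μ, Finset.mem_filter.mpr
      ⟨(hT μ).mpr (f.2.2 (MvPolynomial.mem_support_iff.mp hμ)), f.1, f.2.1, hμ, hmax⟩⟩)
  have hfin : Module.Finite k (part W I γ) := Module.Finite.of_injective π hπ
  refine ⟨hfin, le_antisymm ?_ ?_⟩
  · have hex : ∀ μ : T.filter (· ∈ lead I), ∃ f : part W I γ, μ.1 ∈ f.1.support ∧
        ∀ ν ∈ f.1.support, rk τ ν ≤ rk τ μ := by
      intro μ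
      obtain ⟨h1, f, hf, h2, h3⟩ := Finset.mem_filter.mp μ.2
      refine ⟨⟨weightedHomogeneousComponent W γ f, hI _ _ hf,
        weightedHomogeneousComponent_mem _ _ _⟩, ?_⟩
      rw [← (hT _).mp h1]
      exact mem_lead_of_comp (J := I) h2 h3
    choose f hf1 hf2 using hex
    have hli : LinearIndependent k f := by
      rw [Fintype.linearIndependent_iff]
      intro c hc
      by_contra hne
      push Not at hne
      obtain ⟨μ, hμ, hmax⟩ := Finset.exists_max_image (Finset.univ.filter fun μ => c μ ≠ 0)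
        (fun μ => rk τ μ.1) ⟨hne.choose, by simpa using hne.choose_spec⟩
      have h1 := congrArg (fun g : part W I γ => coeff μ.1 g.1) hc
      simp only [Submodule.coe_sum, Submodule.coe_smul, coeff_sum, coeff_smul, smul_eq_mul,
        Submodule.coe_zero, coeff_zero] at h1
      rw [Finset.sum_eq_single μ (fun ν _ hν => ?_) (by simp)] at h1
      · exact mul_ne_zero (Finset.mem_filter.mp hμ).2 (MvPolynomial.mem_support_iff.mp (hf1 μ)) h1
      · by_contra h2
        have h3 := hf2 ν μ.1 (MvPolynomial.mem_support_iff.mpr (right_ne_zero_of_mul h2))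
        have h4 := hmax ν (by simpa using left_ne_zero_of_mul h2)
        exact hν (Subtype.ext (rk_injective (le_antisymm h4 h3)))
    simpa using hli.fintype_card_le_finrank
  · simpa using LinearMap.finrank_le_finrank_of_injective hπ

open Classical in
noncomputable def mons (τ : Type*) [Fintype τ] (m : ℕ) : Finset (τ →₀ ℕ) :=
  Finset.univ.finsuppAntidiag m

theorem mem_mons {m : ℕ} {μ : τ →₀ ℕ} : μ ∈ mons τ m ↔ ∑ i, μ i = m := by
  simp [mons]

variable {Λ : Type*} [CommRing Λ]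

open Classical in
/-- The series of the leading monomials of an ideal, with weight `χ i` on the variable `i`. -/
noncomputable def ser (χ : τ → Λ) (I : Ideal (MvPolynomial τ k)) : PowerSeries Λ :=
  PowerSeries.mk fun m => ∑ μ ∈ (mons τ m).filter (· ∈ lead I), ∏ i, χ i ^ μ i

theorem ser_map {Λ' : Type*} [CommRing Λ'] (φ : Λ →+* Λ') (χ : τ → Λ)
    (I : Ideal (MvPolynomial τ k)) :
    PowerSeries.map φ (ser χ I) = ser (fun i => φ (χ i)) I := by
  ext m
  simp [ser]

variable {Γ : Type*} [AddCommGroup Γ]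

/-- Degree and weight. -/
def dw (w : τ → Γ) : τ → ℤ × Γ := fun i => (1, w i)

theorem weight_dw (w : τ → Γ) (μ : τ →₀ ℕ) :
    weight (dw w) μ = (((∑ i, μ i : ℕ) : ℤ), weight w μ) := by
  rw [weight_eq_sum, weight_eq_sum]
  ext <;> simp [dw, Prod.fst_sum, Prod.snd_sum]

open Classical in
theorem card_dw {w : τ → Γ} {I : Ideal (MvPolynomial τ k)} (hI : Gr (dw w) I) (γ : ℤ × Γ) :
    Module.Finite k (part (dw w) I γ) ∧
      (((mons τ γ.1.toNat).filter fun μ => weight (dw w) μ = γ).filter (· ∈ lead I)).card =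
        Module.finrank k (part (dw w) I γ) :=
  card_lead hI fun μ => by
    rw [Finset.mem_filter, and_iff_right_iff_imp, mem_mons, weight_dw]
    rintro rfl
    simp only [Int.toNat_natCast]

theorem finrank_part_neg {w : τ → Γ} {I : Ideal (MvPolynomial τ k)} (hI : Gr (dw w) I)
    {γ : ℤ × Γ} (h : γ.1 < 0) : Module.finrank k (part (dw w) I γ) = 0 := by
  classical
  rw [← (card_dw hI γ).2, Finset.card_eq_zero, Finset.filter_eq_empty_iff]
  intro μ hμ
  have := (Finset.mem_filter.mp hμ).2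
  rw [weight_dw] at this
  rw [← this] at h
  exact absurd h (not_lt.mpr (Int.natCast_nonneg _))

/-- A character of the weight group. -/
structure IsChar (e : Γ → Λ) : Prop where
  zero : e 0 = 1
  add : ∀ a b, e (a + b) = e a * e b

theorem IsChar.weight {e : Γ → Λ} (he : IsChar e) (w : τ → Γ) (μ : τ →₀ ℕ) :
    ∏ i, e (w i) ^ μ i = e (weight w μ) := by
  let φ : Multiplicative Γ →* Λ := ⟨⟨fun a => e a.toAdd, he.zero⟩, fun a b => he.add _ _⟩
  have : e (Finsupp.weight w μ) = φ (∏ i, Multiplicative.ofAdd (w i) ^ μ i) := by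
    rw [weight_eq_sum]
    change _ = e (Multiplicative.toAdd _)
    rw [toAdd_prod]
    rfl
  rw [this, map_prod]
  simp only [map_pow]
  rfl

theorem coeff_ser {e : Γ → Λ} (he : IsChar e) {w : τ → Γ} {I : Ideal (MvPolynomial τ k)}
    (hI : Gr (dw w) I) (m : ℕ) {S : Finset Γ} (hS : ∀ μ ∈ mons τ m, weight w μ ∈ S) :
    PowerSeries.coeff m (ser (fun i => e (w i)) I) =
      ∑ γ ∈ S, (Module.finrank k (part (dw w) I (m, γ)) : Λ) * e γ := by
  classical
  rw [ser, PowerSeries.coeff_mk, ← Finset.sum_fiberwise_of_maps_to (g := weight w) (t := S)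
    fun μ hμ => hS μ (Finset.mem_filter.mp hμ).1]
  refine Finset.sum_congr rfl fun γ _ => ?_
  rw [← (card_dw hI (m, γ)).2, Finset.sum_congr rfl (g := fun _ => e γ) fun μ hμ => by
    rw [he.weight, (Finset.mem_filter.mp hμ).2], Finset.sum_const, nsmul_eq_mul]
  congr 3
  ext μ
  simp only [Finset.mem_filter, Int.toNat_natCast, weight_dw, Prod.mk.injEq, mem_mons,
    Nat.cast_inj]
  tauto

theorem ser_add {e : Γ → Λ} (he : IsChar e) {w : τ → Γ} {I J : Ideal (MvPolynomial τ k)}
    (hJ : Gr (dw w) J) (hI : Gr (dw w) I) {g : MvPolynomial τ k} {n : ℕ} {δ : Γ}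
    (hg : IsWeightedHomogeneous (dw w) g (n, δ)) (hg0 : g ≠ 0) :
    ser (fun i => e (w i)) (J ⊔ Ideal.span {g} * I) - ser (fun i => e (w i)) J =
      PowerSeries.X ^ n * (PowerSeries.C (e δ) *
        (ser (fun i => e (w i)) I - ser (fun i => e (w i)) (I ⊓ J.colon {g}))) := by
  classical
  have key : ∀ γ : ℤ × Γ, _ := fun γ =>
    haveI := (card_dw hJ (γ + ((n : ℤ), δ))).1
    haveI := (card_dw hI γ).1
    finrank_part_add hJ hI hg hg0 γ
  have h1 := hJ.sup_mul hI hg
  have h2 := hI.inf (hJ.colon hg)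
  ext m
  rw [PowerSeries.coeff_X_pow_mul', map_sub]
  split_ifs with hm
  · let S := (mons τ (m - n)).image (weight w) ∪ (mons τ m).image fun μ => weight w μ - δ
    have hS : ∀ μ ∈ mons τ (m - n), weight w μ ∈ S := fun μ hμ =>
      Finset.mem_union_left _ (Finset.mem_image_of_mem _ hμ)
    have hS' : ∀ μ ∈ mons τ m, weight w μ ∈ S.image (· + δ) := fun μ hμ =>
      Finset.mem_image.mpr ⟨_, Finset.mem_union_right _ (Finset.mem_image_of_mem _ hμ),
        sub_add_cancel _ _⟩
    rw [PowerSeries.coeff_C_mul, map_sub, coeff_ser he h1 m hS', coeff_ser he hJ m hS',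
      coeff_ser he hI _ hS, coeff_ser he h2 _ hS, ← Finset.sum_sub_distrib,
      ← Finset.sum_sub_distrib, Finset.mul_sum,
      Finset.sum_image fun _ _ _ _ h => add_right_cancel h]
    refine Finset.sum_congr rfl fun γ _ => ?_
    have h3 := congrArg (Nat.cast : ℕ → Λ) (key (((m - n : ℕ) : ℤ), γ))
    have h4 : (((m - n : ℕ) : ℤ), γ) + ((n : ℤ), δ) = ((m : ℤ), γ + δ) := by
      rw [Prod.mk_add_mk, ← Nat.cast_add, Nat.sub_add_cancel hm]
    rw [h4] at h3
    push_cast at h3
    rw [he.add]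
    linear_combination (e γ * e δ) * h3
  · have hS : ∀ μ ∈ mons τ m, weight w μ ∈ (mons τ m).image (weight w) := fun μ hμ =>
      Finset.mem_image_of_mem _ hμ
    rw [coeff_ser he h1 m hS, coeff_ser he hJ m hS, sub_eq_zero]
    refine Finset.sum_congr rfl fun γ _ => ?_
    have h3 := key ((m : ℤ) - n, γ - δ)
    rw [finrank_part_neg hI (by simp only; omega), finrank_part_neg h2 (by simp only; omega),
      Prod.mk_add_mk, sub_add_cancel, sub_add_cancel, add_zero, add_zero] at h3
    rw [h3]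

theorem exists_poly {w : τ → Γ} (χ : τ → Λ) {I J : Ideal (MvPolynomial τ k)} (hI : Gr (dw w) I)
    (hle : J ≤ I) {n : ℕ} (h : ∀ μ : τ →₀ ℕ, n ≤ ∑ i, μ i → ∀ f ∈ I, monomial μ 1 * f ∈ J) :
    ∃ P : Polynomial Λ, (P : PowerSeries Λ) = ser χ I - ser χ J := by
  classical
  obtain ⟨s, hs⟩ := (isNoetherianRing_iff_ideal_fg _).mp inferInstance I
  let m0 := s.sup totalDegree
  have h1 : ∀ f ∈ Ideal.span (s : Set (MvPolynomial τ k)), ∀ a, ∀ γ : ℤ × Γ,
      ((m0 + n : ℕ) : ℤ) ≤ γ.1 → weightedHomogeneousComponent (dw w) γ (a * f) ∈ J := by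
    intro f hf
    induction hf using Submodule.span_induction with
    | mem g hg =>
      intro a γ hγ
      induction a using MvPolynomial.induction_on' with
      | monomial μ c =>
        rw [comp_mul (isWeightedHomogeneous_monomial (dw w) μ c rfl)]
        by_cases h0 : weightedHomogeneousComponent (dw w) (γ - weight (dw w) μ) g = 0
        · rw [h0, mul_zero]
          exact J.zero_mem
        obtain ⟨ν, hν⟩ := support_nonempty.mpr h0
        rw [support_weightedHomogeneousComponent, Finset.mem_filter] at hν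
        have h2 : ∑ i, ν i ≤ m0 := by
          have := (le_totalDegree hν.1).trans (Finset.le_sup (f := totalDegree) hg)
          rwa [Finsupp.sum_fintype _ _ fun _ => rfl] at this
        have h3 := congrArg Prod.fst hν.2
        simp only [weight_dw, Prod.fst_sub] at h3
        rw [← mul_one c, ← C_mul_monomial, mul_assoc]
        exact J.mul_mem_left _ (h μ (by omega) _ (hI _ _ (hs ▸ Ideal.subset_span hg)))
      | add p q hp hq =>
        rw [add_mul, map_add]
        exact J.add_mem hp hq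
    | zero => intro a γ _; simp
    | add x y _ _ hx hy =>
      intro a γ hγ
      rw [mul_add, map_add]
      exact J.add_mem (hx a γ hγ) (hy a γ hγ)
    | smul b x _ hx =>
      intro a γ hγ
      rw [smul_eq_mul, ← mul_assoc]
      exact hx _ γ hγ
  refine ⟨PowerSeries.trunc (m0 + n) (ser χ I - ser χ J), ?_⟩
  ext m
  rw [Polynomial.coeff_coe, PowerSeries.coeff_trunc]
  split_ifs with hm
  · rfl
  rw [map_sub, ser, ser, PowerSeries.coeff_mk, PowerSeries.coeff_mk, eq_comm, sub_eq_zero]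
  refine Finset.sum_congr (Finset.filter_congr fun μ hμ => ⟨?_, fun h => lead_mono hle h⟩)
    fun _ _ => rfl
  rintro ⟨f, hf, h2, h3⟩
  refine ⟨_, ?_, mem_lead_of_comp (W := dw w) (J := J) h2 h3⟩
  have := h1 f (hs ▸ hf) 1 (weight (dw w) μ) (by
    rw [weight_dw, mem_mons.mp hμ]
    exact Int.ofNat_le.mpr (not_lt.mp hm))
  rwa [one_mul] at this

end Pool.Agent.MP_52bf41_ag.H1
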