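import Pool.Agent.MP_52bf41_ag.H1.Test

/-! The class of a determinantal cycle is a multiple of a product of elementary symmetric
functions. -/

namespace Pool.Agent.MP_52bf41_ag.H1

open MvPolynomial Finsupp

theorem sym_shape {β ι α : Type*} [Fintype β] [Fintype ι] [Fintype α] {s : ι × α → β}
    (hs : Function.Injective s) {j : ι → ℕ} {P : MvPolynomial β ℚ}
    (hdeg : ∀ μ ∈ P.support, ∑ y, μ y = ∑ B, j B)
    (hvan : ∀ μ ∈ P.support, ∀ B, j B ≤ (Finset.univ.filter fun a => μ (s (B, a)) ≠ 0).card)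
    (hsym : ∀ τ : ι → Equiv.Perm α, ∃ π : β ≃ β, (∀ B a, π (s (B, a)) = s (B, τ B a)) ∧
      rename π P = P) :
    ∃ c : ℚ, ∀ v : β → ℚ, aeval v P =
      c * ∏ B, ∑ S ∈ Finset.univ.powersetCard (j B), ∏ a ∈ S, v (s (B, a)) := by
  classical
  let mon : (ι → Finset α) → β →₀ ℕ := fun S => ∑ B, ∑ a ∈ S B, single (s (B, a)) 1
  let 𝒮 := Fintype.piFinset fun B => (Finset.univ : Finset α).powersetCard (j B)
  have h0 : ∀ S B a, mon S (s (B, a)) = if a ∈ S B then 1 else 0 := fun S B a => by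
    simp only [mon, Finsupp.finsetSum_apply, single_apply, hs.eq_iff, Prod.mk.injEq]
    rw [Finset.sum_eq_single B (fun B' _ h => by simp [h]) (by simp)]
    simp
  have h1 : ∀ μ ∈ P.support, ∃ S ∈ 𝒮, mon S = μ := fun μ hμ => by
    let S : ι → Finset α := fun B => Finset.univ.filter fun a => μ (s (B, a)) ≠ 0
    have h2 : ∀ y ∈ Finset.univ, mon S y ≤ μ y := fun y _ => by
      by_cases hy : ∃ p, s p = y
      · obtain ⟨⟨B, a⟩, rfl⟩ := hy
        rw [h0]
        split_ifs with h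
        · exact Nat.pos_of_ne_zero (Finset.mem_filter.mp h).2
        · exact Nat.zero_le _
      · push Not at hy
        simp [mon, Finsupp.finsetSum_apply, single_apply, hy]
    have h3 : ∑ y, mon S y = ∑ B, (S B).card := by
      simp only [mon, Finsupp.finsetSum_apply]
      rw [Finset.sum_comm]
      refine Finset.sum_congr rfl fun B _ => ?_
      rw [Finset.sum_comm]
      simp [single_apply]
    have h4 := Finset.sum_le_sum h2
    have h5 : ∀ B ∈ Finset.univ, j B ≤ (S B).card := fun B _ => hvan μ hμ B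
    have h6 := Finset.sum_le_sum h5
    have h7 := hdeg μ hμ
    refine ⟨S, Fintype.mem_piFinset.mpr fun B => Finset.mem_powersetCard_univ.mpr
      ((Finset.sum_eq_sum_iff_of_le h5).mp (by omega) B (Finset.mem_univ B)).symm,
      Finsupp.ext fun y => (Finset.sum_eq_sum_iff_of_le h2).mp (by omega) y (Finset.mem_univ y)⟩
  have h2 : ∀ S ∈ 𝒮, ∀ S' ∈ 𝒮, coeff (mon S) P = coeff (mon S') P := fun S hS S' hS' => by
    choose τ hτ using fun B => Equiv.Perm.exists_map_finset_eq (S B) (S' B)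
      ((Finset.mem_powersetCard_univ.mp (Fintype.mem_piFinset.mp hS B)).trans
        (Finset.mem_powersetCard_univ.mp (Fintype.mem_piFinset.mp hS' B)).symm)
    obtain ⟨π, h3, h4⟩ := hsym τ
    rw [← coeff_rename_mapDomain π π.injective, h4]
    congr 1
    simp only [mon, mapDomain_finsetSum, mapDomain_single, h3, ← hτ, Finset.sum_map,
      Equiv.coe_toEmbedding]
  have h3 : Function.Injective mon := fun S S' h => funext fun B => Finset.ext fun a => by
    have := h0 S B a
    rw [h, h0] at this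
    by_contra h'
    split_ifs at this <;> tauto
  obtain ⟨c, hc⟩ : ∃ c, ∀ S ∈ 𝒮, coeff (mon S) P = c := by
    rcases 𝒮.eq_empty_or_nonempty with h | ⟨S, hS⟩
    · exact ⟨0, by simp [h]⟩
    · exact ⟨_, fun S' hS' => h2 S' hS' S hS⟩
  refine ⟨c, fun v => ?_⟩
  have h4 : P = ∑ S ∈ 𝒮, monomial (mon S) c := by
    conv_lhs => rw [P.as_sum]
    rw [Finset.sum_subset (s₂ := 𝒮.image mon) (fun μ hμ => Finset.mem_image.mpr (h1 μ hμ))
      fun μ _ h => by rw [MvPolynomial.notMem_support_iff.mp h, map_zero],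
      Finset.sum_image fun _ _ _ _ h => h3 h]
    exact Finset.sum_congr rfl fun S hS => by rw [hc S hS]
  rw [h4, Finset.prod_univ_sum, Finset.mul_sum, map_sum]
  refine Finset.sum_congr rfl fun S _ => ?_
  rw [← mul_one c, ← C_mul_monomial, map_mul, aeval_C, mul_one]
  simp only [mon, monomial_sum_one, map_prod, ← X_pow_eq_monomial, pow_one, aeval_X]
  rfl

theorem coeff_scale {β R : Type*} [Fintype β] [CommRing R] (t : β → R) (μ : β →₀ ℕ)
    (P : MvPolynomial β R) : coeff μ (aeval (fun y => (C (t y) * X y : MvPolynomial β R)) P) =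
      (∏ y, t y ^ μ y) * coeff μ P := by
  classical
  induction P using MvPolynomial.induction_on' with
  | monomial ν c =>
    have : aeval (fun y => (C (t y) * X y : MvPolynomial β R)) (monomial ν c) =
        C (∏ y, t y ^ ν y) * monomial ν c := by
      rw [aeval_monomial, monomial_eq, Finsupp.prod_fintype _ _ (by simp),
        Finsupp.prod_fintype _ _ (by simp)]
      simp only [mul_pow, Finset.prod_mul_distrib, map_prod, map_pow, algebraMap_eq]
      ring
    rw [this, coeff_C_mul, coeff_monomial]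
    split_ifs with h <;> simp [h]
  | add p q hp hq => simp only [map_add, coeff_add, hp, hq, mul_add]

section Cls

variable {σ k : Type*} [Field k] [Fintype σ] {B : Type*} [CommRing B] [Algebra ℚ B]
  {w : σ → B} {I : Ideal (MvPolynomial σ k)} {d : ℕ}

theorem isChar_id : IsChar (ex : B → PowerSeries B) := isChar_ex (AddMonoidHom.id B)

theorem cls_map {B' : Type*} [CommRing B'] [Algebra ℚ B'] (φ : B →+* B') (hI : Gr w I) :
    φ (cls d w I) = cls d (fun y => φ (w y)) I := by
  rw [cls, cls, ← PowerSeries.coeff_map, kap_map isChar_id _ hI]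
  simp only [map_ex]

theorem cls_scale (t : B) (hI : Gr w I) : cls d (fun y => w y * t) I = t ^ d * cls d w I := by
  rw [cls, cls, ← PowerSeries.coeff_rescale, kap_map isChar_id _ hI]
  simp only [ex, PowerSeries.rescale_rescale]

end Cls

variable {D N : ℕ} {ι : Type*} {ρ : ι × Fin (D + 1) ↪ Fin N} {k : Type*} [Field k] {i : ι → ℕ}

/-- Permutation of the columns in each block. -/
noncomputable def cp (ρ : ι × Fin (D + 1) ↪ Fin N) (τ : ι → Equiv.Perm (Fin (D + 1))) :
    Var D N ≃ Var D N :=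
  Equiv.prodShear (Equiv.refl _)
    (Function.extend (fun p => (Sum.inr (ρ p) : Fin D ⊕ Fin N)) (fun p => τ p.1) 1)

theorem cp_blk (τ : ι → Equiv.Perm (Fin (D + 1))) (B : ι) (l a : Fin (D + 1)) :
    cp ρ τ (Sum.inr (ρ (B, l)), a) = (Sum.inr (ρ (B, l)), τ B a) := by
  have := (Sum.inr_injective.comp ρ.injective).extend_apply (fun p => τ p.1)
    (1 : Fin D ⊕ Fin N → Equiv.Perm (Fin (D + 1))) (B, l)
  exact Prod.ext rfl (DFunLike.congr_fun this a)

theorem tp_rename (τ : ι → Equiv.Perm (Fin (D + 1))) (F : MvPolynomial (Var D N) k) :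
    rename (cp ρ τ) F ∈ tp ρ k i ↔ F ∈ tp ρ k i := by
  have key : ∀ c (x : Var D N → MvPolynomial (Var D N ⊕ ι × Fin (D + 1)) k),
      sub ρ i c x ∘ cp ρ τ = sub ρ i c (x ∘ cp ρ τ) := fun c x => by
    funext y
    rcases var_cases ρ y with ⟨B, a, rfl⟩ | h
    · simp only [Function.comp_apply, cp_blk, sub_sp]
    · rw [sub_not h, Function.comp_apply, sub_not (y := cp ρ τ y) h, Function.comp_apply]
  refine ⟨fun h => ?_, fun h => ?_⟩
  · have := tp_aeval h (fun p => (X (Sum.inr p) : MvPolynomial (Var D N ⊕ ι × Fin (D + 1)) k))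
      ((fun y => X (Sum.inl y)) ∘ (cp ρ τ).symm)
    rw [aeval_rename, key, Function.comp_assoc, Equiv.symm_comp_self, Function.comp_id] at this
    exact this
  · rw [tp, RingHom.mem_ker, aeval_rename, key]
    exact tp_aeval h _ _

section Van

variable {R : Type*} [CommRing R] [Algebra ℚ R] {w : Var D N → R} {d : ℕ}

theorem cls_cp (hw : Blk ρ w) (τ : ι → Equiv.Perm (Fin (D + 1))) :
    cls d (fun y => w (cp ρ τ y)) (tp ρ k i) = cls d w (tp ρ k i) := by
  rw [cls, cls, kap_rename isChar_id _ (tp_gr hw) (tp_rename τ)]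

theorem cls_vanish (hw : Blk ρ w) {B : ι} {Z : Finset (Fin (D + 1))} (hZ : i B < Z.card)
    (h : ∀ a ∈ Z, w (sp ρ (B, a)) = 0) : cls d w (tp ρ k i) = 0 := by
  have h1 : i B < D + 1 := hZ.trans_le (by simpa using Z.card_le_univ)
  obtain ⟨Z', h2, h3⟩ := Finset.exists_subset_card_eq (n := (Finset.Iic (⟨i B, h1⟩ :
    Fin (D + 1))).card) (s := Z) (by simpa using hZ)
  obtain ⟨τ, hτ⟩ := Equiv.Perm.exists_map_finset_eq _ _ h3.symm
  have hw' : Blk ρ fun y => w (cp ρ (fun _ => τ) y) := fun B l a => by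
    simp only [cp_blk, hw B l]
  obtain ⟨p, F, h4, h5, -, h6⟩ := exists_pt (ρ := ρ) (k := k) B ⟨i B, h1⟩
  rw [← cls_cp hw fun _ => τ, cls, kap_vanish isChar_id (tp_gr hw') (p := p) (fun y => ?_)
    (h4 i le_rfl) h5, map_zero]
  refine or_iff_not_imp_left.mpr fun hy => ?_
  obtain ⟨l, a, ha, rfl⟩ := h6 y hy
  rw [cp_blk, hw]
  exact h _ (h2 (hτ ▸ Finset.mem_map_of_mem _ (Finset.mem_Iic.mpr ha)))

end Van

/-- The entry of the last row of the same block and column. -/
noncomputable def rep (ρ : ι × Fin (D + 1) ↪ Fin N) (y : Var D N) : Var D N :=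
  (Function.extend (fun p => (Sum.inr (ρ p) : Fin D ⊕ Fin N))
    (fun p => Sum.inr (ρ (p.1, Fin.last D))) id y.1, y.2)

theorem rep_blk (B : ι) (l a : Fin (D + 1)) :
    rep ρ (Sum.inr (ρ (B, l)), a) = (Sum.inr (ρ (B, Fin.last D)), a) :=
  Prod.ext ((Sum.inr_injective.comp ρ.injective).extend_apply
    (fun p => Sum.inr (ρ (p.1, Fin.last D))) id (B, l)) rfl

theorem rep_cases (y : Var D N) : (∃ B l a, y = (Sum.inr (ρ (B, l)), a)) ∨
    rep ρ y = y ∧ ∀ τ, cp ρ τ y = y := by
  refine or_iff_not_imp_left.mpr fun h => ?_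
  have h1 : ¬∃ p, (Sum.inr (ρ p) : Fin D ⊕ Fin N) = y.1 := fun ⟨p, hp⟩ =>
    h ⟨p.1, p.2, y.2, Prod.ext hp.symm rfl⟩
  refine ⟨Prod.ext (Function.extend_apply'
    (fun p : ι × Fin (D + 1) => Sum.inr (ρ (p.1, Fin.last D))) id _ h1) rfl,
    fun τ => Prod.ext rfl ?_⟩
  exact DFunLike.congr_fun (Function.extend_apply' (fun p => τ p.1)
    (1 : Fin D ⊕ Fin N → Equiv.Perm (Fin (D + 1))) _ h1) y.2

theorem cls_tp [Fintype ι] {j : ι → ℕ} (hj : ∀ B, j B ≤ D + 1) : ∃ c : ℚ, c ≠ 0 ∧
    ∀ v : Var D N → ℚ, Blk ρ v → cls (∑ B, j B) v (tp ρ k fun B => D + 1 - j B) =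
      c * ∏ B, ∑ S ∈ Finset.univ.powersetCard (j B), ∏ a ∈ S, v (sp ρ (B, a)) := by
  classical
  have hw : Blk ρ fun y => (X (rep ρ y) : MvPolynomial (Var D N) ℚ) := fun B l a => by
    simp only [rep_blk]
  have hg := tp_gr (k := k) (i := fun B => D + 1 - j B) hw
  refine (sym_shape (sp_injective ρ) (j := j)
    (P := cls (∑ B, j B) (fun y => X (rep ρ y)) (tp ρ k fun B => D + 1 - j B))
    (fun μ hμ => ?_) (fun μ hμ B => ?_) fun τ => ⟨cp ρ τ, fun B a => cp_blk τ B _ a, ?_⟩).imp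
    fun c hc => ?_
  rotate_right
  · have h1 : ∀ v : Var D N → ℚ, Blk ρ v → cls (∑ B, j B) v (tp ρ k fun B => D + 1 - j B) =
        c * ∏ B, ∑ S ∈ Finset.univ.powersetCard (j B), ∏ a ∈ S, v (sp ρ (B, a)) := fun v hv => by
      rw [← hc]
      refine Eq.trans ?_ (cls_map (aeval v : MvPolynomial (Var D N) ℚ →ₐ[ℚ] ℚ).toRingHom hg).symm
      congr 1
      funext y
      rcases rep_cases (ρ := ρ) y with ⟨B, l, a, rfl⟩ | h
      · simp [rep_blk, hv B l]
      · simp [h.1]
    refine ⟨fun h => ?_, h1⟩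
    have := (tp_spec (ρ := ρ) (k := k) hj).2
    rw [h1 _ fun _ _ _ => rfl, h, zero_mul] at this
    exact lt_irrefl _ this
  · have h1 := cls_map (d := ∑ B, j B) (aeval fun y => (C (2 : ℚ) * X y : MvPolynomial (Var D N) ℚ) :
      MvPolynomial (Var D N) ℚ →ₐ[ℚ] _).toRingHom hg
    simp only [AlgHom.toRingHom_eq_coe, RingHom.coe_coe, aeval_X, mul_comm (C (2 : ℚ))] at h1
    rw [cls_scale _ hg] at h1
    have h2 := congrArg (coeff μ) h1
    simp only [mul_comm _ (C (2 : ℚ))] at h2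
    rw [coeff_scale (fun _ => (2 : ℚ)), ← map_pow, coeff_C_mul, Finset.prod_pow_eq_pow_sum] at h2
    exact pow_right_injective₀ (by norm_num) (by norm_num)
      (mul_right_cancel₀ (MvPolynomial.mem_support_iff.mp hμ) h2)
  · by_contra hlt
    let t : Var D N → ℚ := fun y => if μ y = 0 then 0 else 1
    have h1 := cls_map (d := ∑ B, j B) (aeval fun y => (C (t y) * X y : MvPolynomial (Var D N) ℚ) :
      MvPolynomial (Var D N) ℚ →ₐ[ℚ] _).toRingHom hg
    replace h1 := h1.trans (cls_vanish (B := B)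
      (Z := Finset.univ.filter fun a => ¬μ (sp ρ (B, a)) ≠ 0)
      (fun B l a => by simp only [rep_blk]) (by
        have := Finset.card_filter_add_card_filter_not (s := Finset.univ)
          fun a => μ (sp ρ (B, a)) ≠ 0
        have := hj B
        simp only [Finset.card_univ, Fintype.card_fin] at *
        omega) fun a ha => by
          have h2 : μ (sp ρ (B, a)) = 0 := by simpa using ha
          have h3 : rep ρ (sp ρ (B, a)) = sp ρ (B, a) := rep_blk B _ a
          simp [h3, t, h2])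
    have h2 := congrArg (coeff μ) h1
    rw [AlgHom.toRingHom_eq_coe, RingHom.coe_coe, coeff_scale, Finset.prod_eq_one fun y _ => by
      by_cases h : μ y = 0 <;> simp [t, h], one_mul, coeff_zero] at h2
    exact MvPolynomial.mem_support_iff.mp hμ h2
  · refine (cls_map (rename (cp ρ τ) : MvPolynomial (Var D N) ℚ →ₐ[ℚ] _).toRingHom hg).trans
      (Eq.trans ?_ (cls_cp hw τ))
    congr 1
    funext y
    rcases rep_cases (ρ := ρ) y with ⟨B, l, a, rfl⟩ | h
    · simp [rep_blk, cp_blk]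
    · simp [h.1, h.2]

end Pool.Agent.MP_52bf41_ag.H1
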