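import Pool.Agent.MP_52bf41_ag.H1.Pos

/-! Determinantal test cycles. -/

namespace Pool.Agent.MP_52bf41_ag.H1

open MvPolynomial Finsupp

theorem gr_ker {σ τ k Γ : Type*} [Field k] [AddCommGroup Γ] {w : σ → Γ} {W : τ → Γ}
    {ψ : σ → MvPolynomial τ k} (h : ∀ y, IsWeightedHomogeneous W (ψ y) (w y)) :
    Gr w (RingHom.ker (aeval ψ : MvPolynomial σ k →ₐ[k] MvPolynomial τ k)) := by
  classical
  have key : ∀ γ (F : MvPolynomial σ k), aeval ψ (weightedHomogeneousComponent w γ F) =
      weightedHomogeneousComponent W γ (aeval ψ F) := by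
    intro γ F
    induction F using MvPolynomial.induction_on' with
    | monomial μ c =>
      have h1 : IsWeightedHomogeneous W (aeval ψ (monomial μ c)) (weight w μ) := by
        rw [aeval_monomial, weight_apply]
        exact (IsWeightedHomogeneous.prod _ _ _ fun y _ => (h y).pow (μ y)).C_mul c
      rw [weightedHomogeneousComponent_of_mem h1,
        weightedHomogeneousComponent_of_mem (isWeightedHomogeneous_monomial w μ c rfl)]
      split_ifs
      · rfl
      · exact map_zero _
    | add p q hp hq => simp only [map_add, hp, hq]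
  intro γ F hF
  rw [RingHom.mem_ker] at hF ⊢
  rw [key, hF, map_zero]

variable {D N : ℕ} {ι : Type*} (ρ : ι × Fin (D + 1) ↪ Fin N)

/-- The entries of the last row of a block. -/
def sp (p : ι × Fin (D + 1)) : Var D N := (Sum.inr (ρ (p.1, Fin.last D)), p.2)

theorem sp_injective : Function.Injective (sp ρ) := fun p q h => by
  simp only [sp, Prod.mk.injEq, Sum.inr.injEq, EmbeddingLike.apply_eq_iff_eq, and_true] at h
  exact Prod.ext h.1 h.2

section Sub

variable {R : Type*} [CommRing R]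

/-- Replace the last row of block `B` by a combination of its first `i B` rows. -/
noncomputable def sub (i : ι → ℕ) (c : ι × Fin (D + 1) → R) (x : Var D N → R) : Var D N → R :=
  Function.extend (sp ρ) (fun p => ∑ l : Fin (D + 1),
    if (l : ℕ) < i p.1 then c (p.1, l) * x (Sum.inr (ρ (p.1, l)), p.2) else 0) x

variable {ρ} {i : ι → ℕ} {c : ι × Fin (D + 1) → R} {x : Var D N → R}

theorem sub_sp (B : ι) (a : Fin (D + 1)) : sub ρ i c x (Sum.inr (ρ (B, Fin.last D)), a) =
    ∑ l : Fin (D + 1), if (l : ℕ) < i B then c (B, l) * x (Sum.inr (ρ (B, l)), a) else 0 :=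
  (sp_injective ρ).extend_apply _ _ (B, a)

theorem sub_not {y : Var D N} (h : ∀ B, y.1 ≠ Sum.inr (ρ (B, Fin.last D))) :
    sub ρ i c x y = x y :=
  Function.extend_apply' _ _ _ fun ⟨p, hp⟩ => h p.1 (hp ▸ rfl)

theorem var_cases (ρ : ι × Fin (D + 1) ↪ Fin N) (y : Var D N) :
    (∃ B a, y = (Sum.inr (ρ (B, Fin.last D)), a)) ∨ ∀ B, y.1 ≠ Sum.inr (ρ (B, Fin.last D)) := by
  by_contra h
  push Not at h
  obtain ⟨h1, B, h2⟩ := h
  exact h1 B y.2 (Prod.ext h2 rfl)

theorem sub_map {R' : Type*} [CommRing R'] (φ : R →+* R') :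
    (fun y => φ (sub ρ i c x y)) = sub ρ i (fun p => φ (c p)) fun y => φ (x y) := by
  funext y
  rcases var_cases ρ y with ⟨B, a, rfl⟩ | h
  · simp only [sub_sp, map_sum, apply_ite φ, map_mul, map_zero]
  · rw [sub_not h, sub_not h]

theorem act_sub (g g' : Sq D R) : act g g' (sub ρ i c x) = sub ρ i c (act g g' x) := by
  funext y
  rcases var_cases ρ y with ⟨B, a, rfl⟩ | h
  · simp only [sub_sp, act, Sum.elim_inr, Matrix.mul_apply, sections, Matrix.of_apply,
      Finset.sum_mul]
    rw [Finset.sum_comm]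
    refine Finset.sum_congr rfl fun l _ => ?_
    split_ifs
    · simp only [Finset.mul_sum, mul_assoc]
    · simp
  · rw [sub_not h]
    obtain ⟨r | r, a⟩ := y
    · have : pencil (sub ρ i c x) = pencil x := by
        ext r a
        exact sub_not fun _ => Sum.inl_ne_inr
      simp only [act, Sum.elim_inl, this]
    · simp only [act, Sum.elim_inr, Matrix.mul_apply, sections, Matrix.of_apply]
      exact Finset.sum_congr rfl fun a' _ => by rw [sub_not (y := (Sum.inr r, a')) h]

theorem sub_le {i' : ι → ℕ} (h : i ≤ i') :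
    sub ρ i c x = sub ρ i' (fun p => if (p.2 : ℕ) < i p.1 then c p else 0) x := by
  funext y
  rcases var_cases ρ y with ⟨B, a, rfl⟩ | hy
  · rw [sub_sp, sub_sp]
    refine Finset.sum_congr rfl fun l _ => ?_
    by_cases hl : (l : ℕ) < i B
    · simp only [hl, hl.trans_le (h B), if_true]
    · simp only [hl, if_false, zero_mul, ite_self]
  · rw [sub_not hy, sub_not hy]

end Sub

variable (k : Type*) [Field k]

/-- The prime ideal of the locus where the last row of block `B` depends on the first `i B`. -/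
noncomputable def tp (i : ι → ℕ) : Ideal (MvPolynomial (Var D N) k) :=
  RingHom.ker (aeval (sub ρ i (fun p => X (Sum.inr p)) fun y => X (Sum.inl y)) :
    MvPolynomial (Var D N) k →ₐ[k] MvPolynomial (Var D N ⊕ ι × Fin (D + 1)) k)

instance (i : ι → ℕ) : (tp ρ k i).IsPrime := RingHom.ker_isPrime _

variable {ρ k} {i : ι → ℕ}

theorem tp_aeval {F : MvPolynomial (Var D N) k} (hF : F ∈ tp ρ k i) {R : Type*} [CommRing R]
    [Algebra k R] (c : ι × Fin (D + 1) → R) (x : Var D N → R) : aeval (sub ρ i c x) F = 0 := by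
  have h := hom_aeval (k := k) (aeval (Sum.elim x c) :
    MvPolynomial (Var D N ⊕ ι × Fin (D + 1)) k →ₐ[k] R).toRingHom (by simp)
    (sub ρ i (fun p => X (Sum.inr p)) fun y => X (Sum.inl y)) F
  rw [tp, RingHom.mem_ker] at hF
  rw [hF, map_zero, sub_map] at h
  simpa using h.symm

theorem tp_inv : Inv (tp ρ k i) := by
  rintro s ⟨g, g', -, -, rfl⟩ F hF
  rw [tp, RingHom.mem_ker]
  refine (aeval_pull g g' _ F).trans ?_
  rw [act_sub]
  exact tp_aeval hF _ _

theorem tp_tails [Infinite k] : (⟨tp ρ k i, inferInstance⟩ : PrimeSpectrum _) ∈ Tails k D N := by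
  obtain ⟨x, h1, -, h2⟩ := exists_test (k := k) D N
  refine mem_tails_of_point h1 fun F hF => ?_
  have : sub ρ i 0 x = x := by
    funext y
    rcases var_cases ρ y with ⟨B, a, rfl⟩ | h
    · simp [sub_sp, h2]
    · exact sub_not h
  rw [← this]
  exact tp_aeval hF _ _

theorem tp_anti {i' : ι → ℕ} (h : i ≤ i') : tp ρ k i' ≤ tp ρ k i := fun F hF => by
  rw [tp, RingHom.mem_ker, sub_le h]
  exact tp_aeval hF _ _

/-- Weights constant along the columns of each block. -/
def Blk {Γ : Type*} (ρ : ι × Fin (D + 1) ↪ Fin N) (w : Var D N → Γ) : Prop :=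
  ∀ B l a, w (Sum.inr (ρ (B, l)), a) = w (Sum.inr (ρ (B, Fin.last D)), a)

theorem tp_gr {Γ : Type*} [AddCommGroup Γ] {w : Var D N → Γ} (hw : Blk ρ w) :
    Gr w (tp ρ k i) := by
  refine gr_ker (W := Sum.elim w 0) fun y => ?_
  rcases var_cases ρ y with ⟨B, a, rfl⟩ | h
  · rw [sub_sp]
    refine IsWeightedHomogeneous.sum _ _ _ fun l _ => ?_
    split_ifs
    · simpa [hw B l a] using (isWeightedHomogeneous_X k (Sum.elim w 0) (Sum.inr (B, l))).mul
        (isWeightedHomogeneous_X k (Sum.elim w 0) (Sum.inl (Sum.inr (ρ (B, l)), a)))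
    · exact isWeightedHomogeneous_zero _ _ _
  · rw [sub_not h]
    exact isWeightedHomogeneous_X k (Sum.elim w 0) (Sum.inl y)

/-- The rows `l < m` and the last row of block `B`, completed by unit rows. -/
def dm {R : Type*} [CommRing R] (ρ : ι × Fin (D + 1) ↪ Fin N) (B : ι) (m : Fin (D + 1))
    (x : Var D N → R) : Sq D R := Matrix.of fun l a =>
  if l < m then x (Sum.inr (ρ (B, l)), a) else if l = m then x (Sum.inr (ρ (B, Fin.last D)), a)
    else (1 : Sq D R) l a

theorem aeval_dm {R : Type*} [CommRing R] [Algebra k R] (B : ι) (m : Fin (D + 1))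
    (x : Var D N → R) :
    aeval x (dm ρ B m (X : Var D N → MvPolynomial (Var D N) k)).det = (dm ρ B m x).det := by
  rw [AlgHom.map_det]
  congr 1
  ext l a
  simp only [dm, AlgHom.mapMatrix_apply, Matrix.map_apply, Matrix.of_apply, Matrix.one_apply,
    apply_ite (aeval x), aeval_X, map_one, map_zero]

theorem ne_last {B : ι} {l m : Fin (D + 1)} (h : l < m) (a : Fin (D + 1)) (B' : ι) :
    ((Sum.inr (ρ (B, l)), a) : Var D N).1 ≠ Sum.inr (ρ (B', Fin.last D)) := fun h' => by
  have : l = Fin.last D := (Prod.ext_iff.mp (ρ.injective (Sum.inr_injective h'))).2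
  exact absurd (this ▸ h : Fin.last D < m) (not_lt.mpr (Fin.le_last m))

theorem exists_pt (B : ι) (m : Fin (D + 1)) : ∃ (p : Var D N → k) (F : MvPolynomial (Var D N) k),
    (∀ i : ι → ℕ, i B ≤ m → F ∈ tp ρ k i) ∧ aeval p F ≠ 0 ∧
    (∀ i : ι → ℕ, m < i B → ∀ G ∈ tp ρ k i, aeval p G = 0) ∧
    ∀ y, p y ≠ 0 → ∃ l a, a ≤ m ∧ y = (Sum.inr (ρ (B, l)), a) := by
  classical
  let x : Var D N → k := fun y => if y.2 ≤ m ∧ y.1 = Sum.inr (ρ (B, y.2)) then 1 else 0
  let c : ι × Fin (D + 1) → k := fun p => if p = (B, m) then 1 else 0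
  have hx : ∀ l ≤ m, ∀ a, x (Sum.inr (ρ (B, l)), a) = (1 : Sq D k) l a := fun l hl a => by
    by_cases h : l = a
    · subst h
      simp [x, hl]
    · simp [x, h]
  have h1 : ∀ i : ι → ℕ, m < i B → ∀ B' a, sub ρ i c x (Sum.inr (ρ (B', Fin.last D)), a) =
      if B' = B then (1 : Sq D k) m a else 0 := fun i hi B' a => by
    rw [sub_sp]
    split_ifs with h
    · rw [Finset.sum_eq_single m (fun l _ hl => by simp [c, hl]) (by simp), h, if_pos hi,
        hx m le_rfl]
      simp [c]
    · simp [c, h]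
  refine ⟨sub ρ (fun _ => m + 1) c x, (dm ρ B m X).det, fun i hi => ?_, ?_, fun i hi G hG => ?_,
    fun y hy => ?_⟩
  · rw [tp, RingHom.mem_ker, aeval_dm]
    set z := sub ρ i (fun p => (X (Sum.inr p) : MvPolynomial (Var D N ⊕ ι × Fin (D + 1)) k))
      fun y => X (Sum.inl y) with hz
    have h2 := Matrix.det_updateRow_sum (dm ρ B m z) m
      fun l => if (l : ℕ) < i B then X (Sum.inr (B, l)) else 0
    rw [if_neg (not_lt.mpr hi), zero_smul] at h2
    rw [← h2]
    congr 1
    ext1 l a
    rw [Matrix.updateRow_apply]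
    split_ifs with h
    · simp only [h, dm, Matrix.of_apply, lt_irrefl, if_false, if_true, Finset.sum_apply,
        Pi.smul_apply, smul_eq_mul, hz, sub_sp]
      refine Finset.sum_congr rfl fun l _ => ?_
      by_cases hl : (l : ℕ) < i B
      · have h3 : l < m := hl.trans_le hi
        rw [if_pos hl, if_pos hl, if_pos h3, sub_not (ne_last h3 a)]
      · rw [if_neg hl, if_neg hl, zero_mul]
    · rfl
  · have : dm ρ B m (sub ρ (fun _ => m + 1) c x) = 1 := by
      ext l a
      simp only [dm, Matrix.of_apply]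
      split_ifs with h h'
      · rw [sub_not (ne_last h a), hx l h.le]
      · rw [h1 _ (Nat.lt_succ_self _), if_pos rfl, h']
      · rfl
    rw [aeval_dm, this, Matrix.det_one]
    exact one_ne_zero
  · have : sub ρ (fun _ => m + 1) c x = sub ρ i c x := by
      funext y
      rcases var_cases ρ y with ⟨B', a, rfl⟩ | h
      · rw [h1 _ (Nat.lt_succ_self _), h1 _ hi]
      · rw [sub_not h, sub_not h]
    rw [this]
    exact tp_aeval hG _ _
  · rcases var_cases ρ y with ⟨B', a, rfl⟩ | h
    · rw [h1 _ (Nat.lt_succ_self _)] at hy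
      split_ifs at hy with h
      · exact ⟨_, a, by by_contra h'; exact hy (Matrix.one_apply_ne fun e => h' e.ge), by rw [h]⟩
      · exact absurd rfl hy
    · rw [sub_not h] at hy
      have h2 := (ite_ne_right_iff.mp hy).1
      exact ⟨y.2, y.2, h2.1, Prod.ext h2.2 rfl⟩

theorem tp_lt {i' : ι → ℕ} (h : i ≤ i') {B : ι} (h1 : i B < i' B) (h2 : i B ≤ D) :
    tp ρ k i' < tp ρ k i := by
  obtain ⟨p, F, h3, h4, h5, -⟩ := exists_pt (ρ := ρ) (k := k) B ⟨i B, Nat.lt_succ_of_le h2⟩
  exact lt_of_le_of_ne (tp_anti h) fun e => h4 (h5 i' h1 F (e ▸ h3 i le_rfl))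

variable [Fintype ι]

theorem le_ht_tp (n : ℕ) : ∀ i : ι → ℕ, n ≤ ∑ B, (D + 1 - i B) → (n : ℕ∞) ≤ (tp ρ k i).height := by
  classical
  induction n with
  | zero => simp
  | succ n ih =>
    intro i hi
    obtain ⟨B, -, hB⟩ := Finset.exists_ne_zero_of_sum_ne_zero (s := Finset.univ)
      (f := fun B => D + 1 - i B) (by omega)
    have h1 := ih (Function.update i B (i B + 1)) (by
      rw [← Finset.add_sum_erase _ _ (Finset.mem_univ B)] at hi ⊢
      rw [Finset.sum_congr rfl (g := fun B => D + 1 - i B) fun B' hB' => by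
        rw [Function.update_of_ne (Finset.ne_of_mem_erase hB')], Function.update_self]
      omega)
    push_cast
    exact le_trans (by gcongr) (ht_lt (tp_lt (i := i) (B := B)
      (le_update_iff.mpr ⟨Nat.le_succ _, fun _ _ => le_rfl⟩) (by simp) (by omega)))

theorem up_tp (n : ℕ) : ∀ i : ι → ℕ, (∀ B, i B ≤ D + 1) → n ≤ ∑ B, i B →
    Up (tp ρ k i) (Fintype.card (Var D N) - Fintype.card ι * (D + 1) + n) := by
  classical
  induction n with
  | zero =>
    intro i _ _
    refine (up_cs (Finset.univ.image (sp ρ))ᶜ).mono ((tp_anti (i := 0) fun _ => Nat.zero_le _).trans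
      fun F hF => ?_) ?_
    · rw [cs, RingHom.mem_ker]
      refine Eq.trans ?_ (tp_aeval hF 0 X)
      congr 2
      funext y
      rw [Finset.coe_compl, compl_compl, Finset.coe_image, Finset.coe_univ, Set.image_univ]
      rcases var_cases ρ y with ⟨B, a, rfl⟩ | h
      · rw [if_pos ⟨(B, a), rfl⟩, sub_sp]
        simp
      · rw [if_neg fun ⟨p, e⟩ => h p.1 (e ▸ rfl), sub_not h]
    · rw [Finset.card_compl, Finset.card_image_of_injective _ (sp_injective ρ)]
      simp
  | succ n ih =>
    intro i h hi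
    obtain ⟨B, -, hB⟩ := Finset.exists_ne_zero_of_sum_ne_zero (s := Finset.univ) (f := i)
      (by omega)
    have h0 : Function.update i B (i B - 1) ≤ i :=
      update_le_iff.mpr ⟨Nat.sub_le _ _, fun _ _ => le_rfl⟩
    have := h B
    exact (ih (Function.update i B (i B - 1)) (fun B => (h0 B).trans (h B)) (by
      rw [← Finset.add_sum_erase _ _ (Finset.mem_univ B)] at hi ⊢
      rw [Finset.sum_congr rfl (g := fun B => i B) fun B' hB' => by
        rw [Function.update_of_ne (Finset.ne_of_mem_erase hB')], Function.update_self]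
      omega)).step (tp_lt h0 (B := B) (by simp; omega) (by simp; omega))

theorem tp_spec {j : ι → ℕ} (hj : ∀ B, j B ≤ D + 1) :
    (tp ρ k fun B => D + 1 - j B).height = (∑ B, j B : ℕ) ∧
      0 < cls (∑ B, j B) (fun _ => (-1 : ℚ)) (tp ρ k fun B => D + 1 - j B) := by
  have h1 := le_ht_tp (ρ := ρ) (k := k) (∑ B, j B) (fun B => D + 1 - j B)
    (Finset.sum_le_sum fun B _ => by have := hj B; omega)
  have h2 := up_tp (ρ := ρ) (k := k) _ (fun B => D + 1 - j B) (fun B => Nat.sub_le _ _) le_rfl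
  have h3 : ∑ B, j B + ∑ B, (D + 1 - j B) = Fintype.card ι * (D + 1) := by
    rw [← Finset.sum_add_distrib, Finset.sum_congr rfl fun B _ => Nat.add_sub_cancel' (hj B)]
    simp
  have h4 : Fintype.card (Var D N) ≤ ∑ B, j B +
    (Fintype.card (Var D N) - Fintype.card ι * (D + 1) + ∑ B, (D + 1 - j B)) := by omega
  refine ⟨le_antisymm ?_ h1, cls_pos (tp_gr fun _ _ _ => rfl) h1 h2 h4⟩
  have h5 := h2.ht.trans (Nat.cast_le.mpr h4)
  rw [Nat.cast_add (∑ B, j B)] at h5
  exact (ENat.add_le_add_iff_right (ENat.coe_ne_top _)).mp h5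

end Pool.Agent.MP_52bf41_ag.H1
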